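import Pool.Agent.H71.CN.Rob

/-!
# Assembly of the paths
-/

set_option autoImplicit false

namespace Pool.Agent.H71.CN

open Finset

section
variable {V : Type} [Fintype V] [DecidableEq V]

/-- any `K` pairs are joined by pairwise edge-disjoint paths -/
def Lk (G : SimpleGraph V) (K : ℕ) : Prop := ∀ u v : Fin K → V,
  ∃ P : ∀ i, G.Walk (u i) (v i), (∀ i, (P i).IsPath) ∧
    ∀ i j, i ≠ j → ∀ e ∈ (P i).edges, e ∉ (P j).edges

omit [Fintype V] in
lemma jo_trans {G : SimpleGraph V} {A B : Finset (Sym2 V)} {a b c : V} (h1 : Jo G A a b)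
    (h2 : Jo G B b c) : Jo G (A ∪ B) a c := by
  obtain ⟨w1, h1⟩ := h1
  obtain ⟨w2, h2⟩ := h2
  refine ⟨w1.append w2, ?_⟩
  intro e he
  rw [SimpleGraph.Walk.edges_append, List.mem_append] at he
  rcases he with he | he
  · exact mem_union_left _ (h1 e he)
  · exact mem_union_right _ (h2 e he)

omit [Fintype V] [DecidableEq V] in
lemma jo_symm {G : SimpleGraph V} {A : Finset (Sym2 V)} {a b : V} (h1 : Jo G A a b) :
    Jo G A b a := by
  obtain ⟨w1, h1⟩ := h1
  refine ⟨w1.reverse, ?_⟩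
  intro e he
  rw [SimpleGraph.Walk.edges_reverse, List.mem_reverse] at he
  exact h1 e he

/-- the linkage follows from a linkage of the moved pairs -/
theorem lk_of (G : SimpleGraph V) [DecidableRel G.Adj] (K t : ℕ) (N : Finset V) (ht : 1 ≤ t)
    (hK : K ≤ t ^ 2) (hdeg : ∀ x, K ≤ dg G x)
    (h : ∀ (Z : Finset V) (U : Finset (Sym2 V)) (R : Finset (Fin K)) (p q : Fin K → V),
      Z.card ≤ t → (∀ i ∈ R, p i ∉ Z ∧ q i ∉ Z) → (∀ x ∈ N, x ∉ Z) →
      (∀ w, w ∉ Z → us U w + (R.filter (fun i => p i = w)).card +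
        (R.filter (fun i => q i = w)).card ≤ (if w ∈ N then K else 2 * t) + 2 * t) →
      ∃ F : Fin K → Finset (Sym2 V), (∀ i ∈ R, Disjoint (F i) U) ∧
        (∀ i ∈ R, ∀ j ∈ R, i ≠ j → Disjoint (F i) (F j)) ∧ ∀ i ∈ R, Jo G (F i) (p i) (q i)) :
    Lk G K := by
  intro u v
  obtain ⟨Z, dir, R, p, q, Xp, Xq, h1, h2, h3, h4, h5, h6, h7, h8, h9, h10, h11, h12⟩ :=
    exits G K t N u v ht hK hdeg
  obtain ⟨F, f1, f2, f3⟩ := h Z _ R p q h1 h6 h11 h12
  have hXU : ∀ i ∈ R, Xp i ∪ Xq i ⊆ (dir.image (fun j => s(u j, v j))) ∪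
      R.biUnion (fun i => Xp i ∪ Xq i) := by
    intro i hi
    exact (Finset.subset_biUnion_of_mem (fun i => Xp i ∪ Xq i) hi).trans subset_union_right
  have hDU : ∀ j ∈ dir, s(u j, v j) ∈ (dir.image (fun j => s(u j, v j))) ∪
      R.biUnion (fun i => Xp i ∪ Xq i) := by
    intro j hj
    exact mem_union_left _ (mem_image.2 ⟨j, hj, rfl⟩)
  obtain ⟨rt, hrt⟩ : ∃ rt : Fin K → Finset (Sym2 V), ∀ i, rt i =
      if i ∈ dir then {s(u i, v i)} else if i ∈ R then (Xp i ∪ F i) ∪ Xq i else ∅ :=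
    ⟨_, fun _ => rfl⟩
  have hjo : ∀ i, Jo G (rt i) (u i) (v i) := by
    intro i
    rw [hrt]
    split_ifs with hd hR
    · exact x_jo1 G _ _ (h4 i hd)
    · exact jo_trans (jo_trans (h7 i hR).1 (f3 i hR)) (h7 i hR).2
    · have huv : u i = v i := by
        by_contra hne
        rcases h2 i hne with h | h
        · exact hd h
        · exact hR h
      rw [huv]
      exact x_jo0 G _
  have hRR : ∀ i ∈ R, ∀ j ∈ R, i ≠ j → Disjoint ((Xp i ∪ F i) ∪ Xq i)
      ((Xp j ∪ F j) ∪ Xq j) := by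
    intro i hi j hj hij
    have a1 := h9 i hi j hj hij
    have a2 := f2 i hi j hj hij
    have a3 : Disjoint (F i) (Xp j ∪ Xq j) :=
      Finset.disjoint_of_subset_right (hXU j hj) (f1 i hi)
    have a4 : Disjoint (Xp i ∪ Xq i) (F j) :=
      (Finset.disjoint_of_subset_right (hXU i hi) (f1 j hj)).symm
    rw [Finset.disjoint_left] at a1 a2 a3 a4 ⊢
    intro e he he'
    simp only [mem_union] at a1 a3 a4 he he'
    rcases he with (he | he) | he <;> rcases he' with (he' | he') | he'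
    · exact a1 (Or.inl he) (Or.inl he')
    · exact a4 (Or.inl he) he'
    · exact a1 (Or.inl he) (Or.inr he')
    · exact a3 he (Or.inl he')
    · exact a2 he he'
    · exact a3 he (Or.inr he')
    · exact a1 (Or.inr he) (Or.inl he')
    · exact a4 (Or.inr he) he'
    · exact a1 (Or.inr he) (Or.inr he')
  have hDR : ∀ i ∈ dir, ∀ j ∈ R, s(u i, v i) ∉ (Xp j ∪ F j) ∪ Xq j := by
    intro i hi j hj he
    have a1 := h10 j hj i hi
    rcases mem_union.1 he with he | he
    · rcases mem_union.1 he with he | he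
      · exact a1.1 he
      · exact Finset.disjoint_left.1 (f1 j hj) he (hDU i hi)
    · exact a1.2 he
  have hdis : ∀ i j, i ≠ j → Disjoint (rt i) (rt j) := by
    intro i j hij
    rw [hrt, hrt]
    split_ifs with hid hjd hjR hiR hjd hjR
    · rw [Finset.disjoint_singleton]
      exact h5 i hid j hjd hij
    · rw [Finset.disjoint_singleton_left]
      exact hDR i hid j hjR
    · exact Finset.disjoint_empty_right _
    · rw [Finset.disjoint_singleton_right]
      exact hDR j hjd i hiR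
    · exact hRR i hiR j hjR hij
    · exact Finset.disjoint_empty_right _
    · exact Finset.disjoint_empty_left _
    · exact Finset.disjoint_empty_left _
    · exact Finset.disjoint_empty_left _
  choose w hw using hjo
  refine ⟨fun i => (w i).bypass, fun i => (w i).bypass_isPath, ?_⟩
  intro i j hij e he he'
  exact Finset.disjoint_left.1 (hdis i j hij)
    (hw i e ((w i).edges_bypass_subset_edges he))
    (hw j e ((w j).edges_bypass_subset_edges he'))

/-- the greedy procedure for a part of the demands -/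
theorem greedyR (G : SimpleGraph V) (l K s L : ℕ) (Q : V → ℕ) (Z : Finset V)
    (U : Finset (Sym2 V)) (R : Finset (Fin K)) (p q : Fin K → V)
    (hH : Rob G l s (l * K / L) (fun w => Q w + 2 * L)) (hZ : Z.card ≤ s) (hL : 1 ≤ L)
    (hpq : ∀ i ∈ R, p i ∉ Z ∧ q i ∉ Z)
    (hUs : ∀ w, w ∉ Z → us U w + (R.filter (fun i => p i = w)).card +
      (R.filter (fun i => q i = w)).card ≤ Q w) :
    ∃ F : Fin K → Finset (Sym2 V), (∀ i ∈ R, Disjoint (F i) U) ∧
      (∀ i ∈ R, ∀ j ∈ R, i ≠ j → Disjoint (F i) (F j)) ∧ ∀ i ∈ R, Jo G (F i) (p i) (q i) := by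
  obtain ⟨F, f1, f2, f3⟩ := greedy (I := {i // i ∈ R}) G l s L K Q Z U
    (fun i => p i) (fun i => q i) hH hZ hL
    (by
      rw [Fintype.card_coe]
      exact le_trans (Finset.card_le_univ R) (le_of_eq (Fintype.card_fin K)))
    (fun i => hpq i i.2) (by
      intro w hwZ
      have h1 := hUs w hwZ
      have h2 : (univ.filter (fun i : {i // i ∈ R} => p i = w)).card ≤
          (R.filter (fun i => p i = w)).card := by
        refine Finset.card_le_card_of_injOn (fun i => (i : Fin K)) ?_ ?_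
        · intro i hi
          exact Finset.mem_coe.2 (mem_filter.2 ⟨i.2, (mem_filter.1 (Finset.mem_coe.1 hi)).2⟩)
        · intro i _ j _ hij
          exact Subtype.ext hij
      have h3 : (univ.filter (fun i : {i // i ∈ R} => q i = w)).card ≤
          (R.filter (fun i => q i = w)).card := by
        refine Finset.card_le_card_of_injOn (fun i => (i : Fin K)) ?_ ?_
        · intro i hi
          exact Finset.mem_coe.2 (mem_filter.2 ⟨i.2, (mem_filter.1 (Finset.mem_coe.1 hi)).2⟩)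
        · intro i _ j _ hij
          exact Subtype.ext hij
      omega)
  refine ⟨fun i => if h : i ∈ R then F ⟨i, h⟩ else ∅, ?_, ?_, ?_⟩
  · intro i hi
    beta_reduce
    rw [dif_pos hi]
    exact f1 ⟨i, hi⟩
  · intro i hi j hj hij
    beta_reduce
    rw [dif_pos hi, dif_pos hj]
    exact f2 ⟨i, hi⟩ ⟨j, hj⟩ (fun h => hij (congrArg Subtype.val h))
  · intro i hi
    beta_reduce
    rw [dif_pos hi]
    exact f3 ⟨i, hi⟩

/-- many common neighbours -/
theorem lk_hyp (G : SimpleGraph V) [DecidableRel G.Adj] (K t : ℕ) (ht : 1 ≤ t)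
    (hK : K ≤ t ^ 2) (hdeg : ∀ x, K ≤ dg G x) (hH : Hyp G (20 * t)) : Lk G K := by
  refine lk_of G K t ∅ ht hK hdeg ?_
  intro Z U R p q hZ hpq _ hw
  have hKt : 2 * K / (2 * t) ≤ t := by
    apply Nat.div_le_of_le_mul
    nlinarith
  refine greedyR G 2 K t (2 * t) (fun _ => 4 * t) Z U R p q
    (rob_hyp G (20 * t) t (2 * K / (2 * t)) (4 * t + 2 * (2 * t)) hH (by omega)) hZ (by omega)
    hpq ?_
  intro w hwZ
  have h1 := hw w hwZ
  rw [if_neg (Finset.notMem_empty w)] at h1
  omega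

/-- the root -/
lemma sqrt_aux (K : ℕ) (hK : 1 ≤ K) : K ≤ (Nat.sqrt K + 1) ^ 2 ∧
    (Nat.sqrt K + 1) ^ 2 ≤ 4 * K := by
  have h1 := Nat.lt_succ_sqrt K
  have h2 := Nat.sqrt_le K
  have h3 : 1 ≤ Nat.sqrt K := Nat.le_sqrt.2 (by simpa using hK)
  constructor
  · rw [pow_two]
    exact h1.le
  · nlinarith

end

end Pool.Agent.H71.CN
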