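import Pool.Agent.H71.CN.Rob

/-!
# Far apart vertices and their connection
-/

set_option autoImplicit false

namespace Pool.Agent.H71.CN

open Finset

section
variable {V : Type} [Fintype V] [DecidableEq V]

lemma ball_add (H : V → V → Prop) [DecidableRel H] (p x : V) (r : ℕ) (hx : x ∈ ball H p r)
    (s : ℕ) : ∀ y ∈ ball H x s, y ∈ ball H p (r + s) := by
  induction s with
  | zero =>
    intro y hy
    rw [ball, mem_singleton] at hy
    rw [hy]
    exact hx
  | succ s ih =>
    intro y hy
    rw [ball, mem_union, mem_filter] at hy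
    rcases hy with hy | ⟨_, z, hz, hzy⟩
    · exact ball_sub H p (r + s) (ih y hy)
    · exact ball_step H p (r + s) (ih z hz) hzy

lemma ball_symm (H : V → V → Prop) [DecidableRel H] (hs : ∀ x y, H x y → H y x) (p : V)
    (r : ℕ) : ∀ y ∈ ball H p r, p ∈ ball H y r := by
  induction r with
  | zero =>
    intro y hy
    rw [ball, mem_singleton] at hy
    rw [hy]
    exact ball_self H p 0
  | succ r ih =>
    intro y hy
    rw [ball, mem_union, mem_filter] at hy
    rcases hy with hy | ⟨_, z, hz, hzy⟩
    · exact ball_sub H y r (ih y hy)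
    · have h1 : z ∈ ball H y 1 := ball_step H y 0 (ball_self H y 0) (hs z y hzy)
      have h2 := ball_add H y z 1 h1 r p (ih z hz)
      rw [Nat.add_comm 1 r] at h2
      exact h2

lemma ball_card (G : SimpleGraph V) [DecidableRel G.Adj] (L : ℕ) (hL : ∀ x, dg G x ≤ L)
    (p : V) (r : ℕ) : (ball G.Adj p r).card ≤ (L + 1) ^ r := by
  induction r with
  | zero =>
    rw [ball]
    simp
  | succ r ih =>
    have h1 : ball G.Adj p (r + 1) ⊆ ball G.Adj p r ∪
        (ball G.Adj p r).biUnion (fun x => univ.filter (fun y => G.Adj x y)) := by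
      intro y hy
      rw [ball, mem_union, mem_filter] at hy
      rcases hy with hy | ⟨_, x, hx, hxy⟩
      · exact mem_union_left _ hy
      · exact mem_union_right _ (mem_biUnion.2 ⟨x, hx, mem_filter.2 ⟨mem_univ _, hxy⟩⟩)
    have h2 := Finset.card_le_card h1
    have h3 := Finset.card_union_le (ball G.Adj p r)
      ((ball G.Adj p r).biUnion (fun x => univ.filter (fun y => G.Adj x y)))
    have h4 : ((ball G.Adj p r).biUnion (fun x => univ.filter (fun y => G.Adj x y))).card ≤
        (ball G.Adj p r).card * L := by
      refine le_trans Finset.card_biUnion_le ?_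
      rw [← smul_eq_mul]
      exact Finset.sum_le_card_nsmul _ _ _ (fun x _ => hL x)
    calc (ball G.Adj p (r + 1)).card ≤ (ball G.Adj p r).card + (ball G.Adj p r).card * L := by
          omega
      _ = (ball G.Adj p r).card * (L + 1) := by ring
      _ ≤ (L + 1) ^ r * (L + 1) := Nat.mul_le_mul_right _ ih
      _ = (L + 1) ^ (r + 1) := by ring

/-- **a large set of far apart vertices** -/
theorem sepset (G : SimpleGraph V) [DecidableRel G.Adj] (L r : ℕ) (hL : ∀ x, dg G x ≤ L)
    (Z : Finset V) : ∀ m : ℕ, Z.card + m * (L + 1) ^ (2 * r) < Fintype.card V →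
    ∃ y : Fin m → V, (∀ j, y j ∉ Z) ∧
      ∀ j k, j ≠ k → Disjoint (ball G.Adj (y j) r) (ball G.Adj (y k) r) := by
  intro m
  induction m with
  | zero =>
    intro _
    exact ⟨fun j => j.elim0, fun j => j.elim0, fun j => j.elim0⟩
  | succ m ih =>
    intro hm
    have h0 : (m + 1) * (L + 1) ^ (2 * r) = m * (L + 1) ^ (2 * r) + (L + 1) ^ (2 * r) := by ring
    obtain ⟨y, hy1, hy2⟩ := ih (by omega)
    have h1 : (Z ∪ univ.biUnion (fun j => ball G.Adj (y j) (2 * r))).card < Fintype.card V := by
      have h2 := Finset.card_union_le Z (univ.biUnion (fun j => ball G.Adj (y j) (2 * r)))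
      have h3 : (univ.biUnion (fun j => ball G.Adj (y j) (2 * r))).card ≤
          m * (L + 1) ^ (2 * r) := by
        refine le_trans Finset.card_biUnion_le ?_
        have := Finset.sum_le_card_nsmul univ (fun j => (ball G.Adj (y j) (2 * r)).card)
          ((L + 1) ^ (2 * r)) (fun j _ => ball_card G L hL (y j) (2 * r))
        rw [Finset.card_univ, Fintype.card_fin, smul_eq_mul] at this
        exact this
      omega
    rw [← Finset.card_univ] at h1
    obtain ⟨z, _, hz⟩ := Finset.exists_mem_notMem_of_card_lt_card h1
    rw [mem_union, not_or] at hz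
    have hzd : ∀ j, Disjoint (ball G.Adj (y j) r) (ball G.Adj z r) := by
      intro j
      rw [Finset.disjoint_left]
      intro c hc hc'
      have h2 := ball_symm G.Adj (fun x y h => h.symm) z r c hc'
      have h3 := ball_add G.Adj (y j) c r hc r z h2
      rw [← two_mul] at h3
      exact hz.2 (mem_biUnion.2 ⟨j, mem_univ _, h3⟩)
    refine ⟨Fin.cons z y, ?_, ?_⟩
    · intro j
      refine Fin.cases ?_ (fun j => ?_) j
      · exact hz.1
      · exact hy1 j
    · intro j k
      refine Fin.cases ?_ (fun j => ?_) j
      · refine Fin.cases ?_ (fun k => ?_) k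
        · intro h
          exact absurd rfl h
        · intro _
          exact (hzd k).symm
      · refine Fin.cases ?_ (fun k => ?_) k
        · intro _
          exact hzd j
        · intro h
          exact hy2 j k (fun h' => h (by rw [h']))

lemma us_sum (P : Finset (Sym2 V)) (S : Finset V) : ∑ x ∈ S, us P x ≤ 2 * P.card := by
  classical
  induction P using Finset.induction_on with
  | empty => simp [us]
  | insert e P he ih =>
    have h1 : ∀ x, us (insert e P) x ≤ us {e} x + us P x := by
      intro x
      have := g_us_union {e} P x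
      rwa [← Finset.insert_eq] at this
    have h2 : ∑ x ∈ S, us (insert e P) x ≤ ∑ x ∈ S, us {e} x + ∑ x ∈ S, us P x := by
      rw [← Finset.sum_add_distrib]
      exact Finset.sum_le_sum (fun x _ => h1 x)
    have h3 : ∑ x ∈ S, us {e} x ≤ 2 := by
      induction e using Sym2.ind with
      | _ a b =>
        have h4 : ∑ x ∈ S, us {s(a, b)} x ≤
            ∑ x ∈ S, ((if a = x then 1 else 0) + (if b = x then 1 else 0)) :=
          Finset.sum_le_sum (fun x _ => g_us_single a b x)
        rw [Finset.sum_add_distrib, Finset.sum_ite_eq, Finset.sum_ite_eq] at h4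
        split_ifs at h4 <;> omega
    rw [Finset.card_insert_of_notMem he]
    omega

omit [DecidableEq V] in
/-- the pairs from `S` to `Q` -/
lemma pairs_le (G : SimpleGraph V) [DecidableRel G.Adj] (L : ℕ) (hL : ∀ x, dg G x ≤ L)
    (S Q : Finset V) : ∑ x ∈ S, (Q.filter (fun y => G.Adj x y)).card ≤ Q.card * L := by
  have h3 : ∑ x ∈ S, (Q.filter (fun y => G.Adj x y)).card =
      ∑ y ∈ Q, (S.filter (fun x => G.Adj x y)).card := by
    simp only [Finset.card_filter]
    exact Finset.sum_comm
  rw [h3, ← smul_eq_mul]
  refine Finset.sum_le_card_nsmul _ _ _ ?_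
  intro y _
  refine le_trans ?_ (hL y)
  unfold dg
  refine Finset.card_le_card ?_
  intro x hx
  rw [mem_filter] at hx ⊢
  exact ⟨mem_univ _, hx.2.symm⟩

lemma pow_lift (A r r' M v : ℕ) (hA : 1 ≤ A) (hr : r ≤ r') (h : A ^ r * M ≤ (A + 1) ^ r)
    (h' : (A + 1) ^ r' ≤ A ^ r' * v) : M ≤ v := by
  obtain ⟨d, rfl⟩ := Nat.exists_eq_add_of_le hr
  have h1 : A ^ d ≤ (A + 1) ^ d := Nat.pow_le_pow_left (Nat.le_succ A) d
  have h2 : A ^ (r + d) * M ≤ A ^ (r + d) * v := by
    calc A ^ (r + d) * M = A ^ d * (A ^ r * M) := by ring
      _ ≤ (A + 1) ^ d * (A + 1) ^ r := Nat.mul_le_mul h1 h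
      _ = (A + 1) ^ (r + d) := by ring
      _ ≤ A ^ (r + d) * v := h'
  exact Nat.le_of_mul_le_mul_left h2 (by positivity)

/-- **connection of far apart pairs** -/
theorem connect {I : Type} [Fintype I] [DecidableEq I] (G : SimpleGraph V)
    [DecidableRel G.Adj] (E K t L β r₀ r₁ R : ℕ) (Z : Finset V) (U : Finset (Sym2 V))
    (a b : I → V) (hE : 1 ≤ E) (hC : Cond G E) (hdeg : ∀ x, 1 ≤ dg G x)
    (hL : ∀ x, dg G x ≤ L) (hZ : Z.card ≤ t) (hI : Fintype.card I ≤ K)
    (hab : ∀ i, a i ∉ Z ∧ b i ∉ Z) (hload : ∀ x, x ∉ Z → 8 * (E * (us U x + t)) ≤ dg G x)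
    (hr : r₀ ≤ r₁) (hβ : ∀ x, (ball G.Adj x r₀).card ≤ β)
    (hfar : ∀ i j, i ≠ j → ∀ x y, (x = a i ∨ x = b i) → (y = a j ∨ y = b j) →
      Disjoint (ball G.Adj x r₁) (ball G.Adj y r₁))
    (h0 : (2 * E) ^ r₀ * (16 * E * K * (2 * R)) ≤ (2 * E + 1) ^ r₀)
    (h1 : (2 * E) ^ r₁ * (16 * E * K * β * L) ≤ (2 * E + 1) ^ r₁)
    (hR : (2 * E) ^ R * vol G univ ≤ (2 * E + 1) ^ R) :
    ∃ F : I → Finset (Sym2 V), (∀ i, Disjoint (F i) U) ∧
      (∀ i j, i ≠ j → Disjoint (F i) (F j)) ∧ ∀ i, Jo G (F i) (a i) (b i) := by
  classical
  have key : ∀ J : Finset I, ∃ F : I → Finset (Sym2 V), (∀ i ∈ J, Disjoint (F i) U) ∧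
      (∀ i ∈ J, ∀ j ∈ J, i ≠ j → Disjoint (F i) (F j)) ∧ (∀ i ∈ J, Jo G (F i) (a i) (b i)) ∧
      (∀ i ∈ J, (F i).card ≤ 2 * R) ∧
      ∀ i ∈ J, ∀ j, j ∉ J → ∀ e ∈ F i, ∀ z ∈ e, z ∉ ball G.Adj (a j) r₀ ∧
        z ∉ ball G.Adj (b j) r₀ := by
    intro J
    induction J using Finset.induction_on with
    | empty => exact ⟨fun _ => ∅, by simp, by simp, by simp, by simp, by simp⟩
    | insert i J hi ih =>
      obtain ⟨F, f1, f2, f3, f4, f5⟩ := ih
      set P := J.biUnion F with hP
      set Q := ((univ : Finset I) \ insert i J).biUnion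
        (fun j => ball G.Adj (a j) r₀ ∪ ball G.Adj (b j) r₀) with hQ
      have hPc : P.card ≤ K * (2 * R) := by
        have h2 : P.card ≤ ∑ j ∈ J, (F j).card := Finset.card_biUnion_le
        have h3 : ∑ j ∈ J, (F j).card ≤ J.card * (2 * R) := by
          rw [← smul_eq_mul]
          exact Finset.sum_le_card_nsmul _ _ _ f4
        have h4 : J.card ≤ K := le_trans (Finset.card_le_univ J) hI
        exact le_trans h2 (le_trans h3 (Nat.mul_le_mul_right _ h4))
      have hQc : Q.card ≤ K * (2 * β) := by
        have h2 : Q.card ≤ ∑ j ∈ ((univ : Finset I) \ insert i J),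
            (ball G.Adj (a j) r₀ ∪ ball G.Adj (b j) r₀).card := Finset.card_biUnion_le
        have h3 : ∑ j ∈ ((univ : Finset I) \ insert i J),
            (ball G.Adj (a j) r₀ ∪ ball G.Adj (b j) r₀).card ≤
            ((univ : Finset I) \ insert i J).card * (2 * β) := by
          rw [← smul_eq_mul]
          refine Finset.sum_le_card_nsmul _ _ _ ?_
          intro j _
          have h4 := Finset.card_union_le (ball G.Adj (a j) r₀) (ball G.Adj (b j) r₀)
          have h5 := hβ (a j)
          have h6 := hβ (b j)
          omega
        have h4 : ((univ : Finset I) \ insert i J).card ≤ K :=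
          le_trans (Finset.card_le_univ _) hI
        exact le_trans h2 (le_trans h3 (Nat.mul_le_mul_right _ h4))
      have hQm : ∀ z ∈ Q, ∃ j, j ∉ insert i J ∧
          (z ∈ ball G.Adj (a j) r₀ ∨ z ∈ ball G.Adj (b j) r₀) := by
        intro z hz
        rw [hQ, mem_biUnion] at hz
        obtain ⟨j, hj, hz⟩ := hz
        exact ⟨j, (mem_sdiff.1 hj).2, mem_union.1 hz⟩
      -- points of `Q` are far from the ends of the pair `i`
      have hQfar : ∀ p, (p = a i ∨ p = b i) → ∀ z ∈ Q, z ∉ ball G.Adj p r₁ := by
        intro p hp z hz hzp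
        obtain ⟨j, hj, hzj⟩ := hQm z hz
        have hij : i ≠ j := fun h => hj (by rw [← h]; exact mem_insert_self i J)
        rcases hzj with hzj | hzj
        · exact Finset.disjoint_left.1 (hfar i j hij p (a j) hp (Or.inl rfl)) hzp
            (ball_mono _ _ hr hzj)
        · exact Finset.disjoint_left.1 (hfar i j hij p (b j) hp (Or.inr rfl)) hzp
            (ball_mono _ _ hr hzj)
      obtain ⟨H, hHdef⟩ : ∃ H : V → V → Prop, ∀ x y, H x y ↔ (G.Adj x y ∧ s(x, y) ∉ U ∧
          s(x, y) ∉ P ∧ x ∉ Z ∧ y ∉ Z ∧ x ∉ Q ∧ y ∉ Q) := ⟨_, fun _ _ => Iff.rfl⟩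
      have hHG : ∀ x y, H x y → G.Adj x y := fun x y h => ((hHdef x y).1 h).1
      have big : ∀ p : V, (p = a i ∨ p = b i) → vol G univ < 2 * vol G (ball H p R) := by
        intro p hp
        have hpZ : p ∉ Z := by
          rcases hp with h | h
          · rw [h]; exact (hab i).1
          · rw [h]; exact (hab i).2
        have hpQ : p ∉ Q := fun h => hQfar p hp p h (ball_self _ _ _)
        have hgr := grow G H hHG p (2 * E) R (hdeg p) (by
          intro r _ hhalf hvol
          set S := ball H p r with hS
          have hSok : ∀ x ∈ S, x ∉ Z ∧ x ∉ Q := by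
            intro x hx
            rcases ball_mem H p r x hx with h | ⟨y, h⟩
            · rw [h]; exact ⟨hpZ, hpQ⟩
            · have := (hHdef y x).1 h
              exact ⟨this.2.2.2.2.1, this.2.2.2.2.2.2⟩
          have hSG : S ⊆ ball G.Adj p r := ball_rel H G.Adj hHG p r
          have h3 := bd_le G H S (fun x => (us U x + t) + (us P x +
            (Q.filter (fun y => G.Adj x y)).card)) (by
            intro x hx
            have h4 : univ.filter (fun y => G.Adj x y ∧ y ∉ S ∧ ¬ H x y) ⊆
                (univ.filter (fun y => s(x, y) ∈ U) ∪ Z) ∪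
                (univ.filter (fun y => s(x, y) ∈ P) ∪ Q.filter (fun y => G.Adj x y)) := by
              intro y hy
              rw [mem_filter] at hy
              obtain ⟨_, hxy, _, hnH⟩ := hy
              by_cases hyU : s(x, y) ∈ U
              · exact mem_union_left _ (mem_union_left _ (mem_filter.2 ⟨mem_univ _, hyU⟩))
              · by_cases hyZ : y ∈ Z
                · exact mem_union_left _ (mem_union_right _ hyZ)
                · by_cases hyP : s(x, y) ∈ P
                  · exact mem_union_right _ (mem_union_left _
                      (mem_filter.2 ⟨mem_univ _, hyP⟩))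
                  · apply mem_union_right
                    apply mem_union_right
                    rw [mem_filter]
                    refine ⟨?_, hxy⟩
                    by_contra hyQ
                    exact hnH ((hHdef x y).2 ⟨hxy, hyU, hyP, (hSok x hx).1, hyZ,
                      (hSok x hx).2, hyQ⟩)
            have h5 := Finset.card_le_card h4
            have h6 := Finset.card_union_le (univ.filter (fun y => s(x, y) ∈ U) ∪ Z)
              (univ.filter (fun y => s(x, y) ∈ P) ∪ Q.filter (fun y => G.Adj x y))
            have h7 := Finset.card_union_le (univ.filter (fun y => s(x, y) ∈ U)) Z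
            have h8 := Finset.card_union_le (univ.filter (fun y => s(x, y) ∈ P))
              (Q.filter (fun y => G.Adj x y))
            have h9 : (univ.filter (fun y => s(x, y) ∈ U)).card = us U x := rfl
            have h10 : (univ.filter (fun y => s(x, y) ∈ P)).card = us P x := rfl
            omega)
          rw [Finset.sum_add_distrib] at h3
          have h3' : ∑ x ∈ S, (us P x + (Q.filter (fun y => G.Adj x y)).card) =
              ∑ x ∈ S, us P x + ∑ x ∈ S, (Q.filter (fun y => G.Adj x y)).card :=
            Finset.sum_add_distrib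
          rw [h3'] at h3
          have hc := hC S hhalf
          have hU8 : 8 * (E * ∑ x ∈ S, (us U x + t)) ≤ vol G S := by
            unfold vol
            rw [Finset.mul_sum, Finset.mul_sum]
            exact Finset.sum_le_sum (fun x hx => hload x (hSok x hx).1)
          have hP8 : 8 * (E * ∑ x ∈ S, us P x) ≤ vol G S := by
            by_cases hr0 : r ≤ r₀
            · have h5 : ∑ x ∈ S, us P x = 0 := by
                apply Finset.sum_eq_zero
                intro x hx
                unfold us
                rw [Finset.card_eq_zero, Finset.filter_eq_empty_iff]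
                intro y _ hy
                rw [hP, mem_biUnion] at hy
                obtain ⟨j, hj, hy⟩ := hy
                have h6 := f5 j hj i hi _ hy x (Sym2.mem_mk_left x y)
                have h7 : x ∈ ball G.Adj p r₀ := ball_mono _ _ hr0 (hSG hx)
                rcases hp with h | h
                · rw [h] at h7
                  exact h6.1 h7
                · rw [h] at h7
                  exact h6.2 h7
              rw [h5]
              omega
            · have h5 := us_sum P S
              have h6 : 16 * E * K * (2 * R) ≤ vol G S :=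
                pow_lift (2 * E) r₀ r _ _ (by omega) (by omega) h0 hvol
              calc 8 * (E * ∑ x ∈ S, us P x) ≤ 8 * (E * (2 * (K * (2 * R)))) := by
                    refine Nat.mul_le_mul_left _ (Nat.mul_le_mul_left _ ?_)
                    exact le_trans h5 (Nat.mul_le_mul_left 2 hPc)
                _ = 16 * E * K * (2 * R) := by ring
                _ ≤ vol G S := h6
          have hQ8 : 8 * (E * ∑ x ∈ S, (Q.filter (fun y => G.Adj x y)).card) ≤ vol G S := by
            by_cases hr1 : r < r₁
            · have h5 : ∑ x ∈ S, (Q.filter (fun y => G.Adj x y)).card = 0 := by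
                apply Finset.sum_eq_zero
                intro x hx
                rw [Finset.card_eq_zero, Finset.filter_eq_empty_iff]
                intro y hy hxy
                have h7 : y ∈ ball G.Adj p (r + 1) := ball_step _ _ _ (hSG hx) hxy
                exact hQfar p hp y hy (ball_mono _ _ (by omega) h7)
              rw [h5]
              omega
            · have h5 := pairs_le G L hL S Q
              have h6 : 16 * E * K * β * L ≤ vol G S :=
                pow_lift (2 * E) r₁ r _ _ (by omega) (by omega) h1 hvol
              calc 8 * (E * ∑ x ∈ S, (Q.filter (fun y => G.Adj x y)).card)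
                  ≤ 8 * (E * (K * (2 * β) * L)) := by
                    refine Nat.mul_le_mul_left _ (Nat.mul_le_mul_left _ ?_)
                    exact le_trans h5 (Nat.mul_le_mul_right _ hQc)
                _ = 16 * E * K * β * L := by ring
                _ ≤ vol G S := h6
          have h7 : E * bd G S ≤ E * (hb H S + (∑ x ∈ S, (us U x + t) +
              (∑ x ∈ S, us P x + ∑ x ∈ S, (Q.filter (fun y => G.Adj x y)).card))) :=
            Nat.mul_le_mul_left _ h3
          have h8 : E * (hb H S + (∑ x ∈ S, (us U x + t) +
              (∑ x ∈ S, us P x + ∑ x ∈ S, (Q.filter (fun y => G.Adj x y)).card))) =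
              E * hb H S + (E * ∑ x ∈ S, (us U x + t) +
              (E * ∑ x ∈ S, us P x + E * ∑ x ∈ S, (Q.filter (fun y => G.Adj x y)).card)) := by
            ring
          have h9 : 2 * E * hb H S = 2 * (E * hb H S) := by ring
          omega) R le_rfl
        rcases hgr with h | h
        · exact h
        · have h2 : vol G univ ≤ vol G (ball H p R) :=
            pow_lift (2 * E) R R _ _ (by omega) le_rfl hR h
          have h3 : 1 ≤ vol G (ball H p R) := by
            have h4 := vol_mono G (Finset.singleton_subset_iff.2 (ball_self H p R))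
            have h5 : vol G {p} = dg G p := by simp [vol]
            have h6 := hdeg p
            omega
          omega
      obtain ⟨w, hw1, hw2⟩ := ball_meet G H hHG (a i) (b i) R
        (half_meet G _ _ (big _ (Or.inl rfl)) (big _ (Or.inr rfl)))
      have hA : ∀ e ∈ w.edges.toFinset, e ∉ U ∧ e ∉ P ∧ ∀ z ∈ e, z ∉ Q := by
        intro e he
        obtain ⟨x, y, hxy, hHxy⟩ := hw2 e (List.mem_toFinset.1 he)
        have h2 := (hHdef x y).1 hHxy
        rw [hxy]
        refine ⟨h2.2.1, h2.2.2.1, ?_⟩
        intro z hz
        rw [Sym2.mem_iff] at hz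
        rcases hz with rfl | rfl
        · exact h2.2.2.2.2.2.1
        · exact h2.2.2.2.2.2.2
      have hne : ∀ j ∈ J, j ≠ i := fun j hj h => hi (h ▸ hj)
      have hAF : ∀ j ∈ J, Disjoint w.edges.toFinset (F j) := by
        intro j hj
        rw [Finset.disjoint_left]
        intro e he he'
        exact (hA e he).2.1 (mem_biUnion.2 ⟨j, hj, he'⟩)
      refine ⟨Function.update F i w.edges.toFinset, ?_, ?_, ?_, ?_, ?_⟩
      · intro j hj
        rcases Finset.mem_insert.1 hj with hji | hj'
        · rw [hji, Function.update_self, Finset.disjoint_left]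
          exact fun e he => (hA e he).1
        · rw [Function.update_of_ne (hne j hj')]
          exact f1 j hj'
      · intro j hj k hk hjk
        rcases Finset.mem_insert.1 hj with hji | hj'
        · rcases Finset.mem_insert.1 hk with hki | hk'
          · exact absurd (hji.trans hki.symm) hjk
          · rw [hji, Function.update_self, Function.update_of_ne (hne k hk')]
            exact hAF k hk'
        · rcases Finset.mem_insert.1 hk with hki | hk'
          · rw [hki, Function.update_self, Function.update_of_ne (hne j hj')]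
            exact (hAF j hj').symm
          · rw [Function.update_of_ne (hne k hk'), Function.update_of_ne (hne j hj')]
            exact f2 j hj' k hk' hjk
      · intro j hj
        rcases Finset.mem_insert.1 hj with hji | hj'
        · rw [hji, Function.update_self]
          exact ⟨w, fun e he => List.mem_toFinset.2 he⟩
        · rw [Function.update_of_ne (hne j hj')]
          exact f3 j hj'
      · intro j hj
        rcases Finset.mem_insert.1 hj with hji | hj'
        · rw [hji, Function.update_self]
          refine le_trans (List.toFinset_card_le _) ?_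
          rw [SimpleGraph.Walk.length_edges]
          exact hw1
        · rw [Function.update_of_ne (hne j hj')]
          exact f4 j hj'
      · intro j hj k hk e he z hz
        have hk' : k ∉ J := fun h => hk (mem_insert_of_mem h)
        rcases Finset.mem_insert.1 hj with hji | hj'
        · rw [hji, Function.update_self] at he
          have h2 := (hA e he).2.2 z hz
          constructor
          · intro h
            exact h2 (mem_biUnion.2 ⟨k, mem_sdiff.2 ⟨mem_univ _, hk⟩, mem_union_left _ h⟩)
          · intro h
            exact h2 (mem_biUnion.2 ⟨k, mem_sdiff.2 ⟨mem_univ _, hk⟩, mem_union_right _ h⟩)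
        · rw [Function.update_of_ne (hne j hj')] at he
          exact f5 j hj' k hk' e he z hz
  obtain ⟨F, f1, f2, f3, _, _⟩ := key univ
  exact ⟨F, fun i => f1 i (mem_univ i), fun i j hij => f2 i (mem_univ i) j (mem_univ j) hij,
    fun i => f3 i (mem_univ i)⟩

end

end Pool.Agent.H71.CN
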