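import Pool.Agent.H71.CN.FL
import Pool.Agent.H71.CN.Far
import Pool.Agent.H71.CN.Asm

/-!
# Linking lightly loaded pairs in a graph of conductance at least `1 / E`
-/

set_option autoImplicit false

namespace Pool.Agent.H71.CN

open Finset

lemma root_lin (K t m : ℕ) (ht : t ^ 2 ≤ 4 * K) (h : 4 * m ^ 2 ≤ K) : m * t ≤ K := by
  by_contra hcon
  have h1 : K < m * t := not_le.1 hcon
  have h2 : K * K < (m * t) * (m * t) := Nat.mul_self_lt_mul_self h1
  have h3 : K * K < (4 * m ^ 2) * K := by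
    calc K * K < (m * t) * (m * t) := h2
      _ = m ^ 2 * t ^ 2 := by ring
      _ ≤ m ^ 2 * (4 * K) := Nat.mul_le_mul_left _ ht
      _ = (4 * m ^ 2) * K := by ring
  have h4 : K < 4 * m ^ 2 := lt_of_mul_lt_mul_right h3 (Nat.zero_le K)
  omega

section
variable {V : Type} [Fintype V] [DecidableEq V]

/-- the tokens -/
abbrev Tk {K : ℕ} (R : Finset (Fin K)) : Type := {a : Fin K × Bool // a.1 ∈ R}

/-- the place of a token -/
def tw {K : ℕ} (R : Finset (Fin K)) (p q : Fin K → V) (a : Tk R) : V :=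
  if a.1.2 = true then q a.1.1 else p a.1.1

omit [Fintype V] [DecidableEq V] in
lemma tk_card {K : ℕ} (R : Finset (Fin K)) : Fintype.card (Tk R) ≤ 2 * K := by
  refine (Fintype.card_subtype_le _).trans ?_
  rw [Fintype.card_prod, Fintype.card_fin, Fintype.card_bool]
  omega

omit [Fintype V] in
lemma tk_count {K : ℕ} (R : Finset (Fin K)) (p q : Fin K → V) (x : V) :
    (univ.filter (fun a : Tk R => tw R p q a = x)).card ≤
      (R.filter (fun i => p i = x)).card + (R.filter (fun i => q i = x)).card := by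
  have h1 : (univ.filter (fun a : Tk R => tw R p q a = x)).card ≤
      ((R.filter (fun i => p i = x)).image (fun i => (i, false)) ∪
        (R.filter (fun i => q i = x)).image (fun i => (i, true))).card := by
    refine Finset.card_le_card_of_injOn (fun a => a.1) ?_ ?_
    · rintro ⟨⟨i, c⟩, hi⟩ ha
      have h2 := (mem_filter.1 (Finset.mem_coe.1 ha)).2
      rw [Finset.mem_coe, mem_union, mem_image, mem_image]
      cases c
      · left
        exact ⟨i, mem_filter.2 ⟨hi, h2⟩, rfl⟩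
      · right
        exact ⟨i, mem_filter.2 ⟨hi, h2⟩, rfl⟩
    · intro a _ b _ hab
      exact Subtype.ext hab
  refine le_trans h1 (le_trans (Finset.card_union_le _ _) (Nat.add_le_add ?_ ?_))
  · exact Finset.card_image_le
  · exact Finset.card_image_le

/-- the pairs of `R` are joined by edge-disjoint paths that avoid `U` -/
def LkR {K : ℕ} (G : SimpleGraph V) (R : Finset (Fin K)) (p q : Fin K → V)
    (U : Finset (Sym2 V)) : Prop :=
  ∃ F : Fin K → Finset (Sym2 V), (∀ i ∈ R, Disjoint (F i) U) ∧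
    (∀ i ∈ R, ∀ j ∈ R, i ≠ j → Disjoint (F i) (F j)) ∧ ∀ i ∈ R, Jo G (F i) (p i) (q i)

/-- the load of a vertex: used edges and tokens -/
def ld {K : ℕ} (R : Finset (Fin K)) (p q : Fin K → V) (U : Finset (Sym2 V)) (w : V) : ℕ :=
  us U w + (R.filter (fun i => p i = w)).card + (R.filter (fun i => q i = w)).card

lemma le_sq_mul (E a : ℕ) (hE : 1 ≤ E) : E * a ≤ E ^ 2 * a := by
  refine Nat.mul_le_mul_right _ ?_
  calc E = E * 1 := by ring
    _ ≤ E * E := Nat.mul_le_mul_left _ hE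
    _ = E ^ 2 := by ring

/-- many vertices of large degree: at least a constant times `log n` -/
theorem core_log (G : SimpleGraph V) [DecidableRel G.Adj] (E K N t : ℕ) (hE : 1 ≤ E)
    (hN : 1 ≤ N) (hC : Cond G E) (hdeg : ∀ x, K ≤ 2 * dg G x)
    (hn : Fintype.card V ≤ 2 ^ N) (hK : 10000 * (E ^ 3 * N) ≤ K)
    (ht : 8192 * (E ^ 2 * t) ≤ K) (Z : Finset V) (U : Finset (Sym2 V)) (R : Finset (Fin K))
    (p q : Fin K → V) (hZ : Z.card ≤ t) (hpq : ∀ i ∈ R, p i ∉ Z ∧ q i ∉ Z)
    (hw : ∀ w, w ∉ Z → 4096 * (E ^ 2 * (ld R p q U w + t)) ≤ dg G w) : LkR G R p q U := by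
  have hE3 : 1 ≤ E ^ 3 * N := Nat.mul_pos (by positivity) (by omega)
  have hEE : E ≤ E ^ 3 * N := by
    calc E = E * 1 * 1 := by ring
      _ ≤ E * E ^ 2 * N := Nat.mul_le_mul (Nat.mul_le_mul_left _ (Nat.one_le_pow _ _ hE)) hN
      _ = E ^ 3 * N := by ring
  obtain ⟨L, hL⟩ : ∃ L, L = K / (32 * E) := ⟨_, rfl⟩
  have hL1 : 32 * E * L ≤ K := by rw [hL]; exact Nat.mul_div_le K (32 * E)
  have hL2 : K < 32 * E * (L + 1) := by
    rw [hL]
    exact Nat.lt_mul_div_succ K (by omega)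
  have hLpos : 1 ≤ L := by
    rw [hL, Nat.one_le_div_iff (by omega)]
    omega
  have hM : 8 * E * N * K / L ≤ 512 * (E ^ 2 * N) := by
    apply Nat.div_le_of_le_mul
    have h1 : K ≤ 64 * E * L := by nlinarith
    calc 8 * E * N * K ≤ 8 * E * N * (64 * E * L) := Nat.mul_le_mul_left _ h1
      _ = L * (512 * (E ^ 2 * N)) := by ring
  refine greedyR G (8 * E * N) K t L (fun w => if w ∈ Z then 0 else ld R p q U w) Z U R p q
    (rob_cond G E t (8 * E * N * K / L) N _ hE hC ?_ ?_ hn) hZ hLpos hpq ?_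
  · intro x
    have := hdeg x
    omega
  · intro x
    have h1 : (if x ∈ Z then 0 else ld R p q U x) + t ≤ dg G x / (4096 * E) := by
      rw [Nat.le_div_iff_mul_le (by omega)]
      by_cases hx : x ∈ Z
      · rw [if_pos hx]
        have h2 := le_sq_mul E t hE
        have h3 := hdeg x
        calc (0 + t) * (4096 * E) = 4096 * (E * t) := by ring
          _ ≤ dg G x := by omega
      · rw [if_neg hx]
        have h2 := le_sq_mul E (ld R p q U x + t) hE
        have h3 := hw x hx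
        calc (ld R p q U x + t) * (4096 * E) = 4096 * (E * (ld R p q U x + t)) := by ring
          _ ≤ dg G x := by omega
    have h2 := Nat.mul_div_le (dg G x) (4096 * E)
    have h3 := hdeg x
    have h4 : E * ((if x ∈ Z then 0 else ld R p q U x) + 2 * L + t + 8 * E * N * K / L) ≤
        E * (dg G x / (4096 * E) + 2 * L + 512 * (E ^ 2 * N)) :=
      Nat.mul_le_mul_left _ (by omega)
    have h5 : E * (dg G x / (4096 * E) + 2 * L + 512 * (E ^ 2 * N)) =
        E * (dg G x / (4096 * E)) + 2 * (E * L) + 512 * (E ^ 3 * N) := by ring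
    have h6 : 32 * (E * L) ≤ K := by
      calc 32 * (E * L) = 32 * E * L := by ring
        _ ≤ K := hL1
    have h7 : 4096 * (E * (dg G x / (4096 * E))) ≤ dg G x := by
      calc 4096 * (E * (dg G x / (4096 * E))) = 4096 * E * (dg G x / (4096 * E)) := by ring
        _ ≤ dg G x := h2
    omega
  · intro w hwZ
    rw [if_neg hwZ]
    exact le_rfl

/-- the tokens at a vertex -/
lemma tk_ld {K : ℕ} (R : Finset (Fin K)) (p q : Fin K → V) (U : Finset (Sym2 V)) (x : V) :
    us U x + (univ.filter (fun a : Tk R => tw R p q a = x)).card ≤ ld R p q U x := by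
  have := tk_count R p q x
  unfold ld
  omega

omit [Fintype V] in
lemma tk_zero {K : ℕ} (R : Finset (Fin K)) (p q : Fin K → V) (Z : Finset V)
    (hpq : ∀ i ∈ R, p i ∉ Z ∧ q i ∉ Z) (x : V) (hx : x ∈ Z) :
    (univ.filter (fun a : Tk R => tw R p q a = x)).card = 0 := by
  rw [Finset.card_eq_zero, Finset.filter_eq_empty_iff]
  rintro ⟨⟨i, c⟩, hi⟩ _ hax
  rw [← hax] at hx
  cases c
  · exact (hpq i hi).1 hx
  · exact (hpq i hi).2 hx

/-- a vertex of large degree is a hub -/
theorem core_hub (G : SimpleGraph V) [DecidableRel G.Adj] (E K t : ℕ) (hE : 1 ≤ E)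
    (hC : Cond G E) (hdeg : ∀ x, K ≤ 2 * dg G x) (ht3 : 3 ≤ t)
    (ht : 8192 * (E ^ 2 * t) ≤ K) (Z : Finset V) (U : Finset (Sym2 V)) (R : Finset (Fin K))
    (p q : Fin K → V) (hZ : Z.card ≤ t) (hpq : ∀ i ∈ R, p i ∉ Z ∧ q i ∉ Z)
    (hw : ∀ w, w ∉ Z → 4096 * (E ^ 2 * (ld R p q U w + t)) ≤ dg G w)
    (y₀ : V) (hy : 20000 * (E ^ 2 * K) ≤ dg G y₀) (hyZ : y₀ ∉ Z) : LkR G R p q U := by
  have hE2 : 1 ≤ E ^ 2 := Nat.one_le_pow _ _ hE
  have hK1 : 1 ≤ K := by
    have : 1 ≤ E ^ 2 * t := Nat.mul_pos (by omega) (by omega)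
    omega
  obtain ⟨σ, F, _, h2, h3, h4, _⟩ := flow (I := Tk R) (J := Fin (2 * K)) G E K t 1 Z U
    (fun x => dg G x) (tw R p q) (fun _ => y₀) hE le_rfl hK1 hC hdeg hZ (by
      rintro ⟨⟨i, c⟩, hi⟩
      cases c
      · exact (hpq i hi).1
      · exact (hpq i hi).2) (fun _ => hyZ) (tk_card R) (fun x => by omega) (by
      intro x
      have := hdeg x
      calc 2 * K ≤ dg G x * 4 := by omega
        _ ≤ dg G x * (t + 1) := Nat.mul_le_mul_left _ (by omega)) (by
      intro x hx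
      have h5 := hw x hx
      have h6 := tk_ld R p q U x
      have h7 : E * (us U x + 2 * t) ≤ E * (2 * (ld R p q U x + t)) :=
        Nat.mul_le_mul_left _ (by omega)
      have h8 : E * (2 * (ld R p q U x + t)) = 2 * (E * (ld R p q U x + t)) := by ring
      have h9 := le_sq_mul E (ld R p q U x + t) hE
      omega) (by
      intro x
      by_cases hx : x ∈ Z
      · rw [tk_zero R p q Z hpq x hx]
        omega
      · have h5 := hw x hx
        have h6 := tk_ld R p q U x
        have h7 : E * 1 * (univ.filter (fun a : Tk R => tw R p q a = x)).card ≤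
            E * 1 * (ld R p q U x + t) := Nat.mul_le_mul_left _ (by omega)
        have h8 : E * 1 * (ld R p q U x + t) = E * (ld R p q U x + t) := by ring
        have h9 := le_sq_mul E (ld R p q U x + t) hE
        omega) (by
      intro T _ hT
      have h5 : y₀ ∉ T := by
        intro h
        have h6 := hT y₀ h
        have h7 : (2 * 1 + 3 * E) * K = 2 * K + 3 * (E * K) := by ring
        have h8 := le_sq_mul E K hE
        have h9 : K ≤ E ^ 2 * K := Nat.le_mul_of_pos_left K (by omega)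
        omega
      have h6 : univ.filter (fun _ : Fin (2 * K) => y₀ ∉ T) = univ := by
        rw [Finset.filter_true_of_mem]
        intro _ _
        exact h5
      rw [h6, Finset.card_univ, Fintype.card_fin]
      exact tk_card R)
  refine ⟨fun i => if h : i ∈ R then F ⟨(i, false), h⟩ ∪ F ⟨(i, true), h⟩ else ∅, ?_, ?_, ?_⟩
  · intro i hi
    beta_reduce
    rw [dif_pos hi, Finset.disjoint_left]
    intro e he
    rcases mem_union.1 he with he | he
    · exact (h4 _ e he).2.1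
    · exact (h4 _ e he).2.1
  · intro i hi j hj hij
    beta_reduce
    rw [dif_pos hi, dif_pos hj]
    have hne : ∀ c d : Bool, (⟨(i, c), hi⟩ : Tk R) ≠ ⟨(j, d), hj⟩ := by
      intro c d h
      exact hij (congrArg (fun a : Tk R => a.1.1) h)
    rw [Finset.disjoint_union_left, Finset.disjoint_union_right, Finset.disjoint_union_right]
    exact ⟨⟨h3 _ _ (hne _ _), h3 _ _ (hne _ _)⟩, ⟨h3 _ _ (hne _ _), h3 _ _ (hne _ _)⟩⟩
  · intro i hi
    beta_reduce
    rw [dif_pos hi]
    exact jo_trans (h2 ⟨(i, false), hi⟩) (jo_symm (h2 ⟨(i, true), hi⟩))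

/-- the case of bounded degrees and a very large number of vertices -/
theorem core_far (G : SimpleGraph V) [DecidableRel G.Adj] (E K N t s₀ s₂ : ℕ) (hE : 1 ≤ E)
    (hC : Cond G E) (hdeg : ∀ x, K ≤ 2 * dg G x)
    (hL : ∀ x, dg G x ≤ 20000 * (E ^ 2 * K)) (hn : Fintype.card V ≤ 2 ^ N)
    (hn' : 2 ^ N ≤ 2 * Fintype.card V)
    (h0 : 128 * (E ^ 2 * K * N) ≤ 2 ^ s₀) (h2 : 20001 * (E ^ 2 * K) ≤ 2 ^ s₂)
    (hN : s₂ * (2 * (2 * E * (s₂ * (2 * E * s₀ + 2))) + 1) + 2 ≤ N)
    (ht3 : 256 * E ≤ t) (ht : 8192 * (E ^ 2 * t) ≤ K) (Z : Finset V) (U : Finset (Sym2 V))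
    (R : Finset (Fin K)) (p q : Fin K → V) (hZ : Z.card ≤ t)
    (hpq : ∀ i ∈ R, p i ∉ Z ∧ q i ∉ Z)
    (hw : ∀ w, w ∉ Z → 4096 * (E ^ 2 * (ld R p q U w + t)) ≤ dg G w) : LkR G R p q U := by
  have hE2 : 1 ≤ E ^ 2 := Nat.one_le_pow _ _ hE
  have hEt := le_sq_mul E t hE
  have ht' : t ≤ E * t := Nat.le_mul_of_pos_left t (by omega)
  have hEt2 : E ≤ E * t := Nat.le_mul_of_pos_right E (by omega)
  have hEK := le_sq_mul E K hE
  have hKE : K ≤ E * K := Nat.le_mul_of_pos_left K (by omega)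
  have hK1 : 1 ≤ K := by omega
  -- the parameters
  obtain ⟨r₀, hr0⟩ : ∃ r, r = 2 * E * s₀ := ⟨_, rfl⟩
  obtain ⟨s₁, hs1⟩ : ∃ s, s = s₂ * (r₀ + 2) := ⟨_, rfl⟩
  obtain ⟨r₁, hr1⟩ : ∃ r, r = 2 * E * s₁ := ⟨_, rfl⟩
  obtain ⟨L, hLdef⟩ : ∃ L, L = 20000 * (E ^ 2 * K) := ⟨_, rfl⟩
  obtain ⟨m, hm⟩ : ∃ m, m = 2 * K + t + 6 * E := ⟨_, rfl⟩
  have hL' : ∀ x, dg G x ≤ L := by rw [hLdef]; exact hL
  have hL2 : L + 1 ≤ 2 ^ s₂ := by omega
  have hs2pos : 1 ≤ s₂ := by
    by_contra h
    have h5 : s₂ = 0 := by omega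
    rw [h5, pow_zero] at h2
    omega
  have hpow : ∀ r, (L + 1) ^ r ≤ 2 ^ (s₂ * r) := by
    intro r
    rw [pow_mul]
    exact Nat.pow_le_pow_left hL2 r
  have hNlt : 2 ^ (N - 1) ≤ Fintype.card V := by
    have h5 : 2 ^ N = 2 * 2 ^ (N - 1) := by
      rw [← pow_succ']
      congr 1
      omega
    omega
  have hsep : Z.card + m * (L + 1) ^ (2 * r₁) < Fintype.card V := by
    have h5 : (L + 1) ^ (2 * r₁) ≤ 2 ^ (s₂ * (2 * r₁)) := hpow _
    have h6 : Z.card + m + 1 ≤ 2 ^ s₂ := by omega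
    have h7 : 1 ≤ 2 ^ (s₂ * (2 * r₁)) := Nat.one_le_pow _ _ (by omega)
    have h8 : Z.card + m * (L + 1) ^ (2 * r₁) < (Z.card + m + 1) * 2 ^ (s₂ * (2 * r₁)) := by
      calc Z.card + m * (L + 1) ^ (2 * r₁) ≤ Z.card * 2 ^ (s₂ * (2 * r₁)) +
            m * 2 ^ (s₂ * (2 * r₁)) :=
            Nat.add_le_add (Nat.le_mul_of_pos_right _ (by omega)) (Nat.mul_le_mul_left _ h5)
        _ < Z.card * 2 ^ (s₂ * (2 * r₁)) + m * 2 ^ (s₂ * (2 * r₁)) +
            2 ^ (s₂ * (2 * r₁)) := by omega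
        _ = (Z.card + m + 1) * 2 ^ (s₂ * (2 * r₁)) := by ring
    have h9 : (Z.card + m + 1) * 2 ^ (s₂ * (2 * r₁)) ≤ 2 ^ (N - 1) := by
      calc (Z.card + m + 1) * 2 ^ (s₂ * (2 * r₁)) ≤ 2 ^ s₂ * 2 ^ (s₂ * (2 * r₁)) :=
            Nat.mul_le_mul_right _ h6
        _ = 2 ^ (s₂ * (2 * r₁ + 1)) := by rw [← pow_add]; congr 1; ring
        _ ≤ 2 ^ (N - 1) := by
            refine Nat.pow_le_pow_right (by omega) ?_
            rw [hr1, hs1, hr0]
            omega
    omega
  obtain ⟨y, hy1, hy2⟩ := sepset G L r₁ hL' Z m hsep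
  have hyinj : Function.Injective y := by
    intro j k hjk
    by_contra hne
    have h5 := hy2 j k hne
    rw [hjk] at h5
    exact Finset.disjoint_left.1 h5 (ball_self _ _ _) (ball_self _ _ _)
  obtain ⟨c, hc⟩ : ∃ c, c = 64 * E := ⟨_, rfl⟩
  have hcb : ∀ x, dg G x ≤ c * (dg G x / c + 1) := by
    intro x
    exact (Nat.lt_mul_div_succ (dg G x) (by omega)).le
  obtain ⟨σ, F, hσ, g2, g3, g4, g5⟩ := flow (I := Tk R) (J := Fin m) G E K t c Z U
    (fun x => dg G x / c + 1) (tw R p q) y hE (by omega) hK1 hC hdeg hZ (by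
      rintro ⟨⟨i, d⟩, hi⟩
      cases d
      · exact (hpq i hi).1
      · exact (hpq i hi).2) hy1 (tk_card R) hcb (by
      intro x
      have h5 := hcb x
      have h6 := hdeg x
      have h7 : 4 * c ≤ t + 1 := by omega
      have h8 : c * (2 * K) ≤ c * ((dg G x / c + 1) * (t + 1)) := by
        calc c * (2 * K) ≤ c * (2 * (2 * (c * (dg G x / c + 1)))) :=
              Nat.mul_le_mul_left _ (by omega)
          _ = (c * (dg G x / c + 1)) * (4 * c) := by ring
          _ ≤ (c * (dg G x / c + 1)) * (t + 1) := Nat.mul_le_mul_left _ h7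
          _ = c * ((dg G x / c + 1) * (t + 1)) := by ring
      exact Nat.le_of_mul_le_mul_left h8 (by omega)) (by
      intro x hx
      have h5 := hw x hx
      have h6 := tk_ld R p q U x
      have h7 : E * (us U x + 2 * t) ≤ E * (2 * (ld R p q U x + t)) :=
        Nat.mul_le_mul_left _ (by omega)
      have h8 : E * (2 * (ld R p q U x + t)) = 2 * (E * (ld R p q U x + t)) := by ring
      have h9 := le_sq_mul E (ld R p q U x + t) hE
      omega) (by
      intro x
      by_cases hx : x ∈ Z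
      · rw [tk_zero R p q Z hpq x hx]
        omega
      · have h5 := hw x hx
        have h6 := tk_ld R p q U x
        have h7 : E * c * (univ.filter (fun a : Tk R => tw R p q a = x)).card ≤
            E * c * (ld R p q U x + t) := Nat.mul_le_mul_left _ (by omega)
        have h8 : E * c * (ld R p q U x + t) = 64 * (E ^ 2 * (ld R p q U x + t)) := by
          rw [hc]; ring
        omega) (by
      intro T hT _
      have h5 : (univ.filter (fun j : Fin m => y j ∈ T)).card ≤ T.card := by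
        refine Finset.card_le_card_of_injOn y ?_ ?_
        · intro j hj
          exact Finset.mem_coe.2 (mem_filter.1 (Finset.mem_coe.1 hj)).2
        · intro j _ k _ hjk
          exact hyinj hjk
      have h6 := Finset.card_filter_add_card_filter_not (s := (univ : Finset (Fin m)))
        (fun j => y j ∈ T)
      rw [Finset.card_univ, Fintype.card_fin] at h6
      have h7 := tk_card R
      omega)
  -- the connection
  have hU2 : ∀ x, x ∉ Z → 8 * (E * (us (U ∪ univ.biUnion F) x + t)) ≤ dg G x := by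
    intro x hx
    have h5 := hw x hx
    have h5' := tk_ld R p q U x
    have h6 := g5 x
    have h7 := g_us_union U (univ.biUnion F) x
    have h8 := Nat.mul_div_le (dg G x) c
    have h9 : E * (us (U ∪ univ.biUnion F) x + t) ≤
        E * ((ld R p q U x + t) + 2 + 2 * (dg G x / c)) :=
      Nat.mul_le_mul_left _ (by omega)
    have h10 : E * ((ld R p q U x + t) + 2 + 2 * (dg G x / c)) =
        E * (ld R p q U x + t) + 2 * E + 2 * (E * (dg G x / c)) := by ring
    have h11 : 64 * (E * (dg G x / c)) ≤ dg G x := by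
      calc 64 * (E * (dg G x / c)) = c * (dg G x / c) := by rw [hc]; ring
        _ ≤ dg G x := h8
    have h12 := hdeg x
    have h13 := le_sq_mul E (ld R p q U x + t) hE
    omega
  have hbern : ∀ s : ℕ, (2 * E) ^ (2 * E * s) * 2 ^ s ≤ (2 * E + 1) ^ (2 * E * s) := by
    intro s
    rw [mul_comm]
    exact bern_pow (2 * E) s (by omega)
  obtain ⟨Fc, c1, c2, c3⟩ := connect (I := {i // i ∈ R}) G E K t L ((L + 1) ^ r₀) r₀ r₁
    (4 * E * N) Z (U ∪ univ.biUnion F) (fun i => y (σ ⟨(i.1, false), i.2⟩))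
    (fun i => y (σ ⟨(i.1, true), i.2⟩)) hE hC (by
      intro x
      have := hdeg x
      omega) hL' hZ (by
      rw [Fintype.card_coe]
      exact le_trans (Finset.card_le_univ R) (le_of_eq (Fintype.card_fin K)))
    (fun i => ⟨hy1 _, hy1 _⟩) hU2 (by
      rw [hr1, hs1]
      have h5 : 2 * E * 1 * r₀ ≤ 2 * E * (s₂ * (r₀ + 2)) := by
        rw [mul_assoc]
        refine Nat.mul_le_mul_left _ ?_
        exact Nat.mul_le_mul hs2pos (by omega)
      have h6 : 1 * r₀ ≤ 2 * E * 1 * r₀ := Nat.mul_le_mul_right _ (by omega)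
      omega) (fun x => ball_card G L hL' x r₀) (by
      intro i j hij x z hx hz
      have hne : ∀ d d' : Bool, σ ⟨(i.1, d), i.2⟩ ≠ σ ⟨(j.1, d'), j.2⟩ := by
        intro d d' h
        have h5 := hσ h
        exact hij (Subtype.ext (congrArg (fun a : Tk R => a.1.1) h5))
      rcases hx with hx | hx <;> rcases hz with hz | hz <;>
        (rw [hx, hz]; exact hy2 _ _ (hne _ _))) (by
      have h5 := hbern s₀
      rw [← hr0] at h5
      refine le_trans (Nat.mul_le_mul_left _ ?_) h5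
      calc 16 * E * K * (2 * (4 * E * N)) = 128 * (E ^ 2 * K * N) := by ring
        _ ≤ 2 ^ s₀ := h0) (by
      have h5 := hbern s₁
      rw [← hr1] at h5
      refine le_trans (Nat.mul_le_mul_left _ ?_) h5
      have h6 : 16 * E * K ≤ 2 ^ s₂ := by
        calc 16 * E * K = 16 * (E * K) := by ring
          _ ≤ 2 ^ s₂ := by omega
      calc 16 * E * K * (L + 1) ^ r₀ * L ≤ 2 ^ s₂ * 2 ^ (s₂ * r₀) * 2 ^ s₂ :=
            Nat.mul_le_mul (Nat.mul_le_mul h6 (hpow r₀)) (by omega)
        _ = 2 ^ s₁ := by rw [← pow_add, ← pow_add, hs1]; congr 1; ring) (by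
      have h5 := hbern (2 * N)
      have h6 : 2 * E * (2 * N) = 4 * E * N := by ring
      rw [h6] at h5
      exact le_trans (Nat.mul_le_mul_left _ (vol_univ_le G N hn)) h5)
  refine ⟨fun i => if h : i ∈ R then (F ⟨(i, false), h⟩ ∪ Fc ⟨i, h⟩) ∪ F ⟨(i, true), h⟩
    else ∅, ?_, ?_, ?_⟩
  · intro i hi
    beta_reduce
    rw [dif_pos hi, Finset.disjoint_left]
    intro e he
    rcases mem_union.1 he with he | he
    · rcases mem_union.1 he with he | he
      · exact (g4 _ e he).2.1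
      · exact fun heU => Finset.disjoint_left.1 (c1 ⟨i, hi⟩) he (mem_union_left _ heU)
    · exact (g4 _ e he).2.1
  · intro i hi j hj hij
    beta_reduce
    rw [dif_pos hi, dif_pos hj]
    have hne : ∀ d d' : Bool, (⟨(i, d), hi⟩ : Tk R) ≠ ⟨(j, d'), hj⟩ := by
      intro d d' h
      exact hij (congrArg (fun a : Tk R => a.1.1) h)
    have hFc : ∀ (i j : {i // i ∈ R}) (a : Tk R), Disjoint (Fc i) (F a) := by
      intro i _ a
      refine Finset.disjoint_of_subset_right ?_ (c1 i)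
      exact (Finset.subset_biUnion_of_mem F (mem_univ a)).trans subset_union_right
    have hcc := c2 ⟨i, hi⟩ ⟨j, hj⟩ (fun h => hij (congrArg Subtype.val h))
    rw [Finset.disjoint_union_left, Finset.disjoint_union_left, Finset.disjoint_union_right,
      Finset.disjoint_union_right, Finset.disjoint_union_right, Finset.disjoint_union_right,
      Finset.disjoint_union_right, Finset.disjoint_union_right]
    exact ⟨⟨⟨⟨g3 _ _ (hne _ _), (hFc ⟨j, hj⟩ ⟨j, hj⟩ _).symm⟩, g3 _ _ (hne _ _)⟩,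
      ⟨⟨hFc ⟨i, hi⟩ ⟨i, hi⟩ _, hcc⟩, hFc ⟨i, hi⟩ ⟨i, hi⟩ _⟩⟩,
      ⟨⟨g3 _ _ (hne _ _), (hFc ⟨j, hj⟩ ⟨j, hj⟩ _).symm⟩, g3 _ _ (hne _ _)⟩⟩
  · intro i hi
    beta_reduce
    rw [dif_pos hi]
    exact jo_trans (jo_trans (g2 ⟨(i, false), hi⟩) (c3 ⟨i, hi⟩)) (jo_symm (g2 ⟨(i, true), hi⟩))

end

end Pool.Agent.H71.CN
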