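import Pool.Agent.H71.CN.Core

/-!
# Linking lightly loaded pairs: the constant
-/

set_option autoImplicit false

namespace Pool.Agent.H71.CN

open Finset

lemma nine_pow (s : ℕ) : s ^ 9 ≤ 10000000000 * 2 ^ s := by
  by_cases hs0 : s = 0
  · subst hs0
    norm_num
  by_cases hs : s ≤ 13
  · calc s ^ 9 ≤ 13 ^ 9 := Nat.pow_le_pow_left hs 9
      _ ≤ 10000000000 * 2 ^ 1 := by norm_num
      _ ≤ 10000000000 * 2 ^ s :=
        Nat.mul_le_mul_left _ (Nat.pow_le_pow_right (by norm_num) (by omega))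
  · have hs' : 13 ≤ s := by omega
    clear hs hs0
    induction s, hs' using Nat.le_induction with
    | base => norm_num
    | succ s hs ih =>
      have h1 : (s + 1) ^ 9 ≤ 2 * s ^ 9 := by
        obtain ⟨d, rfl⟩ := Nat.exists_eq_add_of_le hs
        ring_nf
        nlinarith [Nat.zero_le d, Nat.zero_le (d ^ 2), Nat.zero_le (d ^ 3), Nat.zero_le (d ^ 4),
          Nat.zero_le (d ^ 5), Nat.zero_le (d ^ 6), Nat.zero_le (d ^ 7), Nat.zero_le (d ^ 8),
          Nat.zero_le (d ^ 9)]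
      calc (s + 1) ^ 9 ≤ 2 * s ^ 9 := h1
        _ ≤ 2 * (10000000000 * 2 ^ s) := Nat.mul_le_mul_left _ ih
        _ = 10000000000 * 2 ^ (s + 1) := by ring

lemma num (E N : ℕ) (hE : 1 ≤ E) (hN : 1000000000 * E ^ 3 ≤ N) : ∃ s₀ s₂ : ℕ,
    1280000 * (E ^ 5 * N ^ 2) ≤ 2 ^ s₀ ∧ 200010000 * (E ^ 5 * N) ≤ 2 ^ s₂ ∧
    s₂ * (2 * (2 * E * (s₂ * (2 * E * s₀ + 2))) + 1) + 2 ≤ N := by
  obtain ⟨s, hs⟩ : ∃ s, s = Nat.clog 2 N := ⟨_, rfl⟩
  have hNs : N ≤ 2 ^ s := by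
    rw [hs]
    exact Nat.le_pow_clog (by norm_num) _
  have hE3 : 1 ≤ E ^ 3 := Nat.one_le_pow _ _ hE
  have hN2 : 1 < N := by omega
  have hNs' : 2 ^ s ≤ 2 * N := by
    have h1 := Nat.pow_pred_clog_lt_self (b := 2) (by norm_num) hN2
    rw [← hs] at h1
    have hs1 : 1 ≤ s := by
      by_contra h
      have h0 : s = 0 := by omega
      rw [h0] at hNs
      omega
    have h2 : 2 ^ s = 2 * 2 ^ (s - 1) := by
      rw [← pow_succ']
      congr 1
      omega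
    have h3 : s.pred = s - 1 := rfl
    rw [h3] at h1
    omega
  have hs1 : 1 ≤ s := by
    by_contra h
    have h0 : s = 0 := by omega
    rw [h0] at hNs
    omega
  have hE6 : 1000000000000000000 * E ^ 6 ≤ N ^ 2 := by
    calc 1000000000000000000 * E ^ 6 = (1000000000 * E ^ 3) ^ 2 := by ring
      _ ≤ N ^ 2 := Nat.pow_le_pow_left hN 2
  have hE56 : E ^ 5 ≤ E ^ 6 := Nat.pow_le_pow_right hE (by norm_num)
  have hE5 : 200010000 * E ^ 5 ≤ N ^ 2 := by omega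
  refine ⟨4 * s, 3 * s, ?_, ?_, ?_⟩
  · calc 1280000 * (E ^ 5 * N ^ 2) = (1280000 * E ^ 5) * N ^ 2 := by ring
      _ ≤ N ^ 2 * N ^ 2 := Nat.mul_le_mul_right _ (by omega)
      _ = N ^ 4 := by ring
      _ ≤ (2 ^ s) ^ 4 := Nat.pow_le_pow_left hNs 4
      _ = 2 ^ (4 * s) := by rw [← pow_mul]; congr 1; ring
  · calc 200010000 * (E ^ 5 * N) = (200010000 * E ^ 5) * N := by ring
      _ ≤ N ^ 2 * N := Nat.mul_le_mul_right _ hE5
      _ = N ^ 3 := by ring
      _ ≤ (2 ^ s) ^ 3 := Nat.pow_le_pow_left hNs 3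
      _ = 2 ^ (3 * s) := by rw [← pow_mul]; congr 1; ring
  · have h1 : 3 * s * (2 * (2 * E * (3 * s * (2 * E * (4 * s) + 2))) + 1) + 2 =
        288 * (E ^ 2 * s ^ 3) + 72 * (E * s ^ 2) + 3 * s + 2 := by ring
    have hs2 : 1 ≤ s ^ 2 := Nat.one_le_pow _ _ hs1
    have h2 : E * s ^ 2 ≤ E ^ 2 * s ^ 3 := by
      calc E * s ^ 2 = (E * s ^ 2) * 1 := by ring
        _ ≤ (E * s ^ 2) * (E * s) := Nat.mul_le_mul_left _ (Nat.mul_pos hE hs1)
        _ = E ^ 2 * s ^ 3 := by ring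
    have h3 : s ≤ E ^ 2 * s ^ 3 := by
      calc s = 1 * 1 * s := by ring
        _ ≤ E ^ 2 * s ^ 2 * s :=
          Nat.mul_le_mul_right _ (Nat.mul_le_mul (Nat.one_le_pow _ _ hE) hs2)
        _ = E ^ 2 * s ^ 3 := by ring
    have h4 : 365 * (E ^ 2 * s ^ 3) ≤ N := by
      rw [← Nat.pow_le_pow_iff_left (n := 3) (by norm_num)]
      have h5 := nine_pow s
      have h6 : s ^ 9 ≤ 20000000000 * N := by omega
      have h7 : 1000000000000000000 * (365 * (E ^ 2 * s ^ 3)) ^ 3 ≤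
          1000000000000000000 * N ^ 3 := by
        calc 1000000000000000000 * (365 * (E ^ 2 * s ^ 3)) ^ 3 =
              48627125 * ((1000000000000000000 * E ^ 6) * s ^ 9) := by ring
          _ ≤ 48627125 * (N ^ 2 * (20000000000 * N)) :=
              Nat.mul_le_mul_left _ (Nat.mul_le_mul hE6 h6)
          _ = 972542500000000000 * N ^ 3 := by ring
          _ ≤ 1000000000000000000 * N ^ 3 := Nat.mul_le_mul_right _ (by norm_num)
      exact Nat.le_of_mul_le_mul_left h7 (by norm_num)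
    rw [h1]
    omega

/-- **linking lightly loaded pairs** in a graph of conductance at least `1 / E` -/
theorem core (E : ℕ) (hE : 1 ≤ E) (V : Type) [Fintype V] [DecidableEq V]
    (G : SimpleGraph V) [DecidableRel G.Adj] (K t : ℕ) (Z : Finset V) (U : Finset (Sym2 V))
    (R : Finset (Fin K)) (p q : Fin K → V) (hK : 10 + 10000000000000 * E ^ 6 ≤ K) (hC : Cond G E)
    (hdeg : ∀ x, K ≤ 2 * dg G x) (ht3 : 256 * E ≤ t) (ht : 8192 * (E ^ 2 * t) ≤ K)
    (hZ : Z.card ≤ t) (hZd : ∀ z ∈ Z, dg G z < 20000 * (E ^ 2 * K))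
    (hpq : ∀ i ∈ R, p i ∉ Z ∧ q i ∉ Z)
    (hw : ∀ w, w ∉ Z → 4096 * (E ^ 2 * (ld R p q U w + t)) ≤ dg G w) : LkR G R p q U := by
  have hE2 : 1 ≤ E ^ 2 := Nat.one_le_pow _ _ hE
  have hcard : K ≤ 2 * Fintype.card V := by
    have h1 := hdeg (p ⟨0, by omega⟩)
    have h2 := Finset.card_le_univ (univ.filter (fun y => G.Adj (p ⟨0, by omega⟩) y))
    unfold dg at h1
    omega
  obtain ⟨N, hN⟩ : ∃ N, N = Nat.clog 2 (Fintype.card V) := ⟨_, rfl⟩
  have hn : Fintype.card V ≤ 2 ^ N := by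
    rw [hN]
    exact Nat.le_pow_clog (by norm_num) _
  have hN1 : 1 ≤ N := by
    by_contra h
    have h1 : N = 0 := by omega
    rw [h1, pow_zero] at hn
    omega
  have hn' : 2 ^ N ≤ 2 * Fintype.card V := by
    have h1 := Nat.pow_pred_clog_lt_self (b := 2) (x := Fintype.card V) (by norm_num) (by omega)
    rw [← hN] at h1
    have h2 : 2 ^ N = 2 * 2 ^ (N - 1) := by
      rw [← pow_succ']
      congr 1
      omega
    have h3 : N.pred = N - 1 := rfl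
    rw [h3] at h1
    omega
  by_cases hlog : 10000 * (E ^ 3 * N) ≤ K
  · exact core_log G E K N t hE hN1 hC hdeg hn hlog ht Z U R p q hZ hpq hw
  rw [not_le] at hlog
  by_cases hhub : ∃ y₀, 20000 * (E ^ 2 * K) ≤ dg G y₀
  · obtain ⟨y₀, hy₀⟩ := hhub
    refine core_hub G E K t hE hC hdeg (by omega) ht Z U R p q hZ hpq hw y₀ hy₀ ?_
    intro h
    have := hZd y₀ h
    omega
  push Not at hhub
  have hNN : 1000000000 * E ^ 3 ≤ N := by
    by_contra h
    have h1 : E ^ 3 * N ≤ E ^ 3 * (1000000000 * E ^ 3) := Nat.mul_le_mul_left _ (by omega)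
    have h2 : 10000 * (E ^ 3 * (1000000000 * E ^ 3)) = 10000000000000 * E ^ 6 := by ring
    omega
  obtain ⟨s₀, s₂, h1, h2, h3⟩ := num E N hE hNN
  refine core_far G E K N t s₀ s₂ hE hC hdeg (fun x => (hhub x).le) hn hn' ?_ ?_ h3 ht3 ht
    Z U R p q hZ hpq hw
  · calc 128 * (E ^ 2 * K * N) ≤ 128 * (E ^ 2 * (10000 * (E ^ 3 * N)) * N) :=
          Nat.mul_le_mul_left _ (Nat.mul_le_mul_right _ (Nat.mul_le_mul_left _ hlog.le))
      _ = 1280000 * (E ^ 5 * N ^ 2) := by ring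
      _ ≤ 2 ^ s₀ := h1
  · calc 20001 * (E ^ 2 * K) ≤ 20001 * (E ^ 2 * (10000 * (E ^ 3 * N))) :=
          Nat.mul_le_mul_left _ (Nat.mul_le_mul_left _ hlog.le)
      _ = 200010000 * (E ^ 5 * N) := by ring
      _ ≤ 2 ^ s₂ := h2

end Pool.Agent.H71.CN
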