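import Mathlib

/-!
# Weak linkage in graphs with many common neighbours: definitions
-/

set_option autoImplicit false

namespace Pool.Agent.H71.CN

open Finset

section
variable {V : Type} [Fintype V] [DecidableEq V]

/-- `F` contains the edges of a walk of `G` from `a` to `b` -/
def Jo (G : SimpleGraph V) (F : Finset (Sym2 V)) (a b : V) : Prop :=
  ∃ w : G.Walk a b, ∀ e ∈ w.edges, e ∈ F

/-- the number of `x` with `s(w, x)` in `U` -/
def us (U : Finset (Sym2 V)) (w : V) : ℕ := (univ.filter (fun x : V => s(w, x) ∈ U)).card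

/-- the number of common neighbours -/
def cod (G : SimpleGraph V) [DecidableRel G.Adj] (a b : V) : ℕ :=
  (univ.filter (fun z : V => G.Adj a z ∧ G.Adj b z)).card

/-- any two vertices `a`, `b` have `D` common neighbours, or `D` neighbours of `a` are `b` or have
`D` common neighbours with `b` -/
def Hyp (G : SimpleGraph V) [DecidableRel G.Adj] (D : ℕ) : Prop :=
  ∀ a b : V, a ≠ b → D ≤ cod G a b ∨
    D ≤ (univ.filter (fun w : V => G.Adj a w ∧ (w = b ∨ D ≤ cod G w b))).card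

end

/-- G (greedy step): connecting pairs outside a small set `Z`, avoiding the used edges `U` -/
def T_G : Prop := ∀ (V I : Type) [Fintype V] [DecidableEq V] [Fintype I] [DecidableEq I]
  (G : SimpleGraph V) [DecidableRel G.Adj] (D s Q L K : ℕ) (Z : Finset V)
  (U : Finset (Sym2 V)) (p q : I → V), Hyp G D → Z.card ≤ s → 1 ≤ L → Fintype.card I ≤ K →
  s + 2 * (Q + 2 * L) + 2 * K / L + 2 ≤ D → (∀ i, p i ∉ Z ∧ q i ∉ Z) →
  (∀ w, w ∉ Z → us U w + (univ.filter (fun i => p i = w)).card +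
    (univ.filter (fun i => q i = w)).card ≤ Q) →
  ∃ F : I → Finset (Sym2 V), (∀ i, Disjoint (F i) U) ∧
    (∀ i j, i ≠ j → Disjoint (F i) (F j)) ∧ ∀ i, Jo G (F i) (p i) (q i)

/-- X (exits): adjacent pairs get their edge once, the ends at heavy vertices are moved to
different neighbours -/
def T_X : Prop := ∀ (V : Type) [Fintype V] [DecidableEq V] (G : SimpleGraph V)
  [DecidableRel G.Adj] (K t : ℕ) (u v : Fin K → V), 1 ≤ t → K ≤ t ^ 2 →
  (∀ x, K ≤ (univ.filter (fun y => G.Adj x y)).card) →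
  ∃ (Z : Finset V) (dir R : Finset (Fin K)) (p q : Fin K → V)
    (Xp Xq : Fin K → Finset (Sym2 V)),
    Z.card ≤ t ∧ (∀ i, u i ≠ v i → i ∈ dir ∨ i ∈ R) ∧ Disjoint dir R ∧
    (∀ i ∈ dir, G.Adj (u i) (v i)) ∧
    (∀ i ∈ dir, ∀ j ∈ dir, i ≠ j → s(u i, v i) ≠ s(u j, v j)) ∧
    (∀ i ∈ R, p i ∉ Z ∧ q i ∉ Z) ∧
    (∀ i ∈ R, Jo G (Xp i) (u i) (p i) ∧ Jo G (Xq i) (q i) (v i)) ∧
    (∀ i ∈ R, Disjoint (Xp i) (Xq i)) ∧
    (∀ i ∈ R, ∀ j ∈ R, i ≠ j → Disjoint (Xp i ∪ Xq i) (Xp j ∪ Xq j)) ∧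
    (∀ i ∈ R, ∀ j ∈ dir, s(u j, v j) ∉ Xp i ∧ s(u j, v j) ∉ Xq i) ∧
    ∀ w, w ∉ Z → us ((dir.image (fun j => s(u j, v j))) ∪ R.biUnion (fun i => Xp i ∪ Xq i)) w +
      (R.filter (fun i => p i = w)).card + (R.filter (fun i => q i = w)).card ≤ 4 * t

end Pool.Agent.H71.CN
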