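import Pool.Agent.H71.CN.Hub2

/-!
# Expanding graphs and graphs of minimum degree more than half of the order
-/

set_option autoImplicit false

namespace Pool.Agent.H71.CN

open Finset

section
variable {V : Type} [Fintype V] [DecidableEq V]

/-- small sets have many leaving edges -/
lemma bd_small (G : SimpleGraph V) [DecidableRel G.Adj] (K : ℕ) (hdeg : ∀ x, K ≤ dg G x)
    (X : Finset V) : X.card * K ≤ bd G X + X.card * (X.card - 1) := by
  have h1 : ∀ x ∈ X, K ≤ (univ.filter (fun y => G.Adj x y ∧ y ∉ X)).card + (X.card - 1) := by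
    intro x hx
    refine le_trans (hdeg x) ?_
    unfold dg
    have h2 : univ.filter (fun y => G.Adj x y) ⊆
        univ.filter (fun y => G.Adj x y ∧ y ∉ X) ∪ X.erase x := by
      intro y hy
      rw [mem_filter] at hy
      rw [mem_union, mem_filter, mem_erase]
      by_cases h : y ∈ X
      · exact Or.inr ⟨fun h' => G.loopless.irrefl x (h' ▸ hy.2), h⟩
      · exact Or.inl ⟨mem_univ _, hy.2, h⟩
    have h3 := Finset.card_le_card h2
    have h4 := Finset.card_union_le (univ.filter (fun y => G.Adj x y ∧ y ∉ X)) (X.erase x)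
    rw [Finset.card_erase_of_mem hx] at h4
    omega
  have h2 := Finset.sum_le_sum h1
  rw [Finset.sum_add_distrib, Finset.sum_const, Finset.sum_const, smul_eq_mul, smul_eq_mul] at h2
  exact h2

lemma cut_small (s K b : ℕ) (hs : 3 ≤ s) (hK : 3 * (s - 1) ≤ K)
    (h : s * K ≤ b + s * (s - 1)) : 2 * K ≤ b := by
  obtain ⟨r, rfl⟩ := Nat.exists_eq_add_of_le hs
  have h1 : 3 + r - 1 = r + 2 := by omega
  rw [h1] at h hK
  nlinarith [Nat.mul_le_mul_left (1 + r) hK]

omit [Fintype V] in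
lemma ends_le {K : ℕ} (u v : Fin K → V) (X : Finset V) :
    ∑ x ∈ X, (xat (xN u v) u v x).card ≤ 2 * K := by
  have h1 := x_cnt X (xN u v) u v
  have h2 := x_NK u v
  omega

end

/-- **expanding graphs** -/
theorem lk_cond (E : ℕ) (hE : 1 ≤ E) : ∃ C : ℕ, ∀ (V : Type) [Fintype V] [DecidableEq V]
    (G : SimpleGraph V) [DecidableRel G.Adj] (K : ℕ), C ≤ K → (∀ x, K ≤ dg G x) →
    Cond G E → Lk G K := by
  obtain ⟨C, hC⟩ := hub_thm E hE
  refine ⟨C + 100, ?_⟩
  intro V _ _ G _ K hK hdeg hcond u v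
  have hd0 : ∀ x, oW G univ x = 0 := by
    intro x
    unfold oW
    rw [Finset.card_eq_zero, Finset.filter_eq_empty_iff]
    intro y _ h
    exact h.2 (mem_univ y)
  have hd1 : ∀ x, dW G univ x = dg G x := fun x => rfl
  refine hC V G K univ (by omega) ⟨u ⟨0, by omega⟩, mem_univ _⟩ hdeg ?_ ?_ u v ?_
  · intro x _
    rw [hd0]
    omega
  · intro S _ hS
    have h1 := hcond S hS
    have h2 : bd G S = ∑ x ∈ S, ((univ \ S).filter (fun y => G.Adj x y)).card := by
      unfold bd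
      refine Finset.sum_congr rfl (fun x _ => ?_)
      congr 1
      ext y
      rw [mem_filter, mem_filter, mem_sdiff]
      tauto
    rw [← h2]
    exact h1
  · intro X hX3 hXs
    rw [Finset.inter_univ] at hXs
    have h1 := bd_small G K hdeg X
    have h2 : 3 * (X.card - 1) ≤ K := by
      have h3 := Nat.sqrt_le' K
      have h4 : 10 ≤ Nat.sqrt K := by
        rw [Nat.le_sqrt']
        omega
      have h5 : 3 * Nat.sqrt K ≤ Nat.sqrt K ^ 2 := by nlinarith
      omega
    have h3 := cut_small X.card K (bd G X) hX3 h2 h1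
    have h4 := ends_le u v X
    omega

section
variable {V : Type} [Fintype V] [DecidableEq V]

omit [Fintype V] [DecidableEq V] in
/-- fewer pairs -/
lemma lk_mono (G : SimpleGraph V) {K K' : ℕ} (h : K ≤ K') (hL : Lk G K') : Lk G K := by
  intro u v
  by_cases hK : K = 0
  · subst hK
    exact ⟨fun i => i.elim0, fun i => i.elim0, fun i => i.elim0⟩
  obtain ⟨x₀, _⟩ : ∃ x₀ : V, x₀ = u ⟨0, by omega⟩ := ⟨_, rfl⟩
  obtain ⟨P, h1, h2⟩ := hL (fun i => if h : i.1 < K then u ⟨i.1, h⟩ else x₀)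
    (fun i => if h : i.1 < K then v ⟨i.1, h⟩ else x₀)
  have hu : ∀ i : Fin K, (if h : i.1 < K then u ⟨i.1, h⟩ else x₀) = u i := fun i => dif_pos i.2
  have hv : ∀ i : Fin K, (if h : i.1 < K then v ⟨i.1, h⟩ else x₀) = v i := fun i => dif_pos i.2
  refine ⟨fun i => (P ⟨i.1, by omega⟩).copy (hu i) (hv i), ?_, ?_⟩
  · intro i
    have := h1 ⟨i.1, by omega⟩
    simpa using this
  · intro i j hij e he
    have h3 : (⟨i.1, by omega⟩ : Fin K') ≠ ⟨j.1, by omega⟩ := by
      intro h'
      exact hij (Fin.ext (Fin.mk.inj h'))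
    rw [SimpleGraph.Walk.edges_copy] at he ⊢
    exact h2 _ _ h3 e he

/-- the leaving edges as a double sum -/
lemma bd_sum (G : SimpleGraph V) [DecidableRel G.Adj] (T : Finset V) : bd G T =
    ∑ x : V, ∑ y : V, if x ∈ T ∧ G.Adj x y ∧ y ∉ T then 1 else 0 := by
  unfold bd
  rw [← Finset.sum_filter_add_sum_filter_not univ (fun x => x ∈ T)]
  have h2 : ∑ x ∈ univ.filter (fun x => ¬ x ∈ T), ∑ y : V,
      (if x ∈ T ∧ G.Adj x y ∧ y ∉ T then 1 else 0) = 0 := by
    refine Finset.sum_eq_zero (fun x hx => Finset.sum_eq_zero (fun y _ => ?_))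
    rw [if_neg]
    exact fun h => (mem_filter.1 hx).2 h.1
  rw [h2, add_zero]
  have h3 : univ.filter (fun x => x ∈ T) = T := by ext x; simp
  rw [h3]
  refine Finset.sum_congr rfl (fun x hx => ?_)
  rw [Finset.card_filter]
  refine Finset.sum_congr rfl (fun y _ => ?_)
  by_cases h : G.Adj x y ∧ y ∉ T
  · rw [if_pos h, if_pos ⟨hx, h⟩]
  · rw [if_neg h, if_neg (fun h' => h h'.2)]

/-- the leaving edges counted from the other side -/
lemma bd_compl (G : SimpleGraph V) [DecidableRel G.Adj] (S : Finset V) :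
    bd G Sᶜ = bd G S := by
  rw [bd_sum, bd_sum, Finset.sum_comm]
  refine Finset.sum_congr rfl (fun x _ => Finset.sum_congr rfl (fun y _ => ?_))
  have h := G.adj_comm x y
  by_cases hx : x ∈ S <;> by_cases hy : y ∈ S <;> by_cases ha : G.Adj x y <;>
    simp [hx, hy, ha, ← h]

/-- posimodularity -/
lemma bd_posi (G : SimpleGraph V) [DecidableRel G.Adj] (X Y : Finset V) :
    bd G (X \ Y) + bd G (Y \ X) ≤ bd G X + bd G Y := by
  have h1 : ∀ T : Finset V, bd G Tᶜ + bd G T =
      ∑ x : V, ∑ y : V, if G.Adj x y ∧ ((x ∈ T ∧ y ∉ T) ∨ (x ∉ T ∧ y ∈ T)) then 1 else 0 := by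
    intro T
    rw [bd_sum, bd_sum, ← Finset.sum_add_distrib]
    refine Finset.sum_congr rfl (fun x _ => ?_)
    rw [← Finset.sum_add_distrib]
    refine Finset.sum_congr rfl (fun y _ => ?_)
    by_cases hx : x ∈ T <;> by_cases hy : y ∈ T <;> by_cases ha : G.Adj x y <;> simp [hx, hy, ha]
  have h3 : (bd G (X \ Y)ᶜ + bd G (X \ Y)) + (bd G (Y \ X)ᶜ + bd G (Y \ X)) ≤
      (bd G Xᶜ + bd G X) + (bd G Yᶜ + bd G Y) := by
    rw [h1, h1, h1, h1, ← Finset.sum_add_distrib, ← Finset.sum_add_distrib]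
    refine Finset.sum_le_sum (fun x _ => ?_)
    rw [← Finset.sum_add_distrib, ← Finset.sum_add_distrib]
    refine Finset.sum_le_sum (fun y _ => ?_)
    by_cases hx : x ∈ X <;> by_cases hx' : x ∈ Y <;> by_cases hy : y ∈ X <;>
      by_cases hy' : y ∈ Y <;> by_cases ha : G.Adj x y <;> simp [hx, hx', hy, hy', ha]
  rw [bd_compl, bd_compl, bd_compl, bd_compl] at h3
  omega

end

end Pool.Agent.H71.CN
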