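import Pool.Agent.H71.CN.Dir

/-!
# Graphs of minimum degree more than half of the order
-/

set_option autoImplicit false

namespace Pool.Agent.H71.CN

open Finset

section
variable {V : Type} [Fintype V] [DecidableEq V]

omit [DecidableEq V] in
lemma dg_le (G : SimpleGraph V) [DecidableRel G.Adj] (x : V) : dg G x ≤ Fintype.card V := by
  unfold dg
  exact Finset.card_le_univ _

lemma dg_split (G : SimpleGraph V) [DecidableRel G.Adj] (W : Finset V) (x : V) :
    dg G x ≤ dW G W x + oW G W x := by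
  unfold dg dW oW
  refine le_trans (Finset.card_le_card ?_) (Finset.card_union_le _ _)
  intro y hy
  rw [mem_filter] at hy
  rw [mem_union, mem_filter, mem_filter]
  by_cases h : y ∈ W
  · exact Or.inl ⟨h, hy.2⟩
  · exact Or.inr ⟨mem_univ _, hy.2, h⟩

/-- one side of a sparse cut -/
lemma side (G : SimpleGraph V) [DecidableRel G.Adj] (n d : ℕ) (A : Finset V)
    (hn : Fintype.card V = n) (hd : n < 2 * d) (hdeg : ∀ x, d ≤ dg G x)
    (hA : 4000000000000 * bd G A < vol G A) :
    ∃ W ⊆ A, (∀ x ∈ W, 1000000 * oW G W x ≤ n) ∧ 2000000 * (A \ W).card ≤ n ∧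
      3999999999999 * n < 8000000000000 * A.card := by
  have hAn : A.card ≤ n := by rw [← hn]; exact Finset.card_le_univ _
  have hdgn : ∀ x, dg G x ≤ n := fun x => hn ▸ dg_le G x
  have hv1 : vol G A ≤ A.card * n := by
    unfold vol
    refine le_trans (Finset.sum_le_card_nsmul A _ n (fun x _ => hdgn x)) ?_
    rw [smul_eq_mul]
  have hv2 : A.card * d ≤ vol G A := by
    unfold vol
    refine le_trans ?_ (Finset.card_nsmul_le_sum A _ d (fun x _ => hdeg x))
    rw [smul_eq_mul]
  have hv3 : vol G A ≤ A.card * A.card + bd G A := by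
    unfold vol bd
    rw [← smul_eq_mul, ← Finset.sum_const, ← Finset.sum_add_distrib]
    refine Finset.sum_le_sum (fun x _ => ?_)
    unfold dg
    refine le_trans (Finset.card_le_card ?_) (Finset.card_union_le A _)
    intro y hy
    rw [mem_filter] at hy
    rw [mem_union, mem_filter]
    by_cases h : y ∈ A
    · exact Or.inl h
    · exact Or.inr ⟨mem_univ _, hy.2, h⟩
  have hn0 : 0 < n := by
    by_contra h
    have h0 : n = 0 := by omega
    rw [h0] at hv1
    omega
  obtain ⟨o, ho⟩ : ∃ o : V → ℕ, ∀ x, o x = (univ.filter (fun y => G.Adj x y ∧ y ∉ A)).card :=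
    ⟨_, fun _ => rfl⟩
  obtain ⟨W, hW⟩ : ∃ W, W = A.filter (fun x => 2000000 * o x ≤ n) := ⟨_, rfl⟩
  have hWA : W ⊆ A := by rw [hW]; exact Finset.filter_subset _ _
  have h1 : (A \ W).card * n ≤ 2000000 * bd G A := by
    have h2 : (A \ W).card * n ≤ ∑ x ∈ A \ W, 2000000 * o x := by
      refine le_trans ?_ (Finset.card_nsmul_le_sum (A \ W) _ n (fun x hx => ?_))
      · rw [smul_eq_mul]
      · rw [mem_sdiff, hW, mem_filter, not_and] at hx
        have := hx.2 hx.1
        omega
    have h3 : ∑ x ∈ A \ W, 2000000 * o x ≤ ∑ x ∈ A, 2000000 * o x :=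
      Finset.sum_le_sum_of_subset Finset.sdiff_subset
    rw [← Finset.mul_sum, ← Finset.mul_sum] at h3
    rw [← Finset.mul_sum] at h2
    have h4 : ∑ x ∈ A, o x = bd G A := by
      unfold bd
      exact Finset.sum_congr rfl (fun x _ => ho x)
    rw [h4] at h3
    omega
  have h2 : 2000000 * (A \ W).card ≤ n := by
    by_contra hcon
    have h3 : n * n < 2000000 * (A \ W).card * n := Nat.mul_lt_mul_of_pos_right (by omega) hn0
    have h4 : A.card * n ≤ n * n := Nat.mul_le_mul_right n hAn
    have h5 : 2000000 * (A \ W).card * n = 2000000 * ((A \ W).card * n) := by ring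
    omega
  refine ⟨W, hWA, ?_, h2, ?_⟩
  · intro x hx
    have hxo : 2000000 * o x ≤ n := by
      rw [hW, mem_filter] at hx
      exact hx.2
    have h3 : oW G W x ≤ o x + (A \ W).card := by
      unfold oW
      rw [ho]
      refine le_trans (Finset.card_le_card ?_) (Finset.card_union_le _ _)
      intro y hy
      rw [mem_filter] at hy
      rw [mem_union, mem_filter, mem_sdiff]
      by_cases h : y ∈ A
      · exact Or.inr ⟨h, hy.2.2⟩
      · exact Or.inl ⟨mem_univ _, hy.2.1, h⟩
    omega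
  · have h3 : 3999999999999 * (A.card * d) < 4000000000000 * (A.card * A.card) := by omega
    have h4 : 3999999999999 * d < 4000000000000 * A.card := by
      by_contra hcon
      have h5 : A.card * (4000000000000 * A.card) ≤ A.card * (3999999999999 * d) :=
        Nat.mul_le_mul_left _ (by omega)
      have h6 : A.card * (4000000000000 * A.card) = 4000000000000 * (A.card * A.card) := by ring
      have h7 : A.card * (3999999999999 * d) = 3999999999999 * (A.card * d) := by ring
      omega
    omega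

/-- the hypotheses of the hub theorem -/
lemma hub_ok (G : SimpleGraph V) [DecidableRel G.Adj] (n d : ℕ) (W : Finset V)
    (hn0 : 0 < n) (hd : n < 2 * d) (hdeg : ∀ x, d ≤ dg G x) (hW : 1000 * W.card ≤ 501 * n)
    (ho : ∀ x ∈ W, 1000000 * oW G W x ≤ n) :
    (∀ x ∈ W, 20000 * (3 ^ 2 * oW G W x) ≤ dW G W x) ∧
    (∀ S ⊆ W, 2 * ∑ x ∈ S, dW G W x ≤ ∑ x ∈ W, dW G W x →
      ∑ x ∈ S, dW G W x ≤ 3 * ∑ x ∈ S, ((W \ S).filter (fun y => G.Adj x y)).card) := by
  have h1 : ∀ x ∈ W, 499 * n ≤ 1000 * dW G W x := by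
    intro x hx
    have h2 := ho x hx
    have h3 := dg_split G W x
    have h4 := hdeg x
    omega
  refine ⟨?_, ?_⟩
  · intro x hx
    have h2 := ho x hx
    have h3 := dg_split G W x
    have h4 := hdeg x
    omega
  · intro S hS hvol
    have h2 : S.card * (499 * n) ≤ 1000 * ∑ x ∈ S, dW G W x := by
      rw [Finset.mul_sum]
      refine le_trans ?_ (Finset.card_nsmul_le_sum S _ (499 * n) (fun x hx => h1 x (hS hx)))
      rw [smul_eq_mul]
    have h3 : ∑ x ∈ W, dW G W x ≤ W.card * W.card := by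
      refine le_trans (Finset.sum_le_card_nsmul W _ W.card (fun x _ => ?_)) ?_
      · unfold dW
        exact Finset.card_le_card (Finset.filter_subset _ _)
      · rw [smul_eq_mul]
    have h4 : (1000 * W.card) * (1000 * W.card) ≤ (501 * n) * (501 * n) := Nat.mul_le_mul hW hW
    have h5 : (1000 * W.card) * (1000 * W.card) = 1000000 * (W.card * W.card) := by ring
    have h6 : (501 * n) * (501 * n) = 251001 * n * n := by ring
    have h7 : S.card * (499 * n) = 499 * S.card * n := by ring
    have h8 : 998000 * S.card * n ≤ 251001 * n * n := by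
      have h9 : 998000 * S.card * n = 2000 * (499 * S.card * n) := by ring
      omega
    have h9 : 998000 * S.card ≤ 251001 * n := Nat.le_of_mul_le_mul_right h8 hn0
    rw [Finset.mul_sum]
    refine Finset.sum_le_sum (fun x hx => ?_)
    have h10 := h1 x (hS hx)
    have h11 : dW G W x ≤ ((W \ S).filter (fun y => G.Adj x y)).card + S.card := by
      unfold dW
      refine le_trans (Finset.card_le_card ?_) (Finset.card_union_le _ _)
      intro y hy
      rw [mem_filter] at hy
      rw [mem_union, mem_filter, mem_sdiff]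
      by_cases h : y ∈ S
      · exact Or.inr h
      · exact Or.inl ⟨⟨hy.1, h⟩, hy.2⟩
    omega

lemma mid_cut (m d b : ℕ) (h3 : 3 ≤ m) (hm : m + 2 ≤ d) (hd : 6 ≤ d)
    (h : m * d ≤ b + m * (m - 1)) : 2 * d ≤ b := by
  obtain ⟨q, rfl⟩ := Nat.exists_eq_add_of_le h3
  obtain ⟨r, rfl⟩ := Nat.exists_eq_add_of_le hm
  have h1 : 3 + q - 1 = q + 2 := by omega
  rw [h1] at h
  have h2 : (3 + q) * (3 + q + 2 + r) = (3 + q) * (q + 2) + (9 + 3 * q + 3 * r + q * r) := by ring
  rw [h2] at h
  have h4 : 9 + 3 * q + 3 * r + q * r ≤ b := by omega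
  have h5 : 0 ≤ q * r := Nat.zero_le _
  omega

/-- a violated set of a graph with minimum degree more than half of the order -/
lemma viol_card (G : SimpleGraph V) [DecidableRel G.Adj] (n d : ℕ) (X : Finset V)
    (hn : Fintype.card V = n) (hd : n < 2 * d) (hd6 : 6 ≤ d) (hdeg : ∀ x, d ≤ dg G x)
    (h3 : 3 ≤ X.card) (h3' : X.card + 3 ≤ n) (hb : bd G X < 2 * d) :
    2 * d ≤ bd G X + 2 ∧ X.card ≤ d ∧ n ≤ 2 * X.card + 1 := by
  have hc : Xᶜ.card = n - X.card := by rw [Finset.card_compl, hn]
  have h1 := bd_small G d hdeg X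
  have h2 := bd_small G d hdeg Xᶜ
  rw [bd_compl, hc] at h2
  have key : ∀ m, m = d - 1 → m * d ≤ bd G X + m * (m - 1) → 2 * d ≤ bd G X + 2 := by
    intro m hm h
    obtain ⟨r, rfl⟩ := Nat.exists_eq_add_of_le hd6
    have h4 : m = r + 5 := by omega
    subst h4
    have h5 : r + 5 - 1 = r + 4 := by omega
    rw [h5] at h
    have h6 : (r + 5) * (6 + r) = (r + 5) * (r + 4) + 2 * (r + 5) := by ring
    omega
  by_cases hX : 2 * X.card ≤ n
  · have h4 : X.card = d - 1 := by
      by_contra hcon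
      have := mid_cut X.card d (bd G X) h3 (by omega) hd6 h1
      omega
    refine ⟨key _ h4 h1, by omega, by omega⟩
  · have h4 : n - X.card = d - 1 := by
      by_contra hcon
      have := mid_cut (n - X.card) d (bd G X) (by omega) (by omega) hd6 h2
      omega
    refine ⟨key _ h4 h2, by omega, by omega⟩

/-- not both hubs are bad -/
lemma two_hubs (G : SimpleGraph V) [DecidableRel G.Adj] (n d s : ℕ) (u v : Fin d → V)
    (A B WA WB X Y : Finset V) (hn : Fintype.card V = n) (hd : n < 2 * d)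
    (hdeg : ∀ x, d ≤ dg G x) (hs : 1000 * s ≤ n) (hn6 : 1000 ≤ n) (hAB : ∀ x, x ∈ A ∨ x ∈ B)
    (hrA : 2000000 * (A \ WA).card ≤ n)
    (hrB : 2000000 * (B \ WB).card ≤ n) (hcA : 499 * n ≤ 1000 * WA.card)
    (hcB : 499 * n ≤ 1000 * WB.card) (hX3 : 3 ≤ X.card) (hXs : (X ∩ WA).card ≤ s + 1)
    (hXb : bd G X < ∑ x ∈ X, (xat (xN u v) u v x).card) (hY3 : 3 ≤ Y.card)
    (hYs : (Y ∩ WB).card ≤ s + 1) (hYb : bd G Y < ∑ x ∈ Y, (xat (xN u v) u v x).card) :
    False := by
  have hXe := ends_le u v X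
  have hYe := ends_le u v Y
  have hsmall : ∀ T W : Finset V, 499 * n ≤ 1000 * W.card → (T ∩ W).card ≤ s + 1 →
      T.card + 3 ≤ n := by
    intro T W hW hTW
    have h1 : W.card ≤ (T ∩ W).card + Tᶜ.card := by
      refine le_trans (Finset.card_le_card ?_) (Finset.card_union_le _ _)
      intro x hx
      rw [mem_union, mem_inter, mem_compl]
      by_cases h : x ∈ T
      · exact Or.inl ⟨h, hx⟩
      · exact Or.inr h
    rw [Finset.card_compl, hn] at h1
    have h2 : T.card ≤ n := by rw [← hn]; exact Finset.card_le_univ _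
    omega
  have vX := viol_card G n d X hn hd (by omega) hdeg hX3 (hsmall X WA hcA hXs) (by omega)
  have vY := viol_card G n d Y hn hd (by omega) hdeg hY3 (hsmall Y WB hcB hYs) (by omega)
  obtain ⟨x1, x2, x3⟩ := vX
  obtain ⟨y1, y2, y3⟩ := vY
  -- the intersection
  have hmod := Finset.sum_union_inter (s₁ := X) (s₂ := Y)
    (f := fun x => (xat (xN u v) u v x).card)
  have hUe := ends_le u v (X ∪ Y)
  have hI : 2 ≤ (X ∩ Y).card := by
    by_contra hcon
    have h1 : ∑ x ∈ X ∩ Y, (xat (xN u v) u v x).card ≤ (X ∩ Y).card * d := by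
      refine le_trans (Finset.sum_le_card_nsmul _ _ d (fun x _ => ?_)) ?_
      · exact le_trans (Finset.card_le_card (Finset.filter_subset _ _)) (x_NK u v)
      · rw [smul_eq_mul]
    have h2 : (X ∩ Y).card * d ≤ 1 * d := Nat.mul_le_mul_right d (by omega)
    omega
  have hXY : (X \ Y).card + (X ∩ Y).card = X.card := Finset.card_sdiff_add_card_inter X Y
  have hYX : (Y \ X).card + (Y ∩ X).card = Y.card := Finset.card_sdiff_add_card_inter Y X
  rw [Finset.inter_comm Y X] at hYX
  have hlX : X.card ≤ (X ∩ WA).card + (A \ WA).card + (B \ WB).card + (Y ∩ WB).card +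
      (X \ Y).card := by
    have h1 : X ⊆ (((X ∩ WA) ∪ (A \ WA)) ∪ (B \ WB)) ∪ (Y ∩ WB) ∪ (X \ Y) := by
      intro x hx
      simp only [mem_union, mem_inter, mem_sdiff]
      have := hAB x
      tauto
    refine le_trans (Finset.card_le_card h1) ?_
    refine le_trans (Finset.card_union_le _ _) (Nat.add_le_add_right ?_ _)
    refine le_trans (Finset.card_union_le _ _) (Nat.add_le_add_right ?_ _)
    refine le_trans (Finset.card_union_le _ _) (Nat.add_le_add_right ?_ _)
    exact Finset.card_union_le _ _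
  have hlY : Y.card ≤ (Y ∩ WB).card + (B \ WB).card + (A \ WA).card + (X ∩ WA).card +
      (Y \ X).card := by
    have h1 : Y ⊆ (((Y ∩ WB) ∪ (B \ WB)) ∪ (A \ WA)) ∪ (X ∩ WA) ∪ (Y \ X) := by
      intro x hx
      simp only [mem_union, mem_inter, mem_sdiff]
      have := hAB x
      tauto
    refine le_trans (Finset.card_le_card h1) ?_
    refine le_trans (Finset.card_union_le _ _) (Nat.add_le_add_right ?_ _)
    refine le_trans (Finset.card_union_le _ _) (Nat.add_le_add_right ?_ _)
    refine le_trans (Finset.card_union_le _ _) (Nat.add_le_add_right ?_ _)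
    exact Finset.card_union_le _ _
  have m1 := mid_cut (X \ Y).card d (bd G (X \ Y)) (by omega) (by omega) (by omega)
    (bd_small G d hdeg (X \ Y))
  have m2 := mid_cut (Y \ X).card d (bd G (Y \ X)) (by omega) (by omega) (by omega)
    (bd_small G d hdeg (Y \ X))
  have m3 := bd_posi G X Y
  omega

end

/-- **minimum degree more than half of the order** -/
theorem lk_dirac : ∃ n₀ : ℕ, ∀ (V : Type) [Fintype V] [DecidableEq V] (G : SimpleGraph V)
    [DecidableRel G.Adj] (K : ℕ), n₀ ≤ Fintype.card V →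
    (∀ x, Fintype.card V < 2 * dg G x) → (∀ x, K ≤ dg G x) → Lk G K := by
  obtain ⟨C₁, hC₁⟩ := lk_cond 4000000000000 (by omega)
  obtain ⟨C₂, hC₂⟩ := hub_thm 3 (by omega)
  refine ⟨2 * C₁ + 2 * C₂ + 1000000, ?_⟩
  intro V _ _ G _ K hn0 hhalf hK
  obtain ⟨n, hn⟩ : ∃ n, n = Fintype.card V := ⟨_, rfl⟩
  rw [← hn] at hn0 hhalf
  obtain ⟨d, hd⟩ : ∃ d, d = max K (n / 2 + 1) := ⟨_, rfl⟩
  have hKd : K ≤ d := by rw [hd]; exact le_max_left _ _
  have hnd : n < 2 * d := by
    have : n / 2 + 1 ≤ d := by rw [hd]; exact le_max_right _ _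
    omega
  have hdeg : ∀ x, d ≤ dg G x := by
    intro x
    rw [hd]
    refine max_le (hK x) ?_
    have := hhalf x
    omega
  refine lk_mono G hKd ?_
  by_cases hc : Cond G 4000000000000
  · exact hC₁ V G d (by omega) hdeg hc
  unfold Cond at hc
  push Not at hc
  obtain ⟨A, hA1, hA2⟩ := hc
  have hvAB : vol G A ≤ vol G Aᶜ := by
    have h1 : vol G univ = vol G A + vol G Aᶜ := by
      unfold vol
      exact (Finset.sum_add_sum_compl A _).symm
    omega
  obtain ⟨WA, a1, a2, a3, a4⟩ := side G n d A hn.symm hnd hdeg hA2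
  obtain ⟨WB, b1, b2, b3, b4⟩ := side G n d Aᶜ hn.symm hnd hdeg (by rw [bd_compl]; omega)
  have hcard : A.card + Aᶜ.card = n := by rw [hn]; exact Finset.card_add_card_compl A
  have hWAc : (A \ WA).card + WA.card = A.card := by
    rw [Finset.card_sdiff_of_subset a1]
    have := Finset.card_le_card a1
    omega
  have hWBc : (Aᶜ \ WB).card + WB.card = Aᶜ.card := by
    rw [Finset.card_sdiff_of_subset b1]
    have := Finset.card_le_card b1
    omega
  have hA := hub_ok G n d WA (by omega) hnd hdeg (by omega) a2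
  have hB := hub_ok G n d WB (by omega) hnd hdeg (by omega) b2
  intro u v
  have hV : Nonempty V := by
    rw [← Fintype.card_pos_iff]
    omega
  have hs : 1000 * Nat.sqrt d ≤ n := by
    obtain ⟨x⟩ := hV
    have h1 : d ≤ n := by rw [hn]; exact le_trans (hdeg x) (dg_le G x)
    have h2 := Nat.sqrt_le' d
    by_contra hcon
    have h3 : Nat.sqrt d < 1000 := by
      by_contra h4
      have h5 : 1000 * Nat.sqrt d ≤ Nat.sqrt d ^ 2 := by
        rw [pow_two]
        exact Nat.mul_le_mul_right _ (by omega)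
      omega
    omega
  by_cases cA : ∀ X : Finset V, 3 ≤ X.card → (X ∩ WA).card ≤ Nat.sqrt d + 1 →
      ∑ x ∈ X, (xat (xN u v) u v x).card ≤ bd G X
  · exact hC₂ V G d WA (by omega) (Finset.card_pos.1 (by omega)) hdeg hA.1 hA.2 u v cA
  by_cases cB : ∀ X : Finset V, 3 ≤ X.card → (X ∩ WB).card ≤ Nat.sqrt d + 1 →
      ∑ x ∈ X, (xat (xN u v) u v x).card ≤ bd G X
  · exact hC₂ V G d WB (by omega) (Finset.card_pos.1 (by omega)) hdeg hB.1 hB.2 u v cB
  push Not at cA cB
  obtain ⟨X, X1, X2, X3⟩ := cA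
  obtain ⟨Y, Y1, Y2, Y3⟩ := cB
  exact (two_hubs G n d (Nat.sqrt d) u v A Aᶜ WA WB X Y hn.symm hnd hdeg hs (by omega)
    (fun x => by rw [mem_compl]; tauto) a3 b3 (by omega) (by omega) X1 X2 X3 Y1 Y2 Y3).elim

end Pool.Agent.H71.CN
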