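import Pool.Agent.H71.CN.MF

/-!
# Flow of tokens to sinks
-/

set_option autoImplicit false

namespace Pool.Agent.H71.CN

open Finset Pool.Agent.H55.GW

section
variable {V I J : Type} [Fintype V] [DecidableEq V] [Fintype I] [DecidableEq I] [Fintype J]
  [DecidableEq J]

/-- **tokens flow to sinks with bounded load** -/
theorem flow (G : SimpleGraph V) [DecidableRel G.Adj] (E K t c : ℕ) (Z : Finset V)
    (U : Finset (Sym2 V)) (b : V → ℕ) (w : I → V) (y : J → V)
    (hE : 1 ≤ E) (hc : 1 ≤ c) (hK1 : 1 ≤ K) (hC : Cond G E) (hdeg : ∀ x, K ≤ 2 * dg G x)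
    (hZ : Z.card ≤ t) (hw : ∀ i, w i ∉ Z) (hy : ∀ j, y j ∉ Z)
    (hI : Fintype.card I ≤ 2 * K) (hb : ∀ x, dg G x ≤ c * b x)
    (hb2 : ∀ x, 2 * K ≤ b x * (t + 1))
    (hload : ∀ x, x ∉ Z → 4 * (E * (us U x + 2 * t)) ≤ dg G x)
    (htok : ∀ x, 4 * (E * c * (univ.filter (fun i => w i = x)).card) ≤ dg G x)
    (hsink : ∀ T : Finset V, T.card ≤ t + 6 * E → (∀ x ∈ T, dg G x < (2 * c + 3 * E) * K) →
      Fintype.card I ≤ (univ.filter (fun j => y j ∉ T)).card) :
    ∃ (σ : I → J) (F : I → Finset (Sym2 V)), Function.Injective σ ∧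
      (∀ i, Jo G (F i) (w i) (y (σ i))) ∧ (∀ i j, i ≠ j → Disjoint (F i) (F j)) ∧
      (∀ i, ∀ e ∈ F i, okE G Z U e) ∧ ∀ x, us (univ.biUnion F) x ≤ 2 * b x := by
  classical
  refine men_paths G Z U b w y ?_
  intro S hS
  by_contra hlt
  rw [not_le] at hlt
  obtain ⟨X, hX⟩ : ∃ X : Finset V, ∀ x, x ∈ X ↔ ∃ (i : I) (k : Fin (b x)),
      RIn (Dm G Z U b w y) ((S : Set (Wt V I J b))ᶜ) (tok i) (slot I J x k) :=
    ⟨univ.filter (fun x => ∃ (i : I) (k : Fin (b x)),
      RIn (Dm G Z U b w y) ((S : Set (Wt V I J b))ᶜ) (tok i) (slot I J x k)), fun x => by simp⟩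
  obtain ⟨C, hCm⟩ : ∃ C : Finset V, ∀ x, x ∈ C ↔ ∀ k : Fin (b x), slot I J x k ∈ S :=
    ⟨univ.filter (fun x => ∀ k : Fin (b x), slot I J x k ∈ S), fun x => by simp⟩
  -- no vertex of `X` is in `Z`
  have f0 : ∀ x ∈ X, x ∉ Z := by
    intro x hx
    obtain ⟨i, k, h⟩ := (hX x).1 hx
    rcases h.cases_tail with h1 | ⟨z, _, h1⟩
    · exact absurd h1 (by simp)
    · rcases z with (i' | ⟨a, k'⟩) | (e | j')
      · have h2 : w i' = x := h1
        rw [← h2]
        exact hw i'
      · exact absurd h1 (by simp [Dm])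
      · have h2 : x ∈ e ∧ okE G Z U e := h1
        exact h2.2.2.2 x h2.1
      · exact absurd h1 (by simp [Dm])
  have f1 : ∀ i : I, (tok i : Wt V I J b) ∉ S → w i ∈ X ∪ C := by
    intro i hi
    by_cases h : w i ∈ C
    · exact mem_union_right _ h
    · apply mem_union_left
      rw [hCm] at h
      push Not at h
      obtain ⟨k, hk⟩ := h
      rw [hX]
      refine ⟨i, k, RIn.single ?_ ?_ ?_⟩
      · exact rfl
      · exact fun h => hi (Finset.mem_coe.1 h)
      · exact fun h => hk (Finset.mem_coe.1 h)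
  have f2 : ∀ x ∈ X, ∀ x' : V, x' ∉ X → x' ∉ C → x' ∉ Z → G.Adj x x' → s(x, x') ∉ U →
      (Sum.inr (Sum.inl s(x, x')) : Wt V I J b) ∈ S := by
    intro x hx x' h1 h2 h3 h4 h5
    by_contra h6
    obtain ⟨i, k, hR⟩ := (hX x).1 hx
    rw [hCm] at h2
    push Not at h2
    obtain ⟨k', hk'⟩ := h2
    have hok : okE G Z U s(x, x') := by
      refine ⟨h4, h5, ?_⟩
      intro z hz
      rw [Sym2.mem_iff] at hz
      rcases hz with rfl | rfl
      · exact f0 _ hx
      · exact h3
    apply h1
    rw [hX]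
    refine ⟨i, k', ?_⟩
    refine (hR.tail (y := slot I J x k) (z := (Sum.inr (Sum.inl s(x, x')) : Wt V I J b)) ?_
      ?_).tail ?_ ?_
    · exact ⟨Sym2.mem_mk_left x x', hok⟩
    · exact fun h => h6 (Finset.mem_coe.1 h)
    · exact ⟨Sym2.mem_mk_right x x', hok⟩
    · exact fun h => hk' (Finset.mem_coe.1 h)
  have f3 : ∀ j : J, y j ∈ X → (snk j : Wt V I J b) ∈ S := by
    intro j hj
    by_contra h6
    obtain ⟨i, k, hR⟩ := (hX _).1 hj
    refine hS i j (hR.tail ?_ ?_)
    · exact rfl
    · exact fun h => h6 (Finset.mem_coe.1 h)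
  -- counting
  set T1 : Finset I := univ.filter (fun i => (tok i : Wt V I J b) ∈ S) with hT1
  set E1 : Finset (Sym2 V) := univ.filter (fun e =>
    (Sum.inr (Sum.inl e) : Wt V I J b) ∈ S) with hE1
  set J1 : Finset J := univ.filter (fun j => (snk j : Wt V I J b) ∈ S) with hJ1
  have hcard : T1.card + ∑ x ∈ C, b x + (E1.card + J1.card) ≤ S.card := by
    have h1 : (T1.disjSum (C.sigma (fun x => (univ : Finset (Fin (b x)))))).disjSum
        (E1.disjSum J1) ⊆ S := by
      intro z hz
      rcases z with (i | ⟨a, k⟩) | (e | j)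
      · rw [Finset.inl_mem_disjSum, Finset.inl_mem_disjSum] at hz
        exact (mem_filter.1 hz).2
      · rw [Finset.inl_mem_disjSum, Finset.inr_mem_disjSum, Finset.mem_sigma] at hz
        exact (hCm a).1 hz.1 k
      · rw [Finset.inr_mem_disjSum, Finset.inl_mem_disjSum] at hz
        exact (mem_filter.1 hz).2
      · rw [Finset.inr_mem_disjSum, Finset.inr_mem_disjSum] at hz
        exact (mem_filter.1 hz).2
    have h2 := Finset.card_le_card h1
    rw [Finset.card_disjSum, Finset.card_disjSum, Finset.card_disjSum, Finset.card_sigma] at h2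
    simp only [Finset.card_univ, Fintype.card_fin] at h2
    exact h2
  set S2 : Finset V := univ \ (X ∪ C ∪ Z) with hS2
  have hS2m : ∀ x, x ∈ S2 ↔ x ∉ X ∧ x ∉ C ∧ x ∉ Z := by
    intro x
    rw [hS2, mem_sdiff, mem_union, mem_union]
    simp only [mem_univ, true_and, not_or, and_assoc]
  set P1 : ℕ := ∑ x ∈ X, (univ.filter (fun z => z ∈ S2 ∧ G.Adj x z ∧ s(x, z) ∉ U)).card with hP1
  have hP1E : P1 ≤ E1.card := by
    rw [hP1, ← Finset.card_sigma]
    refine Finset.card_le_card_of_injOn (fun a => s(a.1, a.2)) ?_ ?_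
    · rintro ⟨x, z⟩ ha
      rw [Finset.mem_coe, Finset.mem_sigma, mem_filter] at ha
      obtain ⟨hx, _, hz, hadj, hU⟩ := ha
      rw [Finset.mem_coe, hE1, mem_filter]
      have hz' := (hS2m z).1 hz
      exact ⟨mem_univ _, f2 x hx z hz'.1 hz'.2.1 hz'.2.2 hadj hU⟩
    · rintro ⟨x, z⟩ ha ⟨x', z'⟩ ha' haa
      rw [Finset.mem_coe, Finset.mem_sigma, mem_filter] at ha ha'
      simp only [Sym2.eq_iff] at haa
      rcases haa with ⟨h1, h2⟩ | ⟨h1, h2⟩
      · subst h1; subst h2; rfl
      · exfalso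
        have h3 := ((hS2m z').1 ha'.2.2.1).1
        rw [← h1] at h3
        exact h3 ha.1
  have hP2 : ∑ z ∈ S2, (univ.filter (fun x => x ∈ X ∧ G.Adj z x ∧ s(z, x) ∉ U)).card = P1 := by
    have e1 : ∀ z ∈ S2, (univ.filter (fun x => x ∈ X ∧ G.Adj z x ∧ s(z, x) ∉ U)).card =
        ∑ x ∈ X, if (G.Adj x z ∧ s(x, z) ∉ U) then 1 else 0 := by
      intro z _
      rw [← Finset.card_filter]
      congr 1
      ext x
      rw [mem_filter, mem_filter, G.adj_comm z x, Sym2.eq_swap (a := z) (b := x)]
      simp only [mem_univ, true_and]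
    have e2 : ∀ x ∈ X, (univ.filter (fun z => z ∈ S2 ∧ G.Adj x z ∧ s(x, z) ∉ U)).card =
        ∑ z ∈ S2, if (G.Adj x z ∧ s(x, z) ∉ U) then 1 else 0 := by
      intro x _
      rw [← Finset.card_filter]
      congr 1
      ext z
      rw [mem_filter, mem_filter]
      simp only [mem_univ, true_and]
    rw [hP1, Finset.sum_congr rfl e1, Finset.sum_congr rfl e2]
    exact Finset.sum_comm
  -- the tokens outside `S`
  have htoks : Fintype.card I ≤ T1.card +
      ∑ x ∈ X ∪ C, (univ.filter (fun i => w i = x)).card := by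
    have h1 : (univ : Finset I) ⊆ T1 ∪ (X ∪ C).biUnion (fun x => univ.filter (fun i => w i = x)) := by
      intro i _
      by_cases h : (tok i : Wt V I J b) ∈ S
      · exact mem_union_left _ (mem_filter.2 ⟨mem_univ _, h⟩)
      · exact mem_union_right _ (mem_biUnion.2 ⟨w i, f1 i h, mem_filter.2 ⟨mem_univ _, rfl⟩⟩)
    have h2 := Finset.card_le_card h1
    rw [Finset.card_univ] at h2
    exact le_trans h2 (le_trans (Finset.card_union_le _ _)
      (Nat.add_le_add_left Finset.card_biUnion_le _))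
  have hXC : Disjoint X C := by
    rw [Finset.disjoint_left]
    intro x hx hxC
    obtain ⟨i, k, hR⟩ := (hX x).1 hx
    exact hR.right_mem (Finset.mem_coe.2 ((hCm x).1 hxC k))
  have hvolS0 := vol_union_disj G X C hXC
  have hvolC : vol G C ≤ c * ∑ x ∈ C, b x := by
    unfold vol
    rw [Finset.mul_sum]
    exact Finset.sum_le_sum (fun x _ => hb x)
  by_cases hhalf : 2 * vol G (X ∪ C) ≤ vol G univ
  · -- case 1
    have h1 := hC (X ∪ C) hhalf
    have h2 : bd G (X ∪ C) ≤ P1 + ∑ x ∈ X, (us U x + 2 * t) + vol G C := by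
      unfold bd
      rw [Finset.sum_union hXC]
      refine Nat.add_le_add ?_ ?_
      · rw [hP1, ← Finset.sum_add_distrib]
        refine Finset.sum_le_sum ?_
        intro x _
        have h3 : univ.filter (fun z => G.Adj x z ∧ z ∉ X ∪ C) ⊆
            univ.filter (fun z => z ∈ S2 ∧ G.Adj x z ∧ s(x, z) ∉ U) ∪
            (univ.filter (fun z => s(x, z) ∈ U) ∪ Z) := by
          intro z hz
          rw [mem_filter, mem_union, not_or] at hz
          obtain ⟨_, hxz, hzX, hzC⟩ := hz
          by_cases hzU : s(x, z) ∈ U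
          · exact mem_union_right _ (mem_union_left _ (mem_filter.2 ⟨mem_univ _, hzU⟩))
          · by_cases hzZ : z ∈ Z
            · exact mem_union_right _ (mem_union_right _ hzZ)
            · exact mem_union_left _ (mem_filter.2
                ⟨mem_univ _, (hS2m z).2 ⟨hzX, hzC, hzZ⟩, hxz, hzU⟩)
        have h4 := Finset.card_le_card h3
        have h5 := Finset.card_union_le
          (univ.filter (fun z => z ∈ S2 ∧ G.Adj x z ∧ s(x, z) ∉ U))
          (univ.filter (fun z => s(x, z) ∈ U) ∪ Z)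
        have h6 := Finset.card_union_le (univ.filter (fun z => s(x, z) ∈ U)) Z
        have h7 : (univ.filter (fun z => s(x, z) ∈ U)).card = us U x := rfl
        omega
      · unfold vol
        refine Finset.sum_le_sum ?_
        intro x _
        unfold dg
        refine Finset.card_le_card ?_
        intro z hz
        rw [mem_filter] at hz ⊢
        exact ⟨mem_univ _, hz.2.1⟩
    have h3 : 4 * (E * ∑ x ∈ X, (us U x + 2 * t)) ≤ vol G X := by
      unfold vol
      rw [Finset.mul_sum, Finset.mul_sum]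
      exact Finset.sum_le_sum (fun x hx => hload x (f0 x hx))
    have h4 : 4 * (E * c * ∑ x ∈ X ∪ C, (univ.filter (fun i => w i = x)).card) ≤
        vol G (X ∪ C) := by
      unfold vol
      rw [Finset.mul_sum, Finset.mul_sum]
      exact Finset.sum_le_sum (fun x _ => htok x)
    have h5 : E * bd G (X ∪ C) ≤ E * (P1 + ∑ x ∈ X, (us U x + 2 * t) + vol G C) :=
      Nat.mul_le_mul_left _ h2
    have h6 : E * (P1 + ∑ x ∈ X, (us U x + 2 * t) + vol G C) =
        E * P1 + E * ∑ x ∈ X, (us U x + 2 * t) + E * vol G C := by ring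
    have h7 : E * vol G C ≤ E * c * ∑ x ∈ C, b x := by
      rw [mul_assoc]
      exact Nat.mul_le_mul_left _ hvolC
    have h8 : E * P1 ≤ E * c * P1 := by
      calc E * P1 = E * 1 * P1 := by ring
        _ ≤ E * c * P1 := Nat.mul_le_mul_right _ (Nat.mul_le_mul_left _ hc)
    have h9 : P1 + ∑ x ∈ C, b x + 1 ≤ ∑ x ∈ X ∪ C, (univ.filter (fun i => w i = x)).card := by
      omega
    have h10 : E * c * (P1 + ∑ x ∈ C, b x + 1) ≤
        E * c * ∑ x ∈ X ∪ C, (univ.filter (fun i => w i = x)).card :=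
      Nat.mul_le_mul_left _ h9
    have h11 : E * c * (P1 + ∑ x ∈ C, b x + 1) =
        E * c * P1 + E * c * ∑ x ∈ C, b x + E * c := by ring
    have h12 : 1 ≤ E * c := Nat.mul_pos (by omega) (by omega)
    omega
  · -- case 2
    rw [not_le] at hhalf
    have hdis : Disjoint S2 (X ∪ C) := by
      rw [Finset.disjoint_left]
      intro x hx hx'
      have h1 := (hS2m x).1 hx
      rcases mem_union.1 hx' with h | h
      · exact h1.1 h
      · exact h1.2.1 h
    have h0 := vol_union_disj G S2 (X ∪ C) hdis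
    have h0' := vol_mono G (subset_univ (S2 ∪ (X ∪ C)))
    have h1 := hC S2 (by omega)
    have hCt : C.card ≤ t := by
      have h2 : C.card * (2 * K) ≤ ∑ x ∈ C, b x * (t + 1) := by
        rw [← smul_eq_mul]
        exact Finset.card_nsmul_le_sum _ _ _ (fun x _ => hb2 x)
      rw [← Finset.sum_mul] at h2
      have h3 : ∑ x ∈ C, b x < 2 * K := by omega
      have h4 : (∑ x ∈ C, b x) * (t + 1) < 2 * K * (t + 1) :=
        Nat.mul_lt_mul_of_pos_right h3 (by omega)
      have h5 : C.card * (2 * K) < (t + 1) * (2 * K) := by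
        calc C.card * (2 * K) ≤ (∑ x ∈ C, b x) * (t + 1) := h2
          _ < 2 * K * (t + 1) := h4
          _ = (t + 1) * (2 * K) := by ring
      have h6 := lt_of_mul_lt_mul_right h5 (Nat.zero_le _)
      omega
    have h2 : bd G S2 ≤ P1 + ∑ x ∈ S2, (us U x + 2 * t) := by
      unfold bd
      rw [← hP2, ← Finset.sum_add_distrib]
      refine Finset.sum_le_sum ?_
      intro x _
      have h3 : univ.filter (fun z => G.Adj x z ∧ z ∉ S2) ⊆
          univ.filter (fun z => z ∈ X ∧ G.Adj x z ∧ s(x, z) ∉ U) ∪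
          (univ.filter (fun z => s(x, z) ∈ U) ∪ (C ∪ Z)) := by
        intro z hz
        rw [mem_filter] at hz
        obtain ⟨_, hxz, hzS⟩ := hz
        by_cases hzU : s(x, z) ∈ U
        · exact mem_union_right _ (mem_union_left _ (mem_filter.2 ⟨mem_univ _, hzU⟩))
        · by_cases hzX : z ∈ X
          · exact mem_union_left _ (mem_filter.2 ⟨mem_univ _, hzX, hxz, hzU⟩)
          · apply mem_union_right
            apply mem_union_right
            by_contra hzCZ
            rw [mem_union, not_or] at hzCZ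
            exact hzS ((hS2m z).2 ⟨hzX, hzCZ.1, hzCZ.2⟩)
      have h4 := Finset.card_le_card h3
      have h5 := Finset.card_union_le
        (univ.filter (fun z => z ∈ X ∧ G.Adj x z ∧ s(x, z) ∉ U))
        (univ.filter (fun z => s(x, z) ∈ U) ∪ (C ∪ Z))
      have h6 := Finset.card_union_le (univ.filter (fun z => s(x, z) ∈ U)) (C ∪ Z)
      have h7 := Finset.card_union_le C Z
      have h8 : (univ.filter (fun z => s(x, z) ∈ U)).card = us U x := rfl
      omega
    have h3 : 4 * (E * ∑ x ∈ S2, (us U x + 2 * t)) ≤ vol G S2 := by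
      unfold vol
      rw [Finset.mul_sum, Finset.mul_sum]
      exact Finset.sum_le_sum (fun x hx => hload x ((hS2m x).1 hx).2.2)
    have h4 : E * bd G S2 ≤ E * (P1 + ∑ x ∈ S2, (us U x + 2 * t)) := Nat.mul_le_mul_left _ h2
    have h5 : E * (P1 + ∑ x ∈ S2, (us U x + 2 * t)) =
        E * P1 + E * ∑ x ∈ S2, (us U x + 2 * t) := by ring
    have h6 : E * (P1 + 1) ≤ E * (2 * K) := Nat.mul_le_mul_left _ (by omega)
    have h7 : E * (P1 + 1) = E * P1 + E := by ring
    have h8 : vol G S2 < 3 * E * K := by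
      have h9 : E * (2 * K) = 2 * (E * K) := by ring
      have h10 : 3 * E * K = 3 * (E * K) := by ring
      have h11 : 1 ≤ E * K := Nat.mul_pos (by omega) (by omega)
      omega
    have h9 : S2.card < 6 * E := by
      have h10 : S2.card * K ≤ 2 * vol G S2 := by
        unfold vol
        rw [Finset.mul_sum, ← smul_eq_mul]
        exact Finset.card_nsmul_le_sum _ _ _ (fun x _ => hdeg x)
      have h11 : S2.card * K < (6 * E) * K := by
        calc S2.card * K ≤ 2 * vol G S2 := h10
          _ < 2 * (3 * E * K) := by omega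
          _ = (6 * E) * K := by ring
      exact lt_of_mul_lt_mul_right h11 (Nat.zero_le _)
    have h10 := hsink (C ∪ S2) (by
      have := Finset.card_union_le C S2
      omega) (by
      intro x hx
      rcases mem_union.1 hx with hx | hx
      · have h11 : b x ≤ ∑ x ∈ C, b x := Finset.single_le_sum (fun _ _ => Nat.zero_le _) hx
        have h12 : b x + 1 ≤ 2 * K := by omega
        have h13 : c * (b x + 1) ≤ c * (2 * K) := Nat.mul_le_mul_left _ h12
        have h14 := hb x
        have h15 : (2 * c + 3 * E) * K = c * (2 * K) + 3 * E * K := by ring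
        have h16 : c * (b x + 1) = c * b x + c := by ring
        omega
      · have h11 : dg G x ≤ vol G S2 := by
          unfold vol
          exact Finset.single_le_sum (f := fun x => dg G x) (fun _ _ => Nat.zero_le _) hx
        have h15 : (2 * c + 3 * E) * K = c * (2 * K) + 3 * E * K := by ring
        omega)
    have h11 : (univ.filter (fun j => y j ∉ C ∪ S2)).card ≤ J1.card := by
      refine Finset.card_le_card ?_
      intro j hj
      rw [mem_filter] at hj
      rw [hJ1, mem_filter]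
      refine ⟨mem_univ _, f3 j ?_⟩
      by_contra hjX
      apply hj.2
      by_cases hjC : y j ∈ C
      · exact mem_union_left _ hjC
      · exact mem_union_right _ ((hS2m _).2 ⟨hjX, hjC, hy j⟩)
    omega

end

end Pool.Agent.H71.CN
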