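import Pool.Agent.H71.CN.Defs

/-!
# Weak linkage in graphs with many common neighbours: the greedy step
-/

set_option autoImplicit false

namespace Pool.Agent.H71.CN

open Finset

section
variable {V : Type} [Fintype V] [DecidableEq V]

lemma g_us_union (A B : Finset (Sym2 V)) (w : V) : us (A ∪ B) w ≤ us A w + us B w := by
  unfold us
  refine le_trans (Finset.card_le_card ?_) (Finset.card_union_le _ _)
  intro x hx
  simp only [mem_filter, mem_univ, true_and, mem_union] at hx ⊢
  exact hx

lemma g_us_mono {A B : Finset (Sym2 V)} (h : A ⊆ B) (w : V) : us A w ≤ us B w := by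
  unfold us
  refine Finset.card_le_card ?_
  intro x hx
  simp only [mem_filter, mem_univ, true_and] at hx ⊢
  exact h hx

lemma g_us_single (a b w : V) :
    us {s(a, b)} w ≤ (if a = w then 1 else 0) + (if b = w then 1 else 0) := by
  unfold us
  by_cases ha : a = w
  · subst ha
    rw [if_pos rfl]
    refine le_trans ?_ (Nat.le_add_right 1 _)
    rw [Finset.card_le_one]
    intro x hx y hy
    simp only [mem_filter, mem_univ, true_and, mem_singleton, Sym2.eq_iff] at hx hy
    rcases hx with ⟨_, hx⟩ | ⟨hx1, hx2⟩ <;> rcases hy with ⟨_, hy⟩ | ⟨hy1, hy2⟩ <;>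
      simp_all
  · rw [if_neg ha]
    by_cases hb : b = w
    · subst hb
      rw [if_pos rfl, Nat.zero_add, Finset.card_le_one]
      intro x hx y hy
      simp only [mem_filter, mem_univ, true_and, mem_singleton, Sym2.eq_iff] at hx hy
      rcases hx with ⟨hx1, hx⟩ | ⟨hx1, hx2⟩ <;> rcases hy with ⟨hy1, hy⟩ | ⟨hy1, hy2⟩ <;>
        simp_all
    · rw [if_neg hb, Nat.zero_add, Nat.le_zero, Finset.card_eq_zero]
      rw [Finset.filter_eq_empty_iff]
      intro x _ hx
      simp only [mem_singleton, Sym2.eq_iff] at hx
      rcases hx with ⟨hx1, hx⟩ | ⟨hx1, hx2⟩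
      · exact ha hx1.symm
      · exact hb hx1.symm

omit [DecidableEq V] in
lemma g_pick (P : V → Prop) [DecidablePred P] (B : Finset V)
    (h : B.card < (univ.filter P).card) : ∃ z, P z ∧ z ∉ B := by
  obtain ⟨z, hz, hz'⟩ := Finset.exists_mem_notMem_of_card_lt_card h
  exact ⟨z, (mem_filter.1 hz).2, hz'⟩

lemma g_one (G : SimpleGraph V) [DecidableRel G.Adj] (D s B L M : ℕ) (Z : Finset V)
    (U : Finset (Sym2 V)) (r : V → ℕ) (p q : V) (hH : Hyp G D) (hZ : Z.card ≤ s)
    (hr : (univ.filter (fun w => L ≤ r w)).card ≤ M)
    (hus : ∀ w, w ∉ Z → us U w ≤ B) (hp : p ∉ Z) (hq : q ∉ Z)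
    (hD : s + 2 * B + M + 2 ≤ D) :
    ∃ (A : Finset (Sym2 V)) (T : Finset V), Disjoint A U ∧ Jo G A p q ∧ T.card ≤ 2 ∧
      (∀ w ∈ T, r w < L) ∧
      ∀ w, us A w ≤ (if p = w then 1 else 0) + (if q = w then 1 else 0) +
        2 * (if w ∈ T then 1 else 0) := by
  by_cases hpq : p = q
  · subst hpq
    refine ⟨∅, ∅, by simp, ⟨SimpleGraph.Walk.nil, by simp⟩, by simp, by simp, ?_⟩
    intro w
    have : us (∅ : Finset (Sym2 V)) w = 0 := by simp [us]
    omega
  rcases hH p q hpq with h1 | h2
  · -- common neighbour
    have hb : (Z ∪ univ.filter (fun w => L ≤ r w) ∪ univ.filter (fun x => s(p, x) ∈ U) ∪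
        univ.filter (fun x => s(q, x) ∈ U)).card ≤ s + M + B + B := by
      refine le_trans (card_union_le _ _) (Nat.add_le_add ?_ (hus q hq))
      refine le_trans (card_union_le _ _) (Nat.add_le_add ?_ (hus p hp))
      exact le_trans (card_union_le _ _) (Nat.add_le_add hZ hr)
    obtain ⟨z, hz, hzb⟩ := g_pick (fun z => G.Adj p z ∧ G.Adj q z) _
      (lt_of_le_of_lt hb (lt_of_lt_of_le (by omega) h1))
    simp only [mem_union, mem_filter, mem_univ, true_and, not_or, not_le] at hzb
    refine ⟨{s(p, z)} ∪ {s(q, z)}, {z}, ?_, ?_, by simp, ?_, ?_⟩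
    · rw [Finset.disjoint_union_left, Finset.disjoint_singleton_left,
        Finset.disjoint_singleton_left]
      exact ⟨hzb.1.2, hzb.2⟩
    · refine ⟨SimpleGraph.Walk.cons hz.1 (SimpleGraph.Walk.cons hz.2.symm
        SimpleGraph.Walk.nil), ?_⟩
      intro e he
      simp only [SimpleGraph.Walk.edges_cons, SimpleGraph.Walk.edges_nil, List.mem_cons,
        List.not_mem_nil, or_false] at he
      rcases he with he | he
      · rw [he]; simp
      · rw [he, Sym2.eq_swap]; simp
    · intro w hw
      rw [mem_singleton] at hw
      rw [hw]
      exact hzb.1.1.2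
    · intro w
      have e0 := g_us_union {s(p, z)} {s(q, z)} w
      have e1 := g_us_single p z w
      have e2 := g_us_single q z w
      have e3 : (if w ∈ ({z} : Finset V) then 1 else 0) = if z = w then 1 else 0 := by
        simp only [mem_singleton, eq_comm]
      rw [e3]
      omega
  · have hb : (Z ∪ univ.filter (fun w => L ≤ r w) ∪
        univ.filter (fun x => s(p, x) ∈ U)).card ≤ s + M + B := by
      refine le_trans (card_union_le _ _) (Nat.add_le_add ?_ (hus p hp))
      exact le_trans (card_union_le _ _) (Nat.add_le_add hZ hr)
    obtain ⟨x, hx, hxb⟩ := g_pick (fun w => G.Adj p w ∧ (w = q ∨ D ≤ cod G w q)) _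
      (lt_of_le_of_lt hb (lt_of_lt_of_le (by omega) h2))
    simp only [mem_union, mem_filter, mem_univ, true_and, not_or, not_le] at hxb
    obtain ⟨hpx, hxq⟩ := hx
    rcases hxq with rfl | hxq
    · refine ⟨{s(p, x)}, ∅, ?_, ?_, by simp, by simp, ?_⟩
      · rw [Finset.disjoint_singleton_left]
        exact hxb.2
      · refine ⟨SimpleGraph.Walk.cons hpx SimpleGraph.Walk.nil, ?_⟩
        intro e he
        simp only [SimpleGraph.Walk.edges_cons, SimpleGraph.Walk.edges_nil, List.mem_cons,
          List.not_mem_nil, or_false] at he
        rw [he]; simp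
      · intro w
        have e1 := g_us_single p x w
        omega
    · have hb' : (Z ∪ univ.filter (fun w => L ≤ r w) ∪ univ.filter (fun y => s(x, y) ∈ U) ∪
          univ.filter (fun y => s(q, y) ∈ U)).card ≤ s + M + B + B := by
        refine le_trans (card_union_le _ _) (Nat.add_le_add ?_ (hus q hq))
        refine le_trans (card_union_le _ _) (Nat.add_le_add ?_ (hus x hxb.1.1))
        exact le_trans (card_union_le _ _) (Nat.add_le_add hZ hr)
      obtain ⟨z, hz, hzb⟩ := g_pick (fun z => G.Adj x z ∧ G.Adj q z) _
        (lt_of_le_of_lt hb' (lt_of_lt_of_le (by omega) hxq))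
      simp only [mem_union, mem_filter, mem_univ, true_and, not_or, not_le] at hzb
      have hxz : x ≠ z := G.ne_of_adj hz.1
      refine ⟨{s(p, x)} ∪ ({s(x, z)} ∪ {s(q, z)}), {x, z}, ?_, ?_, ?_, ?_, ?_⟩
      · rw [Finset.disjoint_union_left, Finset.disjoint_union_left,
          Finset.disjoint_singleton_left, Finset.disjoint_singleton_left,
          Finset.disjoint_singleton_left]
        exact ⟨hxb.2, hzb.1.2, hzb.2⟩
      · refine ⟨SimpleGraph.Walk.cons hpx (SimpleGraph.Walk.cons hz.1
          (SimpleGraph.Walk.cons hz.2.symm SimpleGraph.Walk.nil)), ?_⟩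
        intro e he
        simp only [SimpleGraph.Walk.edges_cons, SimpleGraph.Walk.edges_nil, List.mem_cons,
          List.not_mem_nil, or_false] at he
        rcases he with he | he | he
        · rw [he]; simp
        · rw [he]; simp
        · rw [he, Sym2.eq_swap]; simp
      · exact Finset.card_le_two
      · intro w hw
        rw [mem_insert, mem_singleton] at hw
        rcases hw with hw | hw
        · rw [hw]; exact hxb.1.2
        · rw [hw]; exact hzb.1.1.2
      · intro w
        have e0 := g_us_union {s(p, x)} ({s(x, z)} ∪ {s(q, z)}) w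
        have e0' := g_us_union {s(x, z)} {s(q, z)} w
        have e1 := g_us_single p x w
        have e2 := g_us_single x z w
        have e3 := g_us_single q z w
        have e4 : (if x = w then 1 else 0) + (if z = w then 1 else 0) ≤
            if w ∈ ({x, z} : Finset V) then 1 else 0 := by
          by_cases h1 : x = w
          · have h2 : z ≠ w := fun h => hxz (h1.trans h.symm)
            rw [if_pos h1, if_neg h2, if_pos (by rw [h1]; simp)]
          · rw [if_neg h1]
            by_cases h2 : z = w
            · rw [if_pos h2, if_pos (by rw [h2]; simp)]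
            · rw [if_neg h2]; omega
        omega

theorem pf_G : T_G := by
  intro V I _ _ _ _ G _ D s Q L K Z U p q hH hZ hL hI hD hpq hUs
  have key : ∀ J : Finset I, ∃ (F : I → Finset (Sym2 V)) (r : V → ℕ),
      (∀ w, r w ≤ L) ∧ ∑ w, r w ≤ 2 * J.card ∧ (∀ i ∈ J, Disjoint (F i) U) ∧
      (∀ i ∈ J, ∀ j ∈ J, i ≠ j → Disjoint (F i) (F j)) ∧
      (∀ i ∈ J, Jo G (F i) (p i) (q i)) ∧
      ∀ w, w ∉ Z → us (U ∪ J.biUnion F) w ≤ us U w + (J.filter (fun i => p i = w)).card +
        (J.filter (fun i => q i = w)).card + 2 * r w := by
    intro J
    induction J using Finset.induction_on with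
    | empty =>
      refine ⟨fun _ => ∅, fun _ => 0, by simp, by simp, by simp, by simp, by simp, ?_⟩
      intro w _
      simp
    | insert i J hi ih =>
      obtain ⟨F, r, h1, h2, h3, h4, h5, h6⟩ := ih
      have hJK : J.card ≤ K := le_trans (Finset.card_le_univ J) hI
      have hfull : (univ.filter (fun w => L ≤ r w)).card ≤ 2 * K / L := by
        rw [Nat.le_div_iff_mul_le hL]
        have e1 : (univ.filter (fun w => L ≤ r w)).card * L ≤
            ∑ w ∈ univ.filter (fun w => L ≤ r w), r w := by
          rw [← smul_eq_mul]
          refine Finset.card_nsmul_le_sum _ _ _ ?_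
          intro w hw
          exact (mem_filter.1 hw).2
        have e2 : ∑ w ∈ univ.filter (fun w => L ≤ r w), r w ≤ ∑ w, r w :=
          Finset.sum_le_sum_of_subset (Finset.filter_subset _ _)
        omega
      have hus : ∀ w, w ∉ Z → us (U ∪ J.biUnion F) w ≤ Q + 2 * L := by
        intro w hw
        have e1 := h6 w hw
        have e2 := hUs w hw
        have e3 := h1 w
        have e4 : (J.filter (fun i => p i = w)).card ≤
            (univ.filter (fun i => p i = w)).card :=
          Finset.card_le_card (Finset.filter_subset_filter _ (Finset.subset_univ _))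
        have e5 : (J.filter (fun i => q i = w)).card ≤
            (univ.filter (fun i => q i = w)).card :=
          Finset.card_le_card (Finset.filter_subset_filter _ (Finset.subset_univ _))
        omega
      obtain ⟨A, T, hA, hJo, hT2, hTL, hAw⟩ := g_one G D s (Q + 2 * L) L (2 * K / L) Z
        (U ∪ J.biUnion F) r (p i) (q i) hH hZ hfull hus (hpq i).1 (hpq i).2 hD
      rw [Finset.disjoint_union_right] at hA
      have hAF : ∀ j ∈ J, Disjoint A (F j) := by
        intro j hj
        exact Finset.disjoint_of_subset_right (Finset.subset_biUnion_of_mem F hj) hA.2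
      have hne : ∀ j ∈ J, j ≠ i := fun j hj h => hi (h ▸ hj)
      refine ⟨Function.update F i A, fun w => r w + if w ∈ T then 1 else 0, ?_, ?_, ?_, ?_,
        ?_, ?_⟩
      · intro w
        by_cases hw : w ∈ T
        · have := hTL w hw
          simp only [hw, if_true]
          omega
        · simp only [hw, if_false]
          exact h1 w
      · rw [Finset.sum_add_distrib, Finset.card_insert_of_notMem hi]
        have : ∑ w, (if w ∈ T then 1 else 0) = T.card := by simp
        omega
      · intro j hj
        rcases Finset.mem_insert.1 hj with rfl | hj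
        · rw [Function.update_self]
          exact hA.1
        · rw [Function.update_of_ne (hne j hj)]
          exact h3 j hj
      · intro j hj k hk hjk
        rcases Finset.mem_insert.1 hj with hji | hj'
        · rcases Finset.mem_insert.1 hk with hki | hk'
          · exact absurd (hji.trans hki.symm) hjk
          · rw [hji, Function.update_self, Function.update_of_ne (hne k hk')]
            exact hAF k hk'
        · rcases Finset.mem_insert.1 hk with hki | hk'
          · rw [hki, Function.update_self, Function.update_of_ne (hne j hj')]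
            exact (hAF j hj').symm
          · rw [Function.update_of_ne (hne k hk'), Function.update_of_ne (hne j hj')]
            exact h4 j hj' k hk' hjk
      · intro j hj
        rcases Finset.mem_insert.1 hj with rfl | hj
        · rw [Function.update_self]
          exact hJo
        · rw [Function.update_of_ne (hne j hj)]
          exact h5 j hj
      · intro w hw
        have e1 : U ∪ (insert i J).biUnion (Function.update F i A) ⊆
            (U ∪ J.biUnion F) ∪ A := by
          intro e he
          rw [mem_union] at he
          rcases he with he | he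
          · exact mem_union_left _ (mem_union_left _ he)
          · rw [mem_biUnion] at he
            obtain ⟨j, hj, he⟩ := he
            rcases Finset.mem_insert.1 hj with rfl | hj
            · rw [Function.update_self] at he
              exact mem_union_right _ he
            · rw [Function.update_of_ne (hne j hj)] at he
              exact mem_union_left _ (mem_union_right _ (mem_biUnion.2 ⟨j, hj, he⟩))
        have e2 := g_us_mono e1 w
        have e3 := g_us_union (U ∪ J.biUnion F) A w
        have e4 := h6 w hw
        have e5 := hAw w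
        have e6 : ((insert i J).filter (fun j => p j = w)).card =
            (J.filter (fun j => p j = w)).card + if p i = w then 1 else 0 := by
          rw [Finset.filter_insert]
          split_ifs with h
          · rw [Finset.card_insert_of_notMem]
            intro h'
            exact hi (mem_filter.1 h').1
          · rfl
        have e7 : ((insert i J).filter (fun j => q j = w)).card =
            (J.filter (fun j => q j = w)).card + if q i = w then 1 else 0 := by
          rw [Finset.filter_insert]
          split_ifs with h
          · rw [Finset.card_insert_of_notMem]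
            intro h'
            exact hi (mem_filter.1 h').1
          · rfl
        rw [e6, e7]
        beta_reduce
        omega
  obtain ⟨F, r, _, _, h3, h4, h5, _⟩ := key univ
  exact ⟨F, fun i => h3 i (mem_univ i), fun i j hij => h4 i (mem_univ i) j (mem_univ j) hij,
    fun i => h5 i (mem_univ i)⟩

end

end Pool.Agent.H71.CN
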