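import Pool.Agent.H71.CN.Defs

/-!
# Volume, conductance and growth of balls
-/

set_option autoImplicit false

namespace Pool.Agent.H71.CN

open Finset

section
variable {V : Type} [Fintype V] [DecidableEq V]

/-- the degree -/
def dg (G : SimpleGraph V) [DecidableRel G.Adj] (x : V) : ℕ :=
  (univ.filter (fun y => G.Adj x y)).card

/-- the volume -/
def vol (G : SimpleGraph V) [DecidableRel G.Adj] (S : Finset V) : ℕ := ∑ x ∈ S, dg G x

/-- the number of edges leaving `S` -/
def bd (G : SimpleGraph V) [DecidableRel G.Adj] (S : Finset V) : ℕ :=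
  ∑ x ∈ S, (univ.filter (fun y => G.Adj x y ∧ y ∉ S)).card

/-- conductance at least `1 / E` -/
def Cond (G : SimpleGraph V) [DecidableRel G.Adj] (E : ℕ) : Prop :=
  ∀ S : Finset V, 2 * vol G S ≤ vol G univ → vol G S ≤ E * bd G S

/-- the balls of a relation -/
def ball (H : V → V → Prop) [DecidableRel H] (p : V) : ℕ → Finset V
  | 0 => {p}
  | r + 1 => ball H p r ∪ univ.filter (fun y => ∃ x ∈ ball H p r, H x y)

/-- the pairs of `H` leaving `S` -/
def hb (H : V → V → Prop) [DecidableRel H] (S : Finset V) : ℕ :=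
  ∑ x ∈ S, (univ.filter (fun y => H x y ∧ y ∉ S)).card

lemma ball_sub (H : V → V → Prop) [DecidableRel H] (p : V) (r : ℕ) :
    ball H p r ⊆ ball H p (r + 1) := by
  rw [ball]
  exact subset_union_left

lemma ball_mono (H : V → V → Prop) [DecidableRel H] (p : V) {r s : ℕ} (h : r ≤ s) :
    ball H p r ⊆ ball H p s := by
  induction s, h using Nat.le_induction with
  | base => exact Finset.Subset.refl _
  | succ s _ ih => exact ih.trans (ball_sub H p s)

lemma ball_self (H : V → V → Prop) [DecidableRel H] (p : V) (r : ℕ) : p ∈ ball H p r :=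
  ball_mono H p (Nat.zero_le r) (by rw [ball]; exact mem_singleton_self p)

lemma ball_step (H : V → V → Prop) [DecidableRel H] (p : V) (r : ℕ) {x y : V}
    (hx : x ∈ ball H p r) (h : H x y) : y ∈ ball H p (r + 1) := by
  rw [ball]
  exact mem_union_right _ (mem_filter.2 ⟨mem_univ _, x, hx, h⟩)

/-- a ball is contained in the ball of a larger relation -/
lemma ball_rel (H H' : V → V → Prop) [DecidableRel H] [DecidableRel H']
    (hH : ∀ x y, H x y → H' x y) (p : V) (r : ℕ) : ball H p r ⊆ ball H' p r := by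
  induction r with
  | zero => rw [ball, ball]
  | succ r ih =>
    intro y hy
    rw [ball, mem_union, mem_filter] at hy
    rcases hy with hy | ⟨_, x, hx, hxy⟩
    · exact ball_sub H' p r (ih hy)
    · exact ball_step H' p r (ih hx) (hH x y hxy)

/-- a point of a ball is the end of a walk -/
lemma ball_walk (G : SimpleGraph V) (H : V → V → Prop) [DecidableRel H]
    (hG : ∀ x y, H x y → G.Adj x y) (p : V) (r : ℕ) : ∀ y ∈ ball H p r,
    ∃ w : G.Walk p y, w.length ≤ r ∧ ∀ e ∈ w.edges, ∃ x y, e = s(x, y) ∧ H x y := by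
  induction r with
  | zero =>
    intro y hy
    rw [ball, mem_singleton] at hy
    subst hy
    exact ⟨SimpleGraph.Walk.nil, by simp, by simp⟩
  | succ r ih =>
    intro y hy
    rw [ball, mem_union, mem_filter] at hy
    rcases hy with hy | ⟨_, x, hx, hxy⟩
    · obtain ⟨w, h1, h2⟩ := ih y hy
      exact ⟨w, by omega, h2⟩
    · obtain ⟨w, h1, h2⟩ := ih x hx
      refine ⟨w.append (SimpleGraph.Walk.cons (hG x y hxy) SimpleGraph.Walk.nil), ?_, ?_⟩
      · rw [SimpleGraph.Walk.length_append]
        simp only [SimpleGraph.Walk.length_cons, SimpleGraph.Walk.length_nil]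
        omega
      · intro e he
        rw [SimpleGraph.Walk.edges_append, List.mem_append] at he
        rcases he with he | he
        · exact h2 e he
        · simp only [SimpleGraph.Walk.edges_cons, SimpleGraph.Walk.edges_nil, List.mem_cons,
            List.not_mem_nil, or_false] at he
          exact ⟨x, y, he, hxy⟩

/-- two points whose balls meet are joined by a walk -/
lemma ball_meet (G : SimpleGraph V) (H : V → V → Prop) [DecidableRel H]
    (hG : ∀ x y, H x y → G.Adj x y) (p q : V) (r : ℕ)
    (h : ¬ Disjoint (ball H p r) (ball H q r)) :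
    ∃ w : G.Walk p q, w.length ≤ 2 * r ∧ ∀ e ∈ w.edges, ∃ x y, e = s(x, y) ∧ H x y := by
  rw [Finset.not_disjoint_iff] at h
  obtain ⟨z, hz1, hz2⟩ := h
  obtain ⟨w1, h1, h2⟩ := ball_walk G H hG p r z hz1
  obtain ⟨w2, h3, h4⟩ := ball_walk G H hG q r z hz2
  refine ⟨w1.append w2.reverse, ?_, ?_⟩
  · rw [SimpleGraph.Walk.length_append, SimpleGraph.Walk.length_reverse]
    omega
  · intro e he
    rw [SimpleGraph.Walk.edges_append, List.mem_append, SimpleGraph.Walk.edges_reverse,
      List.mem_reverse] at he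
    rcases he with he | he
    · exact h2 e he
    · exact h4 e he

lemma vol_union_disj (G : SimpleGraph V) [DecidableRel G.Adj] (S T : Finset V)
    (h : Disjoint S T) : vol G (S ∪ T) = vol G S + vol G T := by
  unfold vol
  exact Finset.sum_union h

omit [DecidableEq V] in
lemma vol_mono (G : SimpleGraph V) [DecidableRel G.Adj] {S T : Finset V} (h : S ⊆ T) :
    vol G S ≤ vol G T := by
  unfold vol
  exact Finset.sum_le_sum_of_subset h

omit [DecidableEq V] in
lemma vol_ge_card (G : SimpleGraph V) [DecidableRel G.Adj] (S : Finset V) (K : ℕ)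
    (hK : ∀ x, K ≤ dg G x) : S.card * K ≤ vol G S := by
  unfold vol
  rw [← smul_eq_mul]
  exact Finset.card_nsmul_le_sum _ _ _ (fun x _ => hK x)

omit [DecidableEq V] in
lemma vol_le_card (G : SimpleGraph V) [DecidableRel G.Adj] (S : Finset V) (L : ℕ)
    (hL : ∀ x, dg G x ≤ L) : vol G S ≤ S.card * L := by
  unfold vol
  rw [← smul_eq_mul]
  exact Finset.sum_le_card_nsmul _ _ _ (fun x _ => hL x)

/-- the new vertices have volume at least the number of leaving pairs -/
lemma grow_new (G : SimpleGraph V) [DecidableRel G.Adj] (H : V → V → Prop) [DecidableRel H]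
    (hG : ∀ x y, H x y → G.Adj x y) (p : V) (r : ℕ) :
    vol G (ball H p r) + hb H (ball H p r) ≤ vol G (ball H p (r + 1)) := by
  set S := ball H p r with hS
  set N := (univ.filter (fun y => ∃ x ∈ S, H x y)) \ S with hN
  have h1 : ball H p (r + 1) = S ∪ N := by
    rw [ball, ← hS, hN, Finset.union_sdiff_self_eq_union]
  rw [h1, vol_union_disj G S N Finset.disjoint_sdiff]
  refine Nat.add_le_add_left ?_ _
  -- double counting
  have h2 : hb H S ≤ ∑ x ∈ S, (N.filter (fun y => G.Adj x y)).card := by
    unfold hb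
    refine Finset.sum_le_sum ?_
    intro x hx
    refine Finset.card_le_card ?_
    intro y hy
    rw [mem_filter] at hy ⊢
    refine ⟨?_, hG x y hy.2.1⟩
    rw [hN, mem_sdiff, mem_filter]
    exact ⟨⟨mem_univ _, x, hx, hy.2.1⟩, hy.2.2⟩
  have h3 : ∑ x ∈ S, (N.filter (fun y => G.Adj x y)).card =
      ∑ y ∈ N, (S.filter (fun x => G.Adj x y)).card := by
    simp only [Finset.card_filter]
    exact Finset.sum_comm
  have h4 : ∑ y ∈ N, (S.filter (fun x => G.Adj x y)).card ≤ vol G N := by
    unfold vol
    refine Finset.sum_le_sum ?_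
    intro y _
    unfold dg
    refine Finset.card_le_card ?_
    intro x hx
    rw [mem_filter] at hx ⊢
    exact ⟨mem_univ _, hx.2.symm⟩
  omega

/-- growth of the balls -/
lemma grow (G : SimpleGraph V) [DecidableRel G.Adj] (H : V → V → Prop) [DecidableRel H]
    (hG : ∀ x y, H x y → G.Adj x y) (p : V) (A R : ℕ) (hp : 1 ≤ dg G p)
    (h : ∀ r, r < R → 2 * vol G (ball H p r) ≤ vol G univ → (A + 1) ^ r ≤
      A ^ r * vol G (ball H p r) → vol G (ball H p r) ≤ A * hb H (ball H p r)) :
    ∀ r, r ≤ R → vol G univ < 2 * vol G (ball H p r) ∨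
      (A + 1) ^ r ≤ A ^ r * vol G (ball H p r) := by
  intro r
  induction r with
  | zero =>
    intro _
    right
    rw [ball, vol, Finset.sum_singleton]
    simpa using hp
  | succ r ih =>
    intro hr
    rcases ih (by omega) with h1 | h1
    · left
      exact lt_of_lt_of_le h1 (Nat.mul_le_mul_left 2 (vol_mono G (ball_sub H p r)))
    · by_cases h2 : 2 * vol G (ball H p r) ≤ vol G univ
      · right
        have h3 := h r (by omega) h2 h1
        have h4 := grow_new G H hG p r
        have h5 : (A + 1) * vol G (ball H p r) ≤ A * vol G (ball H p (r + 1)) := by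
          nlinarith
        calc (A + 1) ^ (r + 1) = (A + 1) * (A + 1) ^ r := by ring
          _ ≤ (A + 1) * (A ^ r * vol G (ball H p r)) := Nat.mul_le_mul_left _ h1
          _ = A ^ r * ((A + 1) * vol G (ball H p r)) := by ring
          _ ≤ A ^ r * (A * vol G (ball H p (r + 1))) := Nat.mul_le_mul_left _ h5
          _ = A ^ (r + 1) * vol G (ball H p (r + 1)) := by ring
      · left
        exact lt_of_lt_of_le (not_le.1 h2)
          (Nat.mul_le_mul_left 2 (vol_mono G (ball_sub H p r)))

/-- two large balls meet -/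
lemma half_meet (G : SimpleGraph V) [DecidableRel G.Adj] (S T : Finset V)
    (h1 : vol G univ < 2 * vol G S) (h2 : vol G univ < 2 * vol G T) : ¬ Disjoint S T := by
  intro h
  have h3 := vol_union_disj G S T h
  have h4 := vol_mono G (subset_univ (S ∪ T))
  omega

/-- the boundary pairs: lost pairs and pairs of `H` -/
lemma bd_le (G : SimpleGraph V) [DecidableRel G.Adj] (H : V → V → Prop) [DecidableRel H]
    (S : Finset V) (l : V → ℕ)
    (hl : ∀ x ∈ S, (univ.filter (fun y => G.Adj x y ∧ y ∉ S ∧ ¬ H x y)).card ≤ l x) :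
    bd G S ≤ hb H S + ∑ x ∈ S, l x := by
  unfold bd hb
  rw [← Finset.sum_add_distrib]
  refine Finset.sum_le_sum ?_
  intro x hx
  refine le_trans ?_ (Nat.add_le_add_left (hl x hx) _)
  refine le_trans (Finset.card_le_card ?_) (Finset.card_union_le _ _)
  intro y hy
  rw [mem_filter] at hy
  rw [mem_union, mem_filter, mem_filter]
  by_cases h : H x y
  · exact Or.inl ⟨mem_univ _, h, hy.2.2⟩
  · exact Or.inr ⟨mem_univ _, hy.2.1, hy.2.2, h⟩

/-- `(1 + 1 / A) ^ A ≥ 2` -/
lemma bern (A : ℕ) (hA : 1 ≤ A) : 2 * A ^ A ≤ (A + 1) ^ A := by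
  have h : A ^ A + A * A ^ (A - 1) ≤ (A + 1) ^ A := by
    have h1 := add_pow A 1 A
    have h2 : ∑ k ∈ ({A - 1, A} : Finset ℕ), A ^ k * 1 ^ (A - k) * (A.choose k) ≤
        ∑ k ∈ Finset.range (A + 1), A ^ k * 1 ^ (A - k) * (A.choose k) := by
      refine Finset.sum_le_sum_of_subset ?_
      intro k hk
      rw [mem_insert, mem_singleton] at hk
      rw [mem_range]
      omega
    rw [Finset.sum_pair (by omega)] at h2
    have h3 : A.choose (A - 1) = A := by
      rw [Nat.choose_symm_of_eq_add (b := 1) (by omega)]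
      exact Nat.choose_one_right A
    rw [h3, Nat.choose_self, one_pow, one_pow, mul_one, mul_one, mul_one] at h2
    rw [h1]
    linarith
  have h4 : A * A ^ (A - 1) = A ^ A := by
    rw [← pow_succ']
    congr 1
    omega
  omega

lemma bern_pow (A m : ℕ) (hA : 1 ≤ A) : 2 ^ m * A ^ (A * m) ≤ (A + 1) ^ (A * m) := by
  rw [pow_mul, pow_mul, ← mul_pow]
  exact Nat.pow_le_pow_left (bern A hA) m

end

end Pool.Agent.H71.CN
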