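import Pool.Agent.H71.CN.Core2

/-!
# Graphs with an expanding hub
-/

set_option autoImplicit false

namespace Pool.Agent.H71.CN

open Finset Pool.Agent.H55.GW

section
variable {V : Type} [Fintype V] [DecidableEq V]

omit [Fintype V] in
/-- the assembly: a linkage from routes for the pairs that are not joined directly -/
theorem lk_asm (G : SimpleGraph V) [DecidableRel G.Adj] (K : ℕ) (u v : Fin K → V)
    (Q : Fin K → Finset (Sym2 V)) (h1 : ∀ i ∈ xR G u v, Disjoint (Q i) (xE G u v))
    (h2 : ∀ i ∈ xR G u v, ∀ j ∈ xR G u v, i ≠ j → Disjoint (Q i) (Q j))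
    (h3 : ∀ i ∈ xR G u v, Jo G (Q i) (u i) (v i)) :
    ∃ P : ∀ i, G.Walk (u i) (v i), (∀ i, (P i).IsPath) ∧
      ∀ i j, i ≠ j → ∀ e ∈ (P i).edges, e ∉ (P j).edges := by
  obtain ⟨rt, hrt⟩ : ∃ rt : Fin K → Finset (Sym2 V), ∀ i, rt i =
      if i ∈ xD G u v then {s(u i, v i)} else if i ∈ xR G u v then Q i else ∅ :=
    ⟨_, fun _ => rfl⟩
  have hD : ∀ j ∈ xD G u v, s(u j, v j) ∈ xE G u v := fun j hj => mem_image.2 ⟨j, hj, rfl⟩
  have hjo : ∀ i, Jo G (rt i) (u i) (v i) := by
    intro i
    rw [hrt]
    split_ifs with hd hR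
    · exact x_jo1 G _ _ (mem_filter.1 hd).2.1
    · exact h3 i hR
    · have huv : u i = v i := by
        by_contra hne
        apply hR
        exact mem_sdiff.2 ⟨mem_filter.2 ⟨mem_univ _, hne⟩, hd⟩
      rw [huv]
      exact x_jo0 G _
  have hDD : ∀ i ∈ xD G u v, ∀ j ∈ xD G u v, i ≠ j → s(u i, v i) ≠ s(u j, v j) := by
    intro i hi j hj hij
    rcases lt_or_gt_of_ne hij with h | h
    · exact (mem_filter.1 hj).2.2 i h
    · exact fun h' => (mem_filter.1 hi).2.2 j h h'.symm
  have hDQ : ∀ i ∈ xD G u v, ∀ j ∈ xR G u v, s(u i, v i) ∉ Q j := by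
    intro i hi j hj he
    exact Finset.disjoint_left.1 (h1 j hj) he (hD i hi)
  have hdis : ∀ i j, i ≠ j → Disjoint (rt i) (rt j) := by
    intro i j hij
    rw [hrt, hrt]
    split_ifs with hid hjd hjR hiR hjd hjR
    · rw [Finset.disjoint_singleton]
      exact hDD i hid j hjd hij
    · rw [Finset.disjoint_singleton_left]
      exact hDQ i hid j hjR
    · exact Finset.disjoint_empty_right _
    · rw [Finset.disjoint_singleton_right]
      exact hDQ j hjd i hiR
    · exact h2 i hiR j hjR hij
    · exact Finset.disjoint_empty_right _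
    · exact Finset.disjoint_empty_left _
    · exact Finset.disjoint_empty_left _
    · exact Finset.disjoint_empty_left _
  choose w hw using hjo
  refine ⟨fun i => (w i).bypass, fun i => (w i).bypass_isPath, ?_⟩
  intro i j hij e he he'
  exact Finset.disjoint_left.1 (hdis i j hij)
    (hw i e ((w i).edges_bypass_subset_edges he))
    (hw j e ((w j).edges_bypass_subset_edges he'))

/-- the pairs of `X` and its complement that are not joined directly -/
def ro {K : ℕ} (G : SimpleGraph V) [DecidableRel G.Adj] (u v : Fin K → V) (X : Finset V) : ℕ :=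
  ∑ x ∈ X, (univ.filter (fun z => z ∉ X ∧ G.Adj x z ∧ s(x, z) ∉ xE G u v)).card

omit [Fintype V] in
lemma tk_xat {K : ℕ} (R : Finset (Fin K)) (u v : Fin K → V) (hne : ∀ i ∈ R, u i ≠ v i) (x : V) :
    (univ.filter (fun a : Tk R => tw R u v a = x)).card ≤ (xat R u v x).card := by
  refine Finset.card_le_card_of_injOn (fun a => a.1.1) ?_ ?_
  · rintro ⟨⟨i, c⟩, hi⟩ ha
    have h2 := (mem_filter.1 (Finset.mem_coe.1 ha)).2
    rw [Finset.mem_coe]
    unfold xat
    rw [mem_filter]
    refine ⟨hi, ?_⟩
    cases c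
    · exact Or.inl h2
    · exact Or.inr h2
  · rintro ⟨⟨i, c⟩, hi⟩ ha ⟨⟨j, d⟩, hj⟩ hb hab
    have h1 := (mem_filter.1 (Finset.mem_coe.1 ha)).2
    have h2 := (mem_filter.1 (Finset.mem_coe.1 hb)).2
    have hij : i = j := hab
    subst hij
    have hn := hne i hi
    cases c <;> cases d
    · rfl
    · exact absurd ((show u i = x from h1).trans (show v i = x from h2).symm) hn
    · exact absurd ((show u i = x from h2).trans (show v i = x from h1).symm) hn
    · rfl

/-- **the cut condition** -/
lemma cut_ok {K : ℕ} (G : SimpleGraph V) [DecidableRel G.Adj] (u v : Fin K → V) (X : Finset V)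
    (hK : 2 ≤ K) (hdeg : ∀ x, K ≤ dg G x)
    (h3 : 3 ≤ X.card → ∑ x ∈ X, (xat (xN u v) u v x).card ≤ bd G X) :
    ∑ x ∈ X, (xat (xR G u v) u v x).card ≤ ro G u v X := by
  -- the direct pairs leaving `X`
  obtain ⟨cd, hcd⟩ : ∃ cd : V → ℕ, ∀ x, cd x =
      (univ.filter (fun z => z ∉ X ∧ s(x, z) ∈ xE G u v)).card := ⟨_, fun _ => rfl⟩
  have hsum : bd G X ≤ ro G u v X + ∑ x ∈ X, cd x := by
    unfold bd ro
    rw [← Finset.sum_add_distrib]
    refine Finset.sum_le_sum ?_
    intro x _
    rw [hcd]
    refine le_trans (Finset.card_le_card ?_) (Finset.card_union_le _ _)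
    intro z hz
    rw [mem_filter] at hz
    rw [mem_union, mem_filter, mem_filter]
    by_cases h : s(x, z) ∈ xE G u v
    · exact Or.inr ⟨mem_univ _, hz.2.2, h⟩
    · exact Or.inl ⟨mem_univ _, hz.2.2, hz.2.1, h⟩
  have hcda : ∀ x, cd x ≤ (xat (xD G u v) u v x).card := by
    intro x
    refine le_trans ?_ (x_nb (xD G u v) u v x)
    rw [hcd]
    unfold us
    refine Finset.card_le_card ?_
    intro z hz
    rw [mem_filter] at hz ⊢
    exact ⟨mem_univ _, hz.2.2⟩
  have hsplit : ∀ x, (xat (xD G u v) u v x).card + (xat (xR G u v) u v x).card =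
      (xat (xN u v) u v x).card := fun x => x_split G u v x
  have hle : ∀ x, (xat (xR G u v) u v x).card + cd x ≤ (xat (xN u v) u v x).card := by
    intro x
    have h1 := hcda x
    have h2 := hsplit x
    omega
  have hN := x_NK u v
  have hNx : ∀ x, (xat (xN u v) u v x).card ≤ K := fun x =>
    le_trans (Finset.card_le_card (Finset.filter_subset _ _)) hN
  suffices h : ∑ x ∈ X, (xat (xR G u v) u v x).card + ∑ x ∈ X, cd x ≤ bd G X by omega
  by_cases hX3 : 3 ≤ X.card
  · have h1 := h3 hX3
    have h4 : ∑ x ∈ X, (xat (xR G u v) u v x).card + ∑ x ∈ X, cd x ≤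
        ∑ x ∈ X, (xat (xN u v) u v x).card := by
      rw [← Finset.sum_add_distrib]
      exact Finset.sum_le_sum (fun x _ => hle x)
    omega
  by_cases hX0 : X.card = 0
  · rw [Finset.card_eq_zero] at hX0
    rw [hX0]
    simp
  by_cases hX1 : X.card = 1
  · obtain ⟨x, rfl⟩ := Finset.card_eq_one.1 hX1
    have h1 : bd G {x} = dg G x := by
      unfold bd dg
      rw [Finset.sum_singleton]
      congr 1
      ext z
      rw [mem_filter, mem_filter, mem_singleton]
      constructor
      · exact fun h => ⟨h.1, h.2.1⟩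
      · exact fun h => ⟨h.1, h.2, fun h' => G.ne_of_adj h.2 h'.symm⟩
    rw [h1, Finset.sum_singleton, Finset.sum_singleton]
    exact le_trans (hle x) (le_trans (hNx x) (hdeg x))
  have hX2 : X.card = 2 := by omega
  obtain ⟨x, y, hxy, rfl⟩ := Finset.card_eq_two.1 hX2
  rw [Finset.sum_pair hxy, Finset.sum_pair hxy]
  have hbd : bd G {x, y} = (univ.filter (fun z => G.Adj x z ∧ z ∉ ({x, y} : Finset V))).card +
      (univ.filter (fun z => G.Adj y z ∧ z ∉ ({x, y} : Finset V))).card := by
    unfold bd
    rw [Finset.sum_pair hxy]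
  rw [hbd]
  have hlex := hle x
  have hley := hle y
  have hdx := hdeg x
  have hdy := hdeg y
  by_cases hadj : G.Adj x y
  · -- adjacent
    have e1 : dg G x ≤ (univ.filter (fun z => G.Adj x z ∧ z ∉ ({x, y} : Finset V))).card + 1 := by
      unfold dg
      have : univ.filter (fun z => G.Adj x z) ⊆
          insert y (univ.filter (fun z => G.Adj x z ∧ z ∉ ({x, y} : Finset V))) := by
        intro z hz
        rw [mem_filter] at hz
        rw [mem_insert, mem_filter]
        by_cases hzy : z = y
        · exact Or.inl hzy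
        · right
          refine ⟨mem_univ _, hz.2, ?_⟩
          rw [mem_insert, mem_singleton, not_or]
          exact ⟨fun h => G.ne_of_adj hz.2 h.symm, hzy⟩
      exact le_trans (Finset.card_le_card this) (Finset.card_insert_le _ _)
    have e2 : dg G y ≤ (univ.filter (fun z => G.Adj y z ∧ z ∉ ({x, y} : Finset V))).card + 1 := by
      unfold dg
      have : univ.filter (fun z => G.Adj y z) ⊆
          insert x (univ.filter (fun z => G.Adj y z ∧ z ∉ ({x, y} : Finset V))) := by
        intro z hz
        rw [mem_filter] at hz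
        rw [mem_insert, mem_filter]
        by_cases hzx : z = x
        · exact Or.inl hzx
        · right
          refine ⟨mem_univ _, hz.2, ?_⟩
          rw [mem_insert, mem_singleton, not_or]
          exact ⟨hzx, fun h => G.ne_of_adj hz.2 h.symm⟩
      exact le_trans (Finset.card_le_card this) (Finset.card_insert_le _ _)
    by_cases hE : s(x, y) ∈ xE G u v
    · -- joined directly
      have f1 : cd x + 1 ≤ (xat (xD G u v) u v x).card := by
        refine le_trans ?_ (x_nb (xD G u v) u v x)
        rw [hcd]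
        unfold us
        have : y ∉ univ.filter (fun z => z ∉ ({x, y} : Finset V) ∧ s(x, z) ∈ xE G u v) := by
          rw [mem_filter]
          intro h
          exact h.2.1 (by simp)
        rw [← Finset.card_insert_of_notMem this]
        refine Finset.card_le_card ?_
        intro z hz
        rw [mem_insert] at hz
        rw [mem_filter]
        refine ⟨mem_univ _, ?_⟩
        rcases hz with rfl | hz
        · exact hE
        · exact (mem_filter.1 hz).2.2
      have f2 : cd y + 1 ≤ (xat (xD G u v) u v y).card := by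
        refine le_trans ?_ (x_nb (xD G u v) u v y)
        rw [hcd]
        unfold us
        have : x ∉ univ.filter (fun z => z ∉ ({x, y} : Finset V) ∧ s(y, z) ∈ xE G u v) := by
          rw [mem_filter]
          intro h
          exact h.2.1 (by simp)
        rw [← Finset.card_insert_of_notMem this]
        refine Finset.card_le_card ?_
        intro z hz
        rw [mem_insert] at hz
        rw [mem_filter]
        refine ⟨mem_univ _, ?_⟩
        rcases hz with rfl | hz
        · rw [Sym2.eq_swap]
          exact hE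
        · exact (mem_filter.1 hz).2.2
      have g1 := hsplit x
      have g2 := hsplit y
      have g3 := hNx x
      have g4 := hNx y
      omega
    · -- no demand between x and y
      have hdisj : Disjoint (xat (xN u v) u v x) (xat (xN u v) u v y) := by
        rw [Finset.disjoint_left]
        intro i hi hi'
        unfold xat at hi hi'
        rw [mem_filter] at hi hi'
        have hs : s(u i, v i) = s(x, y) := by
          rw [Sym2.eq_iff]
          rcases hi.2 with a | a <;> rcases hi'.2 with b | b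
          · exact absurd (a.symm.trans b) hxy
          · exact Or.inl ⟨a, b⟩
          · exact Or.inr ⟨b, a⟩
          · exact absurd (a.symm.trans b) hxy
        apply hE
        rw [← hs]
        apply x_first G u v i
        rw [← SimpleGraph.mem_edgeSet, hs, SimpleGraph.mem_edgeSet]
        exact hadj
      have h5 : (xat (xN u v) u v x).card + (xat (xN u v) u v y).card ≤ K := by
        rw [← Finset.card_union_of_disjoint hdisj]
        refine le_trans (Finset.card_le_card ?_) hN
        exact Finset.union_subset (Finset.filter_subset _ _) (Finset.filter_subset _ _)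
      omega
  · have e1 : dg G x ≤ (univ.filter (fun z => G.Adj x z ∧ z ∉ ({x, y} : Finset V))).card := by
      unfold dg
      refine Finset.card_le_card ?_
      intro z hz
      rw [mem_filter] at hz ⊢
      refine ⟨mem_univ _, hz.2, ?_⟩
      rw [mem_insert, mem_singleton, not_or]
      refine ⟨fun h => G.ne_of_adj hz.2 h.symm, ?_⟩
      rintro rfl
      exact hadj hz.2
    have e2 : dg G y ≤ (univ.filter (fun z => G.Adj y z ∧ z ∉ ({x, y} : Finset V))).card := by
      unfold dg
      refine Finset.card_le_card ?_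
      intro z hz
      rw [mem_filter] at hz ⊢
      refine ⟨mem_univ _, hz.2, ?_⟩
      rw [mem_insert, mem_singleton, not_or]
      refine ⟨?_, fun h => G.ne_of_adj hz.2 h.symm⟩
      rintro rfl
      exact hadj hz.2.symm
    have g3 := hNx x
    have g4 := hNx y
    omega

/-- **the ends of the pairs flow to the hub** -/
theorem hub_flow {K : ℕ} (G : SimpleGraph V) [DecidableRel G.Adj] (u v : Fin K → V)
    (W' : Finset V) (hK : 2 ≤ K) (hdeg : ∀ x, K ≤ dg G x)
    (h3 : ∀ X : Finset V, Disjoint X W' → 3 ≤ X.card →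
      ∑ x ∈ X, (xat (xN u v) u v x).card ≤ bd G X) :
    ∃ (σ : Tk (xR G u v) → V) (F : Tk (xR G u v) → Finset (Sym2 V)),
      (∀ a, σ a ∈ W') ∧ (∀ a, Jo G (F a) (tw (xR G u v) u v a) (σ a)) ∧
      (∀ a b, a ≠ b → Disjoint (F a) (F b)) ∧
      ∀ a, ∀ e ∈ F a, e ∈ G.edgeSet ∧ e ∉ xE G u v ∧ ¬ ∀ z ∈ e, z ∈ W' := by
  classical
  obtain ⟨R, hRdef⟩ : ∃ R, R = xR G u v := ⟨_, rfl⟩
  have hne : ∀ i ∈ xR G u v, u i ≠ v i := fun i hi => (mem_filter.1 (mem_sdiff.1 hi).1).2
  obtain ⟨Uf, hUf⟩ : ∃ Uf : Finset (Sym2 V), ∀ e, e ∈ Uf ↔ (e ∈ xE G u v ∨ ∀ z ∈ e, z ∈ W') :=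
    ⟨univ.filter (fun e => e ∈ xE G u v ∨ ∀ z ∈ e, z ∈ W'), fun e => by simp⟩
  obtain ⟨σ, F, _, g2, g3, g4, _⟩ := men_paths (I := Tk (xR G u v))
    (J := {x // x ∈ W'} × Fin (2 * K)) G ∅ Uf (fun _ => 2 * K) (tw (xR G u v) u v)
    (fun j => (j.1 : V)) (by
    intro S hS
    by_contra hlt
    rw [not_le] at hlt
    have htk := tk_card (xR G u v)
    obtain ⟨X, hX⟩ : ∃ X : Finset V, ∀ x, x ∈ X ↔ ∃ (i : Tk (xR G u v)) (k : Fin (2 * K)),
        RIn (Dm G ∅ Uf (fun _ => 2 * K) (tw (xR G u v) u v)
          (fun j : {x // x ∈ W'} × Fin (2 * K) => (j.1 : V)))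
          ((S : Set (Wt V (Tk (xR G u v)) ({x // x ∈ W'} × Fin (2 * K)) (fun _ => 2 * K)))ᶜ)
          (tok i) (slot _ _ x k) :=
      ⟨univ.filter (fun x => ∃ (i : Tk (xR G u v)) (k : Fin (2 * K)),
        RIn (Dm G ∅ Uf (fun _ => 2 * K) (tw (xR G u v) u v)
          (fun j : {x // x ∈ W'} × Fin (2 * K) => (j.1 : V)))
          ((S : Set (Wt V (Tk (xR G u v)) ({x // x ∈ W'} × Fin (2 * K)) (fun _ => 2 * K)))ᶜ)
          (tok i) (slot _ _ x k)), fun x => by simp⟩
    -- a free slot
    have hfree : ∀ x : V, ∃ k : Fin (2 * K),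
        (slot (Tk (xR G u v)) ({x // x ∈ W'} × Fin (2 * K)) (b := fun _ => 2 * K) x k) ∉ S := by
      intro x
      by_contra hcon
      push Not at hcon
      have h1 : (univ : Finset (Fin (2 * K))).image (fun k =>
          slot (Tk (xR G u v)) ({x // x ∈ W'} × Fin (2 * K)) (b := fun _ => 2 * K) x k) ⊆ S := by
        intro z hz
        obtain ⟨k, _, rfl⟩ := mem_image.1 hz
        exact hcon k
      have h2 := Finset.card_le_card h1
      rw [Finset.card_image_of_injective, Finset.card_univ, Fintype.card_fin] at h2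
      · omega
      · intro k k' h
        have h5 := Sum.inr.inj (Sum.inl.inj h)
        exact eq_of_heq (Sigma.mk.inj_iff.1 h5).2
    have f1 : ∀ i : Tk (xR G u v), (tok i : Wt V (Tk (xR G u v))
        ({x // x ∈ W'} × Fin (2 * K)) (fun _ => 2 * K)) ∉ S → tw (xR G u v) u v i ∈ X := by
      intro i hi
      obtain ⟨k, hk⟩ := hfree (tw (xR G u v) u v i)
      rw [hX]
      refine ⟨i, k, RIn.single ?_ ?_ ?_⟩
      · exact rfl
      · exact fun h => hi (Finset.mem_coe.1 h)
      · exact fun h => hk (Finset.mem_coe.1 h)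
    have f2 : ∀ x ∈ X, ∀ x' : V, x' ∉ X → G.Adj x x' → s(x, x') ∉ Uf →
        (Sum.inr (Sum.inl s(x, x')) : Wt V (Tk (xR G u v))
        ({x // x ∈ W'} × Fin (2 * K)) (fun _ => 2 * K)) ∈ S := by
      intro x hx x' h1 h4 h5
      by_contra h6
      obtain ⟨i, k, hR⟩ := (hX x).1 hx
      obtain ⟨k', hk'⟩ := hfree x'
      have hok : okE G ∅ Uf s(x, x') := ⟨h4, h5, fun z _ => Finset.notMem_empty z⟩
      apply h1
      rw [hX]
      refine ⟨i, k', ?_⟩
      refine (hR.tail (y := slot _ _ x k) (z := (Sum.inr (Sum.inl s(x, x')) : Wt V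
        (Tk (xR G u v)) ({x // x ∈ W'} × Fin (2 * K)) (fun _ => 2 * K))) ?_ ?_).tail ?_ ?_
      · exact ⟨Sym2.mem_mk_left x x', hok⟩
      · exact fun h => h6 (Finset.mem_coe.1 h)
      · exact ⟨Sym2.mem_mk_right x x', hok⟩
      · exact fun h => hk' (Finset.mem_coe.1 h)
    have f3 : Disjoint X W' := by
      rw [Finset.disjoint_left]
      intro x hx hxW
      obtain ⟨i, k, hR⟩ := (hX _).1 hx
      have h1 : (univ : Finset (Fin (2 * K))).image (fun k =>
          (snk ((⟨x, hxW⟩, k) : {x // x ∈ W'} × Fin (2 * K)) : Wt V (Tk (xR G u v))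
          ({x // x ∈ W'} × Fin (2 * K)) (fun _ => 2 * K))) ⊆ S := by
        intro z hz
        obtain ⟨k', _, rfl⟩ := mem_image.1 hz
        by_contra h6
        refine hS i (⟨x, hxW⟩, k') (hR.tail ?_ ?_)
        · exact rfl
        · exact fun h => h6 (Finset.mem_coe.1 h)
      have h2 := Finset.card_le_card h1
      rw [Finset.card_image_of_injective, Finset.card_univ, Fintype.card_fin] at h2
      · omega
      · intro k k' h
        have h5 := Sum.inr.inj (Sum.inr.inj h)
        exact congrArg Prod.snd h5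
    -- counting
    set T1 : Finset (Tk (xR G u v)) := univ.filter (fun i => (tok i : Wt V (Tk (xR G u v))
        ({x // x ∈ W'} × Fin (2 * K)) (fun _ => 2 * K)) ∈ S) with hT1
    set E1 : Finset (Sym2 V) := univ.filter (fun e =>
      (Sum.inr (Sum.inl e) : Wt V (Tk (xR G u v))
        ({x // x ∈ W'} × Fin (2 * K)) (fun _ => 2 * K)) ∈ S) with hE1
    have hcard : T1.card + E1.card ≤ S.card := by
      have h1 : (T1.disjSum (∅ : Finset (Σ _ : V, Fin (2 * K)))).disjSum
          (E1.disjSum (∅ : Finset ({x // x ∈ W'} × Fin (2 * K)))) ⊆ S := by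
        intro z hz
        rcases z with (i | ⟨a, k⟩) | (e | j)
        · rw [Finset.inl_mem_disjSum, Finset.inl_mem_disjSum] at hz
          exact (mem_filter.1 hz).2
        · rw [Finset.inl_mem_disjSum, Finset.inr_mem_disjSum] at hz
          exact absurd hz (Finset.notMem_empty _)
        · rw [Finset.inr_mem_disjSum, Finset.inl_mem_disjSum] at hz
          exact (mem_filter.1 hz).2
        · rw [Finset.inr_mem_disjSum, Finset.inr_mem_disjSum] at hz
          exact absurd hz (Finset.notMem_empty _)
      have h2 := Finset.card_le_card h1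
      rw [Finset.card_disjSum, Finset.card_disjSum, Finset.card_disjSum] at h2
      simp only [Finset.card_empty] at h2
      omega
    have hroE : ro G u v X ≤ E1.card := by
      unfold ro
      rw [← Finset.card_sigma]
      refine Finset.card_le_card_of_injOn (fun a => s(a.1, a.2)) ?_ ?_
      · rintro ⟨x, z⟩ ha
        rw [Finset.mem_coe, Finset.mem_sigma, mem_filter] at ha
        obtain ⟨hx, _, hz, hadj, hU⟩ := ha
        rw [Finset.mem_coe, hE1, mem_filter]
        refine ⟨mem_univ _, f2 x hx z hz hadj ?_⟩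
        rw [hUf, not_or]
        refine ⟨hU, ?_⟩
        intro h
        exact Finset.disjoint_left.1 f3 hx (h x (Sym2.mem_mk_left x z))
      · rintro ⟨x, z⟩ ha ⟨x', z'⟩ ha' haa
        rw [Finset.mem_coe, Finset.mem_sigma, mem_filter] at ha ha'
        simp only [Sym2.eq_iff] at haa
        rcases haa with ⟨h1, h2⟩ | ⟨h1, h2⟩
        · subst h1; subst h2; rfl
        · exfalso
          have h3 := ha'.2.2.1
          rw [← h1] at h3
          exact h3 ha.1
    have htoks : Fintype.card (Tk (xR G u v)) ≤ T1.card +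
        ∑ x ∈ X, (univ.filter (fun i => tw (xR G u v) u v i = x)).card := by
      have h1 : (univ : Finset (Tk (xR G u v))) ⊆ T1 ∪
          X.biUnion (fun x => univ.filter (fun i => tw (xR G u v) u v i = x)) := by
        intro i _
        by_cases h : (tok i : Wt V (Tk (xR G u v))
            ({x // x ∈ W'} × Fin (2 * K)) (fun _ => 2 * K)) ∈ S
        · exact mem_union_left _ (mem_filter.2 ⟨mem_univ _, h⟩)
        · exact mem_union_right _ (mem_biUnion.2 ⟨_, f1 i h, mem_filter.2 ⟨mem_univ _, rfl⟩⟩)
      have h2 := Finset.card_le_card h1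
      rw [Finset.card_univ] at h2
      exact le_trans h2 (le_trans (Finset.card_union_le _ _)
        (Nat.add_le_add_left Finset.card_biUnion_le _))
    have h5 : ∑ x ∈ X, (univ.filter (fun i => tw (xR G u v) u v i = x)).card ≤
        ∑ x ∈ X, (xat (xR G u v) u v x).card :=
      Finset.sum_le_sum (fun x _ => tk_xat (xR G u v) u v hne x)
    have h6 := cut_ok G u v X hK hdeg (h3 X f3)
    omega)
  refine ⟨fun a => ((σ a).1 : V), F, fun a => (σ a).1.2, g2, g3, ?_⟩
  intro a e he
  obtain ⟨h1, h2, _⟩ := g4 a e he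
  rw [hUf, not_or] at h2
  exact ⟨h1, h2.1, h2.2⟩

end

end Pool.Agent.H71.CN
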