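import Pool.Agent.H71.CN.Hub

/-!
# The hub theorem
-/

set_option autoImplicit false

namespace Pool.Agent.H71.CN

open Finset

section
variable {V : Type} [Fintype V] [DecidableEq V]

/-- the number of neighbours in `W` -/
def dW (G : SimpleGraph V) [DecidableRel G.Adj] (W : Finset V) (x : V) : ℕ :=
  (W.filter (fun y => G.Adj x y)).card

/-- the number of neighbours outside `W` -/
def oW (G : SimpleGraph V) [DecidableRel G.Adj] (W : Finset V) (x : V) : ℕ :=
  (univ.filter (fun y => G.Adj x y ∧ y ∉ W)).card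

/-- the graph induced on `W` -/
abbrev GW (G : SimpleGraph V) (W : Finset V) : SimpleGraph {x // x ∈ W} :=
  G.comap (fun x : {x // x ∈ W} => (x : V))

instance (G : SimpleGraph V) [DecidableRel G.Adj] (W : Finset V) :
    DecidableRel (GW G W).Adj := fun a b => inferInstanceAs (Decidable (G.Adj a b))

omit [Fintype V] in
lemma card_sub (W : Finset V) (P : V → Prop) [DecidablePred P] :
    (univ.filter (fun y : {x // x ∈ W} => P y)).card = (W.filter P).card := by
  rw [← Finset.card_image_of_injective (univ.filter (fun y : {x // x ∈ W} => P y))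
    (f := fun y : {x // x ∈ W} => (y : V)) (fun a b h => Subtype.ext h)]
  congr 1
  ext z
  rw [mem_image, mem_filter]
  constructor
  · rintro ⟨y, hy, rfl⟩
    exact ⟨y.2, (mem_filter.1 hy).2⟩
  · rintro ⟨h1, h2⟩
    exact ⟨⟨z, h1⟩, mem_filter.2 ⟨mem_univ _, h2⟩, rfl⟩

omit [Fintype V] in
lemma dg_sub (G : SimpleGraph V) [DecidableRel G.Adj] (W : Finset V) (x : {x // x ∈ W}) :
    dg (GW G W) x = dW G W x := by
  unfold dg dW
  exact card_sub W (fun y => G.Adj x y)

omit [Fintype V] in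
lemma cond_sub (G : SimpleGraph V) [DecidableRel G.Adj] (W : Finset V) (E : ℕ)
    (hb : ∀ S ⊆ W, 2 * ∑ x ∈ S, dW G W x ≤ ∑ x ∈ W, dW G W x →
      ∑ x ∈ S, dW G W x ≤ E * ∑ x ∈ S, ((W \ S).filter (fun y => G.Adj x y)).card) :
    Cond (GW G W) E := by
  intro S hS
  have hinj : ∀ a ∈ S, ∀ b ∈ S, (a : V) = (b : V) → a = b := fun a _ b _ h => Subtype.ext h
  have hinj' : ∀ a ∈ (univ : Finset {x // x ∈ W}), ∀ b ∈ (univ : Finset {x // x ∈ W}),
      (a : V) = (b : V) → a = b := fun a _ b _ h => Subtype.ext h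
  obtain ⟨T, hT⟩ : ∃ T, T = S.image (fun x : {x // x ∈ W} => (x : V)) := ⟨_, rfl⟩
  have hTW : T ⊆ W := by
    intro z hz
    rw [hT, mem_image] at hz
    obtain ⟨x, _, rfl⟩ := hz
    exact x.2
  have hTm : ∀ x : {x // x ∈ W}, (x : V) ∈ T ↔ x ∈ S := by
    intro x
    rw [hT, mem_image]
    constructor
    · rintro ⟨y, hy, hyx⟩
      have : y = x := Subtype.ext hyx
      rw [← this]; exact hy
    · intro h
      exact ⟨x, h, rfl⟩
  have h1 : vol (GW G W) S = ∑ x ∈ T, dW G W x := by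
    unfold vol
    rw [hT, Finset.sum_image hinj]
    exact Finset.sum_congr rfl (fun x _ => dg_sub G W x)
  have h2 : vol (GW G W) univ = ∑ x ∈ W, dW G W x := by
    unfold vol
    have h3 : W = (univ : Finset {x // x ∈ W}).image (fun x : {x // x ∈ W} => (x : V)) := by
      ext z
      rw [mem_image]
      constructor
      · intro h
        exact ⟨⟨z, h⟩, mem_univ _, rfl⟩
      · rintro ⟨x, _, rfl⟩
        exact x.2
    conv_rhs => rw [h3]
    rw [Finset.sum_image hinj']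
    refine Finset.sum_congr rfl (fun x _ => ?_)
    rw [← h3]
    exact dg_sub G W x
  have h3 : bd (GW G W) S = ∑ x ∈ T, ((W \ T).filter (fun y => G.Adj x y)).card := by
    unfold bd
    rw [hT, Finset.sum_image hinj, ← hT]
    refine Finset.sum_congr rfl (fun x _ => ?_)
    have h4 := card_sub W (fun y => G.Adj x y ∧ y ∉ T)
    have h5 : (univ.filter (fun y : {x // x ∈ W} => (GW G W).Adj x y ∧ y ∉ S)) =
        univ.filter (fun y : {x // x ∈ W} => G.Adj x y ∧ (y : V) ∉ T) := by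
      ext y
      rw [mem_filter, mem_filter, hTm]
      rfl
    rw [h5, h4]
    congr 1
    ext z
    rw [mem_filter, mem_filter, mem_sdiff]
    tauto
  rw [h1, h2] at hS
  rw [h1, h3]
  exact hb T hTW hS

omit [Fintype V] in
lemma jo_map (G : SimpleGraph V) (W : Finset V) (A : Finset (Sym2 {x // x ∈ W}))
    (a b : {x // x ∈ W}) (h : Jo (GW G W) A a b) :
    Jo G (A.image (Sym2.map (fun x : {x // x ∈ W} => (x : V)))) a b := by
  obtain ⟨w, hw⟩ := h
  let f : GW G W →g G := ⟨fun x => (x : V), fun h => h⟩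
  refine ⟨w.map f, ?_⟩
  intro e he
  rw [SimpleGraph.Walk.edges_map, List.mem_map] at he
  obtain ⟨e', he', rfl⟩ := he
  exact mem_image.2 ⟨e', hw e' he', rfl⟩

/-- the tokens that end at `w` -/
lemma tk_end {K : ℕ} (G : SimpleGraph V) (R : Finset (Fin K)) (u v : Fin K → V)
    (σ : Tk R → V) (F : Tk R → Finset (Sym2 V)) (hjo : ∀ a, Jo G (F a) (tw R u v a) (σ a))
    (hd : ∀ a b, a ≠ b → Disjoint (F a) (F b)) (w : V) :
    (univ.filter (fun a : Tk R => σ a = w)).card ≤
      (univ.filter (fun a : Tk R => tw R u v a = w)).card + us (univ.biUnion F) w := by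
  classical
  have h1 : univ.filter (fun a : Tk R => σ a = w) ⊆
      univ.filter (fun a : Tk R => tw R u v a = w) ∪
      univ.filter (fun a : Tk R => tw R u v a ≠ w ∧ σ a = w) := by
    intro a ha
    rw [mem_filter] at ha
    rw [mem_union, mem_filter, mem_filter]
    by_cases h : tw R u v a = w
    · exact Or.inl ⟨mem_univ _, h⟩
    · exact Or.inr ⟨mem_univ _, h, ha.2⟩
  refine le_trans (Finset.card_le_card h1) (le_trans (Finset.card_union_le _ _)
    (Nat.add_le_add_left ?_ _))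
  -- the last edge
  have h2 : ∀ a : Tk R, ∃ x : V, (tw R u v a ≠ w ∧ σ a = w) → s(w, x) ∈ F a := by
    intro a
    by_cases h : tw R u v a ≠ w ∧ σ a = w
    · obtain ⟨wk, hwk⟩ := hjo a
      have hnil : ¬ wk.Nil := by
        intro hn
        exact h.1 (hn.eq.trans h.2)
      obtain ⟨e, he, hwe⟩ := (SimpleGraph.Walk.mem_support_iff_exists_mem_edges_of_not_nil
        hnil).1 wk.end_mem_support
      obtain ⟨x, hx⟩ := hwe
      refine ⟨x, fun _ => ?_⟩
      rw [h.2] at hx
      rw [← hx]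
      exact hwk e he
    · exact ⟨w, fun h' => absurd h' h⟩
  choose f hf using h2
  unfold us
  refine Finset.card_le_card_of_injOn f ?_ ?_
  · intro a ha
    have h3 := (mem_filter.1 (Finset.mem_coe.1 ha)).2
    rw [Finset.mem_coe, mem_filter, mem_biUnion]
    exact ⟨mem_univ _, a, mem_univ _, hf a h3⟩
  · intro a ha b hb hab
    have h3 := hf a (mem_filter.1 (Finset.mem_coe.1 ha)).2
    have h4 := hf b (mem_filter.1 (Finset.mem_coe.1 hb)).2
    rw [← hab] at h4
    by_contra hne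
    exact Finset.disjoint_left.1 (hd a b hne) h3 h4

/-- the moved pairs at a vertex -/
lemma pq_count {K : ℕ} {α : Type} [DecidableEq α] (R : Finset (Fin K)) (g : Tk R → α)
    (p q : Fin K → α) (hp : ∀ i (h : i ∈ R), p i = g ⟨(i, false), h⟩)
    (hq : ∀ i (h : i ∈ R), q i = g ⟨(i, true), h⟩) (w : α) :
    (R.filter (fun i => p i = w)).card + (R.filter (fun i => q i = w)).card ≤
      (univ.filter (fun a : Tk R => g a = w)).card := by
  have h1 : (R.filter (fun i => p i = w)).card ≤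
      (univ.filter (fun a : Tk R => g a = w ∧ a.1.2 = false)).card := by
    refine Finset.card_le_card_of_surjOn (fun a => a.1.1) ?_
    intro i hi
    obtain ⟨hiR, hiw⟩ := mem_filter.1 (Finset.mem_coe.1 hi)
    refine ⟨⟨(i, false), hiR⟩, ?_, rfl⟩
    rw [Finset.mem_coe, mem_filter]
    exact ⟨mem_univ _, (hp i hiR).symm.trans hiw, rfl⟩
  have h2 : (R.filter (fun i => q i = w)).card ≤
      (univ.filter (fun a : Tk R => g a = w ∧ ¬ a.1.2 = false)).card := by
    refine Finset.card_le_card_of_surjOn (fun a => a.1.1) ?_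
    intro i hi
    obtain ⟨hiR, hiw⟩ := mem_filter.1 (Finset.mem_coe.1 hi)
    refine ⟨⟨(i, true), hiR⟩, ?_, rfl⟩
    rw [Finset.mem_coe, mem_filter]
    exact ⟨mem_univ _, (hq i hiR).symm.trans hiw, by simp⟩
  have h3 := Finset.card_filter_add_card_filter_not
    (s := univ.filter (fun a : Tk R => g a = w)) (fun a => a.1.2 = false)
  rw [Finset.filter_filter, Finset.filter_filter] at h3
  omega

end

/-- **the hub theorem** with an explicit constant -/
theorem hub_exp (E : ℕ) (hE : 1 ≤ E) (V : Type) [Fintype V] [DecidableEq V]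
    (G : SimpleGraph V) [DecidableRel G.Adj] (K : ℕ) (W : Finset V)
    (hK : 20000000000000 * E ^ 6 ≤ K) (hW : W.Nonempty)
    (hdeg : ∀ x, K ≤ dg G x) (ha : ∀ x ∈ W, 20000 * (E ^ 2 * oW G W x) ≤ dW G W x)
    (hb : ∀ S ⊆ W, 2 * ∑ x ∈ S, dW G W x ≤ ∑ x ∈ W, dW G W x →
      ∑ x ∈ S, dW G W x ≤ E * ∑ x ∈ S, ((W \ S).filter (fun y => G.Adj x y)).card)
    (u v : Fin K → V) (hc : ∀ X : Finset V, 3 ≤ X.card → (X ∩ W).card ≤ Nat.sqrt K + 1 →
      ∑ x ∈ X, (xat (xN u v) u v x).card ≤ bd G X) :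
    ∃ P : ∀ i, G.Walk (u i) (v i), (∀ i, (P i).IsPath) ∧
      ∀ i j, i ≠ j → ∀ e ∈ (P i).edges, e ∉ (P j).edges := by
  classical
  have hE2 : 1 ≤ E ^ 2 := Nat.one_le_pow _ _ hE
  have hE6 : 1 ≤ E ^ 6 := Nat.one_le_pow _ _ hE
  have hE46 : (E ^ 2) ^ 2 ≤ E ^ 6 := by
    rw [← pow_mul]
    exact Nat.pow_le_pow_right hE (by norm_num)
  have hE4 : E ^ 2 ≤ (E ^ 2) ^ 2 := by
    calc E ^ 2 = E ^ 2 * 1 := by ring
      _ ≤ E ^ 2 * E ^ 2 := Nat.mul_le_mul_left _ hE2
      _ = (E ^ 2) ^ 2 := by ring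
  have hKbig : 40000000000 * (E ^ 2) ^ 2 ≤ K := by omega
  obtain ⟨t, htdef⟩ : ∃ t, t = Nat.sqrt K + 1 := ⟨_, rfl⟩
  have hs := sqrt_aux K (by omega)
  rw [← htdef] at hs
  have ht2 : 100000 * (E ^ 2 * t) ≤ K := by
    have h40 : 4 * (100000 * E ^ 2) ^ 2 = 40000000000 * (E ^ 2) ^ 2 := by ring
    have := root_lin K t (100000 * E ^ 2) hs.2 (by omega)
    calc 100000 * (E ^ 2 * t) = 100000 * E ^ 2 * t := by ring
      _ ≤ K := this
  have ht3 : 256 * E ≤ t := by
    by_contra hcon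
    have h5 : t ^ 2 ≤ (256 * E) ^ 2 := Nat.pow_le_pow_left (by omega) 2
    have h6 : (256 * E) ^ 2 = 65536 * E ^ 2 := by ring
    omega
  have htE : t ≤ E ^ 2 * t := Nat.le_mul_of_pos_left t (by omega)
  obtain ⟨Nb, hNb⟩ : ∃ Nb : Finset V, ∀ x, x ∈ Nb ↔ 20000 * (E ^ 2 * K) ≤ dW G W x :=
    ⟨univ.filter (fun x => 20000 * (E ^ 2 * K) ≤ dW G W x), fun x => by simp⟩
  obtain ⟨Z, hZdef⟩ : ∃ Z, Z = xZ t Nb u v := ⟨_, rfl⟩
  have hZt : Z.card ≤ t := by rw [hZdef]; exact x_Z t Nb u v hs.1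
  have hZm : ∀ x, x ∉ Z → x ∉ Nb → (xat (xN u v) u v x).card ≤ 2 * t := by
    intro x hx hxN
    by_contra hcon
    apply hx
    rw [hZdef]
    exact mem_filter.2 ⟨mem_univ _, not_le.1 hcon, hxN⟩
  have hZN : ∀ x ∈ Z, x ∉ Nb := by
    intro x hx
    rw [hZdef] at hx
    exact (mem_filter.1 hx).2.2
  have hNK : ∀ x, (xat (xN u v) u v x).card ≤ K := fun x =>
    le_trans (Finset.card_le_card (Finset.filter_subset _ _)) (x_NK u v)
  have hflow := hub_flow G u v (W \ Z) (by omega) hdeg (by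
    intro X hX hX3
    refine hc X hX3 ?_
    have h1 : X ∩ W ⊆ Z := by
      intro x hx
      rw [mem_inter] at hx
      by_contra hxZ
      exact Finset.disjoint_left.1 hX hx.1 (mem_sdiff.2 ⟨hx.2, hxZ⟩)
    rw [← htdef]
    exact le_trans (Finset.card_le_card h1) hZt)
  obtain ⟨R, hR⟩ : ∃ R, R = xR G u v := ⟨_, rfl⟩
  rw [← hR] at hflow
  obtain ⟨σ, F, f1, f2, f3, f4⟩ := hflow
  have hne : ∀ i ∈ R, u i ≠ v i := by
    rw [hR]
    exact fun i hi => (mem_filter.1 (mem_sdiff.1 hi).1).2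
  have f1W : ∀ a, σ a ∈ W := fun a => (mem_sdiff.1 (f1 a)).1
  have f1Z : ∀ a, σ a ∉ Z := fun a => (mem_sdiff.1 (f1 a)).2
  obtain ⟨w₀, hw₀⟩ := hW
  obtain ⟨pos, hpos⟩ : ∃ pos : Tk R → {x // x ∈ W}, ∀ a, pos a = ⟨σ a, f1W a⟩ :=
    ⟨_, fun _ => rfl⟩
  obtain ⟨p, hp⟩ : ∃ p : Fin K → {x // x ∈ W}, ∀ i (h : i ∈ R), p i = pos ⟨(i, false), h⟩ :=
    ⟨fun i => if h : i ∈ R then pos ⟨(i, false), h⟩ else ⟨w₀, hw₀⟩, fun i h => dif_pos h⟩
  obtain ⟨q, hq⟩ : ∃ q : Fin K → {x // x ∈ W}, ∀ i (h : i ∈ R), q i = pos ⟨(i, true), h⟩ :=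
    ⟨fun i => if h : i ∈ R then pos ⟨(i, true), h⟩ else ⟨w₀, hw₀⟩, fun i h => dif_pos h⟩
  obtain ⟨U, hU⟩ : ∃ U : Finset (Sym2 {x // x ∈ W}), ∀ e, e ∈ U ↔
      Sym2.map (fun x : {x // x ∈ W} => (x : V)) e ∈ xE G u v ∪ univ.biUnion F :=
    ⟨univ.filter (fun e => Sym2.map (fun x : {x // x ∈ W} => (x : V)) e ∈ xE G u v ∪ univ.biUnion F),
      fun e => by simp⟩
  -- the load
  have hload : ∀ w : {x // x ∈ W}, (w : V) ∉ Z →
      ld R p q U w ≤ (xat (xN u v) u v (w : V)).card + 2 * (oW G W w + t) := by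
    intro w hwZ
    have g1 : us U w ≤ us (xE G u v ∪ univ.biUnion F) (w : V) := by
      unfold us
      refine Finset.card_le_card_of_injOn (fun x : {x // x ∈ W} => (x : V)) ?_ ?_
      · intro x hx
        have h1 := (mem_filter.1 (Finset.mem_coe.1 hx)).2
        rw [hU] at h1
        rw [Finset.mem_coe, mem_filter]
        exact ⟨mem_univ _, h1⟩
      · intro a _ b _ hab
        exact Subtype.ext hab
    have g2 := g_us_union (xE G u v) (univ.biUnion F) (w : V)
    have g3 : us (xE G u v) (w : V) ≤ (xat (xD G u v) u v (w : V)).card :=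
      x_nb (xD G u v) u v (w : V)
    have g4 : us (univ.biUnion F) (w : V) ≤ oW G W w + t := by
      unfold us
      have h1 : univ.filter (fun x => s((w : V), x) ∈ univ.biUnion F) ⊆
          univ.filter (fun y => G.Adj w y ∧ y ∉ W) ∪ Z := by
        intro x hx
        rw [mem_filter, mem_biUnion] at hx
        obtain ⟨_, a, _, hx⟩ := hx
        obtain ⟨h2, _, h3⟩ := f4 a _ hx
        rw [mem_union, mem_filter]
        by_cases hxZ : x ∈ Z
        · exact Or.inr hxZ
        · left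
          refine ⟨mem_univ _, h2, ?_⟩
          intro hxW
          apply h3
          intro z hz
          rw [Sym2.mem_iff] at hz
          rcases hz with rfl | rfl
          · exact mem_sdiff.2 ⟨w.2, hwZ⟩
          · exact mem_sdiff.2 ⟨hxW, hxZ⟩
      have h2 := Finset.card_le_card h1
      have h3 := Finset.card_union_le (univ.filter (fun y => G.Adj w y ∧ y ∉ W)) Z
      unfold oW
      omega
    have g5 := pq_count R pos p q hp hq w
    have g6 : (univ.filter (fun a : Tk R => pos a = w)).card =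
        (univ.filter (fun a : Tk R => σ a = w)).card := by
      congr 1
      ext a
      rw [mem_filter, mem_filter, hpos]
      constructor
      · rintro ⟨h1, h2⟩
        exact ⟨h1, congrArg Subtype.val h2⟩
      · rintro ⟨h1, h2⟩
        exact ⟨h1, Subtype.ext h2⟩
    have g7 := tk_end G R u v σ F f2 f3 (w : V)
    have g8 := tk_xat R u v hne (w : V)
    have g9 := x_split G u v (w : V)
    rw [← hR] at g9
    unfold ld
    omega
  have hdWx : ∀ x ∈ W, K ≤ 2 * dW G W x := by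
    intro x hx
    have h1 : dg G x ≤ dW G W x + oW G W x := by
      unfold dg dW oW
      refine le_trans (Finset.card_le_card ?_) (Finset.card_union_le _ _)
      intro y hy
      rw [mem_filter] at hy
      rw [mem_union, mem_filter, mem_filter]
      by_cases h : y ∈ W
      · exact Or.inl ⟨h, hy.2⟩
      · exact Or.inr ⟨mem_univ _, hy.2, h⟩
    have h2 := ha x hx
    have h3 := hdeg x
    have h4 : oW G W x ≤ E ^ 2 * oW G W x := Nat.le_mul_of_pos_left _ (by omega)
    omega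
  obtain ⟨F', c1, c2, c3⟩ := core E hE {x // x ∈ W} (GW G W) K t
    (univ.filter (fun x : {x // x ∈ W} => (x : V) ∈ Z)) U R p q (by omega)
    (cond_sub G W E hb) (by
      intro x
      rw [dg_sub]
      exact hdWx x x.2) ht3 (by omega) (by
      rw [card_sub W (fun x => x ∈ Z)]
      refine le_trans (Finset.card_le_card ?_) hZt
      intro x hx
      exact (mem_filter.1 hx).2) (by
      intro z hz
      rw [dg_sub]
      have h1 := hZN z (mem_filter.1 hz).2
      rw [hNb] at h1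
      omega) (by
      intro i hi
      rw [hp i hi, hq i hi, hpos, hpos]
      constructor
      · intro h
        exact f1Z _ (mem_filter.1 h).2
      · intro h
        exact f1Z _ (mem_filter.1 h).2) (by
      intro w hw
      have hwZ : (w : V) ∉ Z := fun h => hw (mem_filter.2 ⟨mem_univ _, h⟩)
      have h1 := hload w hwZ
      have h2 := ha w w.2
      have h3 := hdWx w w.2
      rw [dg_sub]
      by_cases hwN : (w : V) ∈ Nb
      · have h4 := hNK (w : V)
        have h5 := (hNb w).1 hwN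
        have h6 : E ^ 2 * (ld R p q U w + t) ≤ E ^ 2 * (K + 2 * oW G W w + 3 * t) :=
          Nat.mul_le_mul_left _ (by omega)
        have h7 : E ^ 2 * (K + 2 * oW G W w + 3 * t) =
            E ^ 2 * K + 2 * (E ^ 2 * oW G W w) + 3 * (E ^ 2 * t) := by ring
        omega
      · have h4 := hZm (w : V) hwZ hwN
        have h6 : E ^ 2 * (ld R p q U w + t) ≤ E ^ 2 * (2 * oW G W w + 5 * t) :=
          Nat.mul_le_mul_left _ (by omega)
        have h7 : E ^ 2 * (2 * oW G W w + 5 * t) =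
            2 * (E ^ 2 * oW G W w) + 5 * (E ^ 2 * t) := by ring
        omega)
  -- the routes
  have hinj : Function.Injective (Sym2.map (fun x : {x // x ∈ W} => (x : V))) :=
    Sym2.map.injective (fun a b h => Subtype.ext h)
  obtain ⟨M, hM⟩ : ∃ M : Fin K → Finset (Sym2 V), ∀ i, M i =
      (F' i).image (Sym2.map (fun x : {x // x ∈ W} => (x : V))) := ⟨_, fun _ => rfl⟩
  have hMU : ∀ i ∈ R, Disjoint (M i) (xE G u v ∪ univ.biUnion F) := by
    intro i hi
    rw [Finset.disjoint_left]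
    intro e he heU
    rw [hM, mem_image] at he
    obtain ⟨e', he', rfl⟩ := he
    exact Finset.disjoint_left.1 (c1 i hi) he' ((hU e').2 heU)
  have hMM : ∀ i ∈ R, ∀ j ∈ R, i ≠ j → Disjoint (M i) (M j) := by
    intro i hi j hj hij
    rw [Finset.disjoint_left]
    intro e he he'
    rw [hM, mem_image] at he he'
    obtain ⟨e1, he1, rfl⟩ := he
    obtain ⟨e2, he2, he3⟩ := he'
    rw [hinj he3] at he2
    exact Finset.disjoint_left.1 (c2 i hi j hj hij) he1 he2
  have hMF : ∀ i ∈ R, ∀ a : Tk R, Disjoint (M i) (F a) := by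
    intro i hi a
    refine Finset.disjoint_of_subset_right ?_ (hMU i hi)
    exact (Finset.subset_biUnion_of_mem F (mem_univ a)).trans subset_union_right
  have hFE : ∀ a : Tk R, Disjoint (F a) (xE G u v) := by
    intro a
    rw [Finset.disjoint_left]
    exact fun e he => (f4 a e he).2.1
  refine lk_asm G K u v (fun i => if h : i ∈ R then
    (F ⟨(i, false), h⟩ ∪ M i) ∪ F ⟨(i, true), h⟩ else ∅) ?_ ?_ ?_
  · intro i hi
    rw [← hR] at hi
    rw [dif_pos hi, Finset.disjoint_union_left, Finset.disjoint_union_left]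
    exact ⟨⟨hFE _, Finset.disjoint_of_subset_right subset_union_left (hMU i hi)⟩, hFE _⟩
  · intro i hi j hj hij
    rw [← hR] at hi hj
    rw [dif_pos hi, dif_pos hj]
    have hne' : ∀ d d' : Bool, (⟨(i, d), hi⟩ : Tk R) ≠ ⟨(j, d'), hj⟩ := by
      intro d d' h
      exact hij (congrArg (fun a : Tk R => a.1.1) h)
    rw [Finset.disjoint_union_left, Finset.disjoint_union_left, Finset.disjoint_union_right,
      Finset.disjoint_union_right, Finset.disjoint_union_right, Finset.disjoint_union_right,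
      Finset.disjoint_union_right, Finset.disjoint_union_right]
    exact ⟨⟨⟨⟨f3 _ _ (hne' _ _), (hMF j hj _).symm⟩, f3 _ _ (hne' _ _)⟩,
      ⟨⟨hMF i hi _, hMM i hi j hj hij⟩, hMF i hi _⟩⟩,
      ⟨⟨f3 _ _ (hne' _ _), (hMF j hj _).symm⟩, f3 _ _ (hne' _ _)⟩⟩
  · intro i hi
    rw [← hR] at hi
    rw [dif_pos hi]
    have h1 := f2 ⟨(i, false), hi⟩
    have h2 := f2 ⟨(i, true), hi⟩
    have h3 := jo_map G W (F' i) (p i) (q i) (c3 i hi)
    rw [← hM, hp i hi, hq i hi, hpos, hpos] at h3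
    exact jo_trans (jo_trans h1 h3) (jo_symm h2)

/-- the hub theorem -/
theorem hub_thm (E : ℕ) (hE : 1 ≤ E) : ∃ C : ℕ, ∀ (V : Type) [Fintype V] [DecidableEq V]
    (G : SimpleGraph V) [DecidableRel G.Adj] (K : ℕ) (W : Finset V), C ≤ K → W.Nonempty →
    (∀ x, K ≤ dg G x) → (∀ x ∈ W, 20000 * (E ^ 2 * oW G W x) ≤ dW G W x) →
    (∀ S ⊆ W, 2 * ∑ x ∈ S, dW G W x ≤ ∑ x ∈ W, dW G W x →
      ∑ x ∈ S, dW G W x ≤ E * ∑ x ∈ S, ((W \ S).filter (fun y => G.Adj x y)).card) →
    ∀ u v : Fin K → V, (∀ X : Finset V, 3 ≤ X.card → (X ∩ W).card ≤ Nat.sqrt K + 1 →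
      ∑ x ∈ X, (xat (xN u v) u v x).card ≤ bd G X) →
    ∃ P : ∀ i, G.Walk (u i) (v i), (∀ i, (P i).IsPath) ∧
      ∀ i j, i ≠ j → ∀ e ∈ (P i).edges, e ∉ (P j).edges :=
  ⟨20000000000000 * E ^ 6, fun V _ _ G _ K W hK hW hdeg ha hb u v hc =>
    hub_exp E hE V G K W hK hW hdeg ha hb u v hc⟩

end Pool.Agent.H71.CN
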