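import Pool.Agent.H71.CN.Rob
import Pool.Agent.H53.GW.MEN
import Pool.Agent.H55.GW.Basic

/-!
# Edge-disjoint paths with bounded load, from Menger's theorem
-/

set_option autoImplicit false

namespace Pool.Agent.H71.CN

open Finset Pool.Agent.H55.GW

section
variable {V I J : Type} [Fintype V] [DecidableEq V] [Fintype I] [DecidableEq I] [Fintype J]
  [DecidableEq J]

/-- vertices of the auxiliary digraph: tokens, slots, edges, sinks -/
abbrev Wt (V I J : Type) (b : V → ℕ) : Type := (I ⊕ (Σ x : V, Fin (b x))) ⊕ (Sym2 V ⊕ J)

/-- a slot -/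
abbrev slot (I J : Type) {b : V → ℕ} (x : V) (k : Fin (b x)) : Wt V I J b :=
  Sum.inl (Sum.inr ⟨x, k⟩)

/-- an edge that may be used -/
def okE (G : SimpleGraph V) (Z : Finset V) (U : Finset (Sym2 V)) (e : Sym2 V) : Prop :=
  e ∈ G.edgeSet ∧ e ∉ U ∧ ∀ z ∈ e, z ∉ Z

/-- the arcs -/
def Dm (G : SimpleGraph V) (Z : Finset V) (U : Finset (Sym2 V)) (b : V → ℕ) (w : I → V)
    (y : J → V) : Wt V I J b → Wt V I J b → Prop
  | Sum.inl (Sum.inl i), Sum.inl (Sum.inr ⟨x, _⟩) => w i = x
  | Sum.inl (Sum.inr ⟨x, _⟩), Sum.inr (Sum.inl e) => x ∈ e ∧ okE G Z U e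
  | Sum.inr (Sum.inl e), Sum.inl (Sum.inr ⟨x, _⟩) => x ∈ e ∧ okE G Z U e
  | Sum.inl (Sum.inr ⟨x, _⟩), Sum.inr (Sum.inr j) => y j = x
  | _, _ => False

/-- slots of `x` -/
def isS {b : V → ℕ} (x : V) : Wt V I J b → Bool
  | Sum.inl (Sum.inr ⟨a, _⟩) => decide (a = x)
  | _ => false

omit [Fintype I] [DecidableEq I] [Fintype J] [DecidableEq J] in
lemma chain_es (G : SimpleGraph V) (Z : Finset V) (U : Finset (Sym2 V)) (b : V → ℕ)
    (w : I → V) (y : J → V) (j : J) : ∀ (n : ℕ) (l : List (Wt V I J b)), l.length ≤ n →
    ∀ (a : V) (k : Fin (b a)), l.head? = some (slot I J a k) →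
    l.IsChain (Dm G Z U b w y) → l.getLast? = some (Sum.inr (Sum.inr j)) →
    ∃ A : Finset (Sym2 V), Jo G A a (y j) ∧
      (∀ e ∈ A, okE G Z U e ∧ (Sum.inr (Sum.inl e) : Wt V I J b) ∈ l) ∧
      ∀ x, us A x + (if a = x then 1 else 0) ≤ 2 * l.countP (isS x) := by
  intro n
  induction n with
  | zero =>
    intro l hl a k h1 _ _
    have : l = [] := List.length_eq_zero_iff.1 (Nat.le_zero.1 hl)
    rw [this] at h1
    simp at h1
  | succ n ih =>
    intro l hl a k h1 h2 h3
    match l, hl, h1, h2, h3 with
    | [], _, h1, _, _ => simp at h1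
    | [z], _, h1, _, h3 =>
      simp only [List.head?_cons, Option.some.injEq] at h1
      simp only [List.getLast?_singleton, Option.some.injEq] at h3
      rw [h1] at h3
      exact absurd h3 (by simp)
    | z :: z' :: rest, hl, h1, h2, h3 =>
      simp only [List.head?_cons, Option.some.injEq] at h1
      subst h1
      rw [List.isChain_cons_cons] at h2
      obtain ⟨hD, h2⟩ := h2
      rw [List.getLast?_cons_cons] at h3
      match z', hD, h2, h3 with
      | Sum.inl (Sum.inl i), hD, _, _ => exact absurd hD (by simp [Dm])
      | Sum.inl (Sum.inr ⟨a', k'⟩), hD, _, _ => exact absurd hD (by simp [Dm])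
      | Sum.inr (Sum.inr j'), hD, h2, h3 =>
        -- the sink
        have hya : y j' = a := hD
        match rest, h2, h3 with
        | [], _, h3 =>
          simp only [List.getLast?_singleton, Option.some.injEq, Sum.inr.injEq] at h3
          subst h3
          refine ⟨∅, by rw [hya]; exact x_jo0 G a, by simp, ?_⟩
          intro x
          have h0 : us (∅ : Finset (Sym2 V)) x = 0 := by simp [us]
          rw [h0]
          by_cases hax : a = x
          · rw [if_pos hax]
            have : List.countP (isS x) [slot I J a k, Sum.inr (Sum.inr j')] = 1 := by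
              simp [isS, hax]
            omega
          · rw [if_neg hax]
            omega
        | z'' :: rest', h2, _ =>
          rw [List.isChain_cons_cons] at h2
          exact absurd h2.1 (by
            rcases z'' with (i | ⟨a', k'⟩) | (e | j'') <;> simp [Dm])
      | Sum.inr (Sum.inl e), hD, h2, h3 =>
        have hae : a ∈ e ∧ okE G Z U e := hD
        match rest, h2, h3 with
        | [], _, h3 =>
          simp at h3
        | z'' :: rest', h2, h3 =>
          rw [List.isChain_cons_cons] at h2
          rw [List.getLast?_cons_cons] at h3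
          obtain ⟨hD', h2⟩ := h2
          match z'', hD', h2, h3 with
          | Sum.inl (Sum.inl i), hD', _, _ => exact absurd hD' (by simp [Dm])
          | Sum.inr (Sum.inl e'), hD', _, _ => exact absurd hD' (by simp [Dm])
          | Sum.inr (Sum.inr j'), hD', _, _ => exact absurd hD' (by simp [Dm])
          | Sum.inl (Sum.inr ⟨a', k'⟩), hD', h2, h3 =>
            have hae' : a' ∈ e ∧ okE G Z U e := hD'
            obtain ⟨A, hA1, hA2, hA3⟩ := ih (slot I J a' k' :: rest') (by
              simp only [List.length_cons] at hl ⊢
              omega) a' k' rfl h2 h3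
            have hcnt : ∀ x, List.countP (isS x) (slot I J a k :: (Sum.inr (Sum.inl e)) ::
                slot I J a' k' :: rest') = (if a = x then 1 else 0) +
                List.countP (isS x) (slot I J a' k' :: rest') := by
              intro x
              rw [List.countP_cons, List.countP_cons]
              by_cases hax : a = x <;> (simp [isS, hax]; try omega)
            by_cases haa : a = a'
            · subst haa
              refine ⟨A, hA1, fun e' he' => ⟨(hA2 e' he').1, ?_⟩, ?_⟩
              · exact List.mem_cons_of_mem _ (List.mem_cons_of_mem _ (hA2 e' he').2)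
              · intro x
                have := hA3 x
                rw [hcnt x]
                omega
            · have he : e = s(a, a') := by
                obtain ⟨c, rfl⟩ := hae.1
                have := hae'.1
                rw [Sym2.mem_iff] at this
                rcases this with h | h
                · exact absurd h.symm haa
                · rw [h]
              have hadj : G.Adj a a' := by
                have := hae.2.1
                rw [he] at this
                exact this
              refine ⟨{e} ∪ A, ?_, ?_, ?_⟩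
              · obtain ⟨wk, hwk⟩ := hA1
                refine ⟨SimpleGraph.Walk.cons hadj wk, ?_⟩
                intro e' he'
                rw [SimpleGraph.Walk.edges_cons, List.mem_cons] at he'
                rcases he' with he' | he'
                · rw [he', ← he]
                  exact mem_union_left _ (mem_singleton_self e)
                · exact mem_union_right _ (hwk e' he')
              · intro e' he'
                rcases mem_union.1 he' with he' | he'
                · rw [mem_singleton] at he'
                  subst he'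
                  exact ⟨hae.2, List.mem_cons_of_mem _ List.mem_cons_self⟩
                · exact ⟨(hA2 e' he').1,
                    List.mem_cons_of_mem _ (List.mem_cons_of_mem _ (hA2 e' he').2)⟩
              · intro x
                have h4 := hA3 x
                have h5 := g_us_union {e} A x
                have h6 := g_us_single a a' x
                rw [← he] at h6
                rw [hcnt x]
                omega

/-- a token -/
abbrev tok {V I J : Type} {b : V → ℕ} (i : I) : Wt V I J b := Sum.inl (Sum.inl i)

/-- a sink -/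
abbrev snk {V I J : Type} {b : V → ℕ} (j : J) : Wt V I J b := Sum.inr (Sum.inr j)

omit [Fintype I] [DecidableEq I] [Fintype J] [DecidableEq J] in
/-- the edges of a directed path from a token to a sink -/
lemma path_es (G : SimpleGraph V) (Z : Finset V) (U : Finset (Sym2 V)) (b : V → ℕ)
    (w : I → V) (y : J → V) (i : I) (j : J) (l : List (Wt V I J b))
    (h : IsPath (Dm G Z U b w y) l (tok i) (snk j)) :
    ∃ A : Finset (Sym2 V), Jo G A (w i) (y j) ∧
      (∀ e ∈ A, okE G Z U e ∧ (Sum.inr (Sum.inl e) : Wt V I J b) ∈ l) ∧
      ∀ x, us A x ≤ 2 * l.countP (isS x) := by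
  obtain ⟨h1, _, h3, h4⟩ := h
  match l, h1, h3, h4 with
  | [], _, h3, _ => simp at h3
  | [z], _, h3, h4 =>
    simp only [List.head?_cons, Option.some.injEq] at h3
    simp only [List.getLast?_singleton, Option.some.injEq] at h4
    rw [h3] at h4
    exact absurd h4 (by simp)
  | z :: z' :: rest, h1, h3, h4 =>
    simp only [List.head?_cons, Option.some.injEq] at h3
    subst h3
    rw [List.isChain_cons_cons] at h1
    obtain ⟨hD, h1⟩ := h1
    rw [List.getLast?_cons_cons] at h4
    match z', hD, h1, h4 with
    | Sum.inl (Sum.inl i'), hD, _, _ => exact absurd hD (by simp [Dm])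
    | Sum.inr (Sum.inl e), hD, _, _ => exact absurd hD (by simp [Dm])
    | Sum.inr (Sum.inr j'), hD, _, _ => exact absurd hD (by simp [Dm])
    | Sum.inl (Sum.inr ⟨a, k⟩), hD, h1, h4 =>
      have hwa : w i = a := hD
      subst hwa
      obtain ⟨A, hA1, hA2, hA3⟩ := chain_es G Z U b w y j _ (slot I J (w i) k :: rest) le_rfl
        (w i) k rfl h1 h4
      refine ⟨A, hA1, fun e he => ⟨(hA2 e he).1, List.mem_cons_of_mem _ (hA2 e he).2⟩, ?_⟩
      intro x
      have h5 := hA3 x
      have h6 : List.countP (isS x) (slot I J (w i) k :: rest) ≤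
          List.countP (isS x) ((tok i : Wt V I J b) :: slot I J (w i) k :: rest) := by
        rw [List.countP_cons (l := slot I J (w i) k :: rest)]
        omega
      refine le_trans (le_trans (Nat.le_add_right _ _) h5) (Nat.mul_le_mul_left 2 h6)

lemma us_biUnion {ι : Type} [DecidableEq ι] (S : Finset ι) (F : ι → Finset (Sym2 V)) (x : V) :
    us (S.biUnion F) x ≤ ∑ i ∈ S, us (F i) x := by
  unfold us
  refine le_trans (Finset.card_le_card ?_) Finset.card_biUnion_le
  intro z hz
  rw [mem_filter, mem_biUnion] at hz
  obtain ⟨_, i, hi, hz⟩ := hz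
  rw [mem_biUnion]
  exact ⟨i, hi, mem_filter.2 ⟨mem_univ _, hz⟩⟩

/-- edge-disjoint paths with bounded load -/
theorem men_paths (G : SimpleGraph V) (Z : Finset V) (U : Finset (Sym2 V)) (b : V → ℕ)
    (w : I → V) (y : J → V)
    (hsep : ∀ S : Finset (Wt V I J b),
      (∀ i j, ¬ RIn (Dm G Z U b w y) ((S : Set (Wt V I J b))ᶜ) (tok i) (snk j)) →
      Fintype.card I ≤ S.card) :
    ∃ (σ : I → J) (F : I → Finset (Sym2 V)), Function.Injective σ ∧
      (∀ i, Jo G (F i) (w i) (y (σ i))) ∧ (∀ i j, i ≠ j → Disjoint (F i) (F j)) ∧
      (∀ i, ∀ e ∈ F i, okE G Z U e) ∧ ∀ x, us (univ.biUnion F) x ≤ 2 * b x := by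
  classical
  have hL : Lnk (Dm G Z U b w y) (Fintype.card I) (Set.range (tok (V := V) (J := J) (b := b)))
      (Set.range (snk (V := V) (I := I) (b := b))) := by
    refine Pool.Agent.H53.GW.men _ (Dm G Z U b w y) Set.univ Set.finite_univ
      (fun _ _ _ => ⟨trivial, trivial⟩) _ _ (Set.subset_univ _) (Set.subset_univ _) _
      (fun S hS => hsep S ?_)
    intro i j hij
    exact hS _ ⟨i, rfl⟩ _ ⟨j, rfl⟩ hij
  obtain ⟨x, y', S, h1, h2⟩ := hL
  choose f hf using fun i => (h1 i).1
  choose g hg using fun i => (h1 i).2.1
  have hfi : Function.Injective f := by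
    intro i j hij
    by_contra hne
    have e : x i = x j := by rw [← hf i, ← hf j, hij]
    exact Set.disjoint_left.1 (h2 i j hne) (h1 i).2.2.1 (by rw [e]; exact (h1 j).2.2.1)
  have hgi : Function.Injective g := by
    intro i j hij
    by_contra hne
    have e : y' i = y' j := by rw [← hg i, ← hg j, hij]
    exact Set.disjoint_left.1 (h2 i j hne) ((h1 i).2.2.right_mem)
      (by rw [e]; exact (h1 j).2.2.right_mem)
  have hfb : Function.Bijective f :=
    (Fintype.bijective_iff_injective_and_card f).2 ⟨hfi, by rw [Fintype.card_fin]⟩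
  obtain ⟨e, he⟩ : ∃ e : Fin (Fintype.card I) ≃ I, ∀ i, e i = f i :=
    ⟨Equiv.ofBijective f hfb, fun i => rfl⟩
  choose l hl using fun i => (h1 i).2.2.exists_path
  have hpath : ∀ i, IsPath (Dm G Z U b w y) (l i) (tok (f i)) (snk (g i)) := by
    intro i
    rw [hf i, hg i]
    exact (hl i).1
  choose A hA1 hA2 hA3 using fun i => path_es G Z U b w y (f i) (g i) (l i) (hpath i)
  have hfe : ∀ i, f (e.symm i) = i := by
    intro i
    rw [← he, e.apply_symm_apply]
  refine ⟨fun i => g (e.symm i), fun i => A (e.symm i), ?_, ?_, ?_, ?_, ?_⟩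
  · intro i j hij
    exact e.symm.injective (hgi hij)
  · intro i
    have := hA1 (e.symm i)
    rw [hfe] at this
    exact this
  · intro i j hij
    rw [Finset.disjoint_left]
    intro a ha ha'
    have h3 := (hl (e.symm i)).2 _ (hA2 _ a ha).2
    have h4 := (hl (e.symm j)).2 _ (hA2 _ a ha').2
    exact Set.disjoint_left.1 (h2 _ _ (fun h => hij (e.symm.injective h))) h3 h4
  · intro i a ha
    exact (hA2 _ a ha).1
  · intro z
    have h3 := us_biUnion univ (fun i => A (e.symm i)) z
    have h4 : ∑ i, us (A (e.symm i)) z ≤ ∑ i, 2 * (l (e.symm i)).countP (isS z) :=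
      Finset.sum_le_sum (fun i _ => hA3 (e.symm i) z)
    have h5 : ∑ i, 2 * (l (e.symm i)).countP (isS z) =
        2 * ∑ i, (l (e.symm i)).countP (isS z) := by rw [Finset.mul_sum]
    have h6 : ∑ i : I, (l (e.symm i)).countP (isS z) ≤ b z := by
      have h7 : ∀ i : I, (l (e.symm i)).countP (isS z) =
          (((l (e.symm i)).toFinset).filter (fun v => isS z v = true)).card := by
        intro i
        rw [List.countP_eq_length_filter, ← List.toFinset_filter,
          List.toFinset_card_of_nodup]
        exact (hl _).1.2.1.filter _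
      rw [Finset.sum_congr rfl (fun i _ => h7 i), ← Finset.card_biUnion]
      · have h8 : (univ.biUnion fun i : I => ((l (e.symm i)).toFinset).filter
            (fun v => isS z v = true)) ⊆
            (univ : Finset (Fin (b z))).image (fun k => slot I J z k) := by
          intro v hv
          rw [mem_biUnion] at hv
          obtain ⟨i, _, hv⟩ := hv
          have hv2 := (mem_filter.1 hv).2
          rcases v with (i' | ⟨a, k⟩) | (e' | j')
          · simp [isS] at hv2
          · simp only [isS, decide_eq_true_eq] at hv2
            subst hv2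
            exact mem_image.2 ⟨k, mem_univ _, rfl⟩
          · simp [isS] at hv2
          · simp [isS] at hv2
        refine le_trans (Finset.card_le_card h8) (le_trans Finset.card_image_le ?_)
        rw [Finset.card_univ, Fintype.card_fin]
      · intro i _ j _ hij
        rw [Function.onFun, Finset.disjoint_left]
        intro v hv hv'
        have h9 := (hl (e.symm i)).2 v (List.mem_toFinset.1 (mem_filter.1 hv).1)
        have h10 := (hl (e.symm j)).2 v (List.mem_toFinset.1 (mem_filter.1 hv').1)
        exact Set.disjoint_left.1 (h2 _ _ (fun h => hij (e.symm.injective h))) h9 h10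
    omega

end

end Pool.Agent.H71.CN
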