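import Pool.Agent.H71.CN.Defs

/-!
# Weak linkage in graphs with many common neighbours: the exits
-/

set_option autoImplicit false

namespace Pool.Agent.H71.CN

open Finset

section
variable {V : Type} [Fintype V] [DecidableEq V]

/-- the demands of `M` at `x` -/
def xat {I : Type} [DecidableEq I] (M : Finset I) (u v : I → V) (x : V) : Finset I :=
  M.filter (fun i => u i = x ∨ v i = x)

omit [Fintype V] in
lemma x_cnt {I : Type} [DecidableEq I] (S : Finset V) (M : Finset I) (u v : I → V) :
    ∑ x ∈ S, (xat M u v x).card ≤ 2 * M.card := by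
  unfold xat
  simp only [Finset.card_filter]
  rw [Finset.sum_comm, mul_comm, ← smul_eq_mul]
  refine Finset.sum_le_card_nsmul _ _ _ ?_
  intro i _
  rw [← Finset.card_filter]
  have : S.filter (fun x => u i = x ∨ v i = x) ⊆ {u i, v i} := by
    intro x hx
    rw [mem_filter] at hx
    rw [mem_insert, mem_singleton]
    rcases hx.2 with h | h
    · exact Or.inl h.symm
    · exact Or.inr h.symm
  exact le_trans (Finset.card_le_card this) Finset.card_le_two

lemma x_nb {I : Type} [DecidableEq I] (M : Finset I) (u v : I → V) (x : V) :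
    us (M.image (fun j => s(u j, v j))) x ≤ (xat M u v x).card := by
  unfold us xat
  refine le_trans (Finset.card_le_card ?_) (Finset.card_image_le
    (f := fun j => if u j = x then v j else u j))
  intro y hy
  rw [mem_filter, mem_image] at hy
  obtain ⟨_, j, hj, hjy⟩ := hy
  rw [mem_image]
  rw [Sym2.eq_iff] at hjy
  rcases hjy with ⟨h1, h2⟩ | ⟨h1, h2⟩
  · exact ⟨j, mem_filter.2 ⟨hj, Or.inl h1⟩, by rw [if_pos h1, h2]⟩
  · refine ⟨j, mem_filter.2 ⟨hj, Or.inr h2⟩, ?_⟩
    by_cases h : u j = x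
    · rw [if_pos h, h2, ← h1, h]
    · rw [if_neg h, h1]

lemma x_inj {α β : Type} [DecidableEq α] (S : Finset α) (T : Finset β) (b : β)
    (h : S.card ≤ T.card) : ∃ f : α → β, (∀ a ∈ S, f a ∈ T) ∧
      ∀ a ∈ S, ∀ a' ∈ S, f a = f a' → a = a' := by
  classical
  have h' : Fintype.card S ≤ Fintype.card T := by simpa using h
  obtain ⟨g⟩ := Function.Embedding.nonempty_of_card_le h'
  refine ⟨fun a => if ha : a ∈ S then (g ⟨a, ha⟩ : β) else b, ?_, ?_⟩
  · intro a ha
    beta_reduce
    rw [dif_pos ha]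
    exact (g ⟨a, ha⟩).2
  · intro a ha a' ha' haa
    beta_reduce at haa
    rw [dif_pos ha, dif_pos ha'] at haa
    have := g.injective (Subtype.ext haa)
    exact congrArg Subtype.val this

/-- the nontrivial demands -/
def xN {K : ℕ} (u v : Fin K → V) : Finset (Fin K) := univ.filter (fun i => u i ≠ v i)

/-- the demands joined directly by their edge -/
def xD {K : ℕ} (G : SimpleGraph V) [DecidableRel G.Adj] (u v : Fin K → V) : Finset (Fin K) :=
  (xN u v).filter (fun i => G.Adj (u i) (v i) ∧ ∀ j, j < i → s(u j, v j) ≠ s(u i, v i))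

/-- the other nontrivial demands -/
def xR {K : ℕ} (G : SimpleGraph V) [DecidableRel G.Adj] (u v : Fin K → V) : Finset (Fin K) :=
  xN u v \ xD G u v

/-- the heavy vertices outside `N` -/
def xZ {K : ℕ} (t : ℕ) (N : Finset V) (u v : Fin K → V) : Finset V :=
  univ.filter (fun x => 2 * t < (xat (xN u v) u v x).card ∧ x ∉ N)

/-- the edges used directly -/
def xE {K : ℕ} (G : SimpleGraph V) [DecidableRel G.Adj] (u v : Fin K → V) :
    Finset (Sym2 V) := (xD G u v).image (fun j => s(u j, v j))

/-- the available exits at `x` -/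
def xA {K : ℕ} (G : SimpleGraph V) [DecidableRel G.Adj] (t : ℕ) (N : Finset V)
    (u v : Fin K → V) (x : V) :
    Finset V := univ.filter (fun y => G.Adj x y ∧ y ∉ xZ t N u v ∧ s(x, y) ∉ xE G u v)

omit [Fintype V] in
lemma x_first {K : ℕ} (G : SimpleGraph V) [DecidableRel G.Adj] (u v : Fin K → V) (i : Fin K)
    (h : G.Adj (u i) (v i)) : s(u i, v i) ∈ xE G u v := by
  have hne : (univ.filter (fun j => s(u j, v j) = s(u i, v i))).Nonempty :=
    ⟨i, mem_filter.2 ⟨mem_univ _, rfl⟩⟩
  set j := (univ.filter (fun j => s(u j, v j) = s(u i, v i))).min' hne with hj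
  have hj1 : s(u j, v j) = s(u i, v i) := (mem_filter.1 (Finset.min'_mem _ hne)).2
  have hadj : G.Adj (u j) (v j) := by
    rw [← SimpleGraph.mem_edgeSet, hj1, SimpleGraph.mem_edgeSet]
    exact h
  unfold xE xD xN
  rw [mem_image]
  refine ⟨j, ?_, hj1⟩
  rw [mem_filter, mem_filter]
  refine ⟨⟨mem_univ _, G.ne_of_adj hadj⟩, hadj, ?_⟩
  intro k hk hk'
  have : j ≤ k := Finset.min'_le (univ.filter (fun j => s(u j, v j) = s(u i, v i))) k
    (mem_filter.2 ⟨mem_univ _, hk'.trans hj1⟩)
  exact absurd hk (not_lt.2 this)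

omit [Fintype V] in
lemma x_split {K : ℕ} (G : SimpleGraph V) [DecidableRel G.Adj] (u v : Fin K → V) (x : V) :
    (xat (xD G u v) u v x).card + (xat (xR G u v) u v x).card =
      (xat (xN u v) u v x).card := by
  have h1 : xat (xN u v) u v x = xat (xD G u v) u v x ∪ xat (xR G u v) u v x := by
    unfold xat xR
    rw [← Finset.filter_union, Finset.union_sdiff_of_subset]
    exact Finset.filter_subset _ _
  rw [h1, Finset.card_union_of_disjoint]
  refine Finset.disjoint_of_subset_left (Finset.filter_subset _ _) ?_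
  refine Finset.disjoint_of_subset_right (Finset.filter_subset _ _) ?_
  exact Finset.disjoint_sdiff

omit [Fintype V] in
lemma x_NK {K : ℕ} (u v : Fin K → V) : (xN u v).card ≤ K := by
  have := Finset.card_le_univ (xN u v)
  rwa [Fintype.card_fin] at this

lemma x_Z {K : ℕ} (t : ℕ) (N : Finset V) (u v : Fin K → V) (hK : K ≤ t ^ 2) :
    (xZ t N u v).card ≤ t := by
  have h1 := x_cnt (xZ t N u v) (xN u v) u v
  have h2 : (xZ t N u v).card * (2 * t + 1) ≤
      ∑ x ∈ xZ t N u v, (xat (xN u v) u v x).card := by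
    rw [← smul_eq_mul]
    refine Finset.card_nsmul_le_sum _ _ _ ?_
    intro x hx
    have := (mem_filter.1 hx).2.1
    omega
  have h3 := x_NK u v
  by_contra hc
  have h4 : t + 1 ≤ (xZ t N u v).card := by omega
  have h5 : (t + 1) * (2 * t + 1) ≤ (xZ t N u v).card * (2 * t + 1) :=
    Nat.mul_le_mul_right _ h4
  nlinarith

lemma x_avail {K : ℕ} (G : SimpleGraph V) [DecidableRel G.Adj] (t : ℕ) (N : Finset V)
    (ht : 1 ≤ t) (u v : Fin K → V) (x : V) (hdeg : K ≤ (univ.filter (fun y => G.Adj x y)).card) :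
    (xat (xR G u v) u v x).card ≤ (xA G t N u v x).card := by
  classical
  set D2 : Finset V := univ.filter (fun y => G.Adj x y ∧ y ∈ xZ t N u v ∧ s(x, y) ∉ xE G u v)
    with hD2
  have hcov : univ.filter (fun y => G.Adj x y) ⊆
      (xA G t N u v x ∪ univ.filter (fun y => s(x, y) ∈ xE G u v)) ∪ D2 := by
    intro y hy
    rw [mem_filter] at hy
    by_cases h1 : s(x, y) ∈ xE G u v
    · exact mem_union_left _ (mem_union_right _ (mem_filter.2 ⟨mem_univ _, h1⟩))
    · by_cases h2 : y ∈ xZ t N u v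
      · exact mem_union_right _ (mem_filter.2 ⟨mem_univ _, hy.2, h2, h1⟩)
      · exact mem_union_left _ (mem_union_left _ (mem_filter.2 ⟨mem_univ _, hy.2, h2, h1⟩))
  have h1 := Finset.card_le_card hcov
  have h2 := Finset.card_union_le (xA G t N u v x ∪ univ.filter (fun y => s(x, y) ∈ xE G u v)) D2
  have h3 := Finset.card_union_le (xA G t N u v x) (univ.filter (fun y => s(x, y) ∈ xE G u v))
  have h4 : (univ.filter (fun y => s(x, y) ∈ xE G u v)).card ≤
      (xat (xD G u v) u v x).card := x_nb (xD G u v) u v x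
  have h5 := x_split G u v x
  -- the heavy neighbours
  set M : Finset (Fin K) := xN u v \ xat (xN u v) u v x with hM
  have h6 : M.card + (xat (xN u v) u v x).card = (xN u v).card :=
    Finset.card_sdiff_add_card_eq_card (Finset.filter_subset _ _)
  have h7 := x_NK u v
  have h8 : ∀ y ∈ D2, (xat (xN u v) u v y).card ≤ (xat M u v y).card := by
    intro y hy
    rw [hD2, mem_filter] at hy
    obtain ⟨_, hxy, _, hne⟩ := hy
    refine Finset.card_le_card ?_
    intro i hi
    unfold xat at hi ⊢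
    rw [mem_filter] at hi ⊢
    refine ⟨?_, hi.2⟩
    rw [hM, mem_sdiff]
    refine ⟨hi.1, ?_⟩
    intro hi'
    unfold xat at hi'
    rw [mem_filter] at hi'
    have hxyne : x ≠ y := G.ne_of_adj hxy
    have hs : s(u i, v i) = s(x, y) := by
      rw [Sym2.eq_iff]
      rcases hi.2 with a | a <;> rcases hi'.2 with b | b
      · exact absurd (b.symm.trans a) hxyne
      · exact Or.inr ⟨a, b⟩
      · exact Or.inl ⟨b, a⟩
      · exact absurd (b.symm.trans a) hxyne
    have hadj : G.Adj (u i) (v i) := by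
      rw [← SimpleGraph.mem_edgeSet, hs, SimpleGraph.mem_edgeSet]
      exact hxy
    apply hne
    rw [← hs]
    exact x_first G u v i hadj
  have h9 : D2.card * (2 * t + 1) ≤ ∑ y ∈ D2, (xat M u v y).card := by
    rw [← smul_eq_mul]
    refine Finset.card_nsmul_le_sum _ _ _ ?_
    intro y hy
    have e1 := h8 y hy
    have e2 : 2 * t < (xat (xN u v) u v y).card :=
      (mem_filter.1 ((mem_filter.1 hy).2.2.1)).2.1
    omega
  have h10 := x_cnt D2 M u v
  have h11 : D2.card * 2 ≤ D2.card * (2 * t + 1) := Nat.mul_le_mul_left _ (by omega)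
  omega

omit [Fintype V] in
lemma x_us_union' [Fintype V] (A B : Finset (Sym2 V)) (w : V) :
    us (A ∪ B) w ≤ us A w + us B w := by
  unfold us
  refine le_trans (Finset.card_le_card ?_) (Finset.card_union_le _ _)
  intro x hx
  simp only [mem_filter, mem_univ, true_and, mem_union] at hx ⊢
  exact hx

/-- the end of the demand -/
def xe {K : ℕ} (u v : Fin K → V) (a : Fin K × Bool) : V := if a.2 = true then v a.1 else u a.1

omit [Fintype V] in
lemma x_E {K : ℕ} (G : SimpleGraph V) [DecidableRel G.Adj] (u v : Fin K → V) (x : V) :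
    (univ.filter (fun a : Fin K × Bool => a.1 ∈ xR G u v ∧ xe u v a = x)).card ≤
      (xat (xR G u v) u v x).card := by
  refine Finset.card_le_card_of_injOn Prod.fst ?_ ?_
  · intro a ha
    have ha' := (mem_filter.1 (Finset.mem_coe.1 ha)).2
    apply Finset.mem_coe.2
    unfold xat
    rw [mem_filter]
    refine ⟨ha'.1, ?_⟩
    have h2 := ha'.2
    unfold xe at h2
    split_ifs at h2
    · exact Or.inr h2
    · exact Or.inl h2
  · intro a ha b hb hab
    have ha' := (mem_filter.1 (Finset.mem_coe.1 ha)).2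
    have hb' := (mem_filter.1 (Finset.mem_coe.1 hb)).2
    have hne : u a.1 ≠ v a.1 := by
      have h := ha'.1
      unfold xR xN at h
      exact (mem_filter.1 (mem_sdiff.1 h).1).2
    have h1 := ha'.2
    have h2 := hb'.2
    unfold xe at h1 h2
    obtain ⟨a1, a2⟩ := a
    obtain ⟨b1, b2⟩ := b
    simp only at hab h1 h2 hne
    subst hab
    cases a2 <;> cases b2
    · rfl
    · simp only [Bool.false_eq_true, if_false, if_true] at h1 h2
      exact absurd (h1.trans h2.symm) hne
    · simp only [Bool.false_eq_true, if_false, if_true] at h1 h2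
      exact absurd (h2.trans h1.symm) hne
    · rfl

omit [Fintype V] [DecidableEq V] in
lemma x_jo0 (G : SimpleGraph V) (a : V) : Jo G ∅ a a :=
  ⟨SimpleGraph.Walk.nil, by simp⟩

omit [Fintype V] [DecidableEq V] in
lemma x_jo1 (G : SimpleGraph V) (a b : V) (h : G.Adj a b) : Jo G {s(a, b)} a b :=
  ⟨SimpleGraph.Walk.cons h SimpleGraph.Walk.nil, by simp⟩

omit [Fintype V] [DecidableEq V] in
lemma x_jo2 (G : SimpleGraph V) (a b : V) (h : G.Adj a b) : Jo G {s(a, b)} b a :=
  ⟨SimpleGraph.Walk.cons h.symm SimpleGraph.Walk.nil, by simp [Sym2.eq_swap]⟩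

/-- **exits**: adjacent pairs get their edge once, the ends at heavy vertices outside `N` are
moved to different neighbours -/
theorem exits (G : SimpleGraph V) [DecidableRel G.Adj] (K t : ℕ) (N : Finset V)
    (u v : Fin K → V) (ht : 1 ≤ t) (hK : K ≤ t ^ 2)
    (hdeg : ∀ x, K ≤ (univ.filter (fun y => G.Adj x y)).card) :
    ∃ (Z : Finset V) (dir R : Finset (Fin K)) (p q : Fin K → V)
    (Xp Xq : Fin K → Finset (Sym2 V)),
    Z.card ≤ t ∧ (∀ i, u i ≠ v i → i ∈ dir ∨ i ∈ R) ∧ Disjoint dir R ∧
    (∀ i ∈ dir, G.Adj (u i) (v i)) ∧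
    (∀ i ∈ dir, ∀ j ∈ dir, i ≠ j → s(u i, v i) ≠ s(u j, v j)) ∧
    (∀ i ∈ R, p i ∉ Z ∧ q i ∉ Z) ∧
    (∀ i ∈ R, Jo G (Xp i) (u i) (p i) ∧ Jo G (Xq i) (q i) (v i)) ∧
    (∀ i ∈ R, Disjoint (Xp i) (Xq i)) ∧
    (∀ i ∈ R, ∀ j ∈ R, i ≠ j → Disjoint (Xp i ∪ Xq i) (Xp j ∪ Xq j)) ∧
    (∀ i ∈ R, ∀ j ∈ dir, s(u j, v j) ∉ Xp i ∧ s(u j, v j) ∉ Xq i) ∧
    (∀ x ∈ N, x ∉ Z) ∧
    ∀ w, w ∉ Z → us ((dir.image (fun j => s(u j, v j))) ∪ R.biUnion (fun i => Xp i ∪ Xq i)) w +
      (R.filter (fun i => p i = w)).card + (R.filter (fun i => q i = w)).card ≤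
        (if w ∈ N then K else 2 * t) + 2 * t := by
  have hZ := x_Z t N u v hK
  have hex : ∀ x : V, ∃ f : Fin K × Bool → V,
      (∀ a ∈ univ.filter (fun a : Fin K × Bool => a.1 ∈ xR G u v ∧ xe u v a = x),
        f a ∈ xA G t N u v x) ∧
      ∀ a ∈ univ.filter (fun a : Fin K × Bool => a.1 ∈ xR G u v ∧ xe u v a = x),
      ∀ a' ∈ univ.filter (fun a : Fin K × Bool => a.1 ∈ xR G u v ∧ xe u v a = x),
        f a = f a' → a = a' := fun x =>
    x_inj _ _ x (le_trans (x_E G u v x) (x_avail G t N ht u v x (hdeg x)))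
  choose f hf1 hf2 using hex
  -- the exit
  have hfA : ∀ a : Fin K × Bool, a.1 ∈ xR G u v →
      G.Adj (xe u v a) (f (xe u v a) a) ∧ f (xe u v a) a ∉ xZ t N u v ∧
        s(xe u v a, f (xe u v a) a) ∉ xE G u v := fun a ha =>
    (mem_filter.1 (hf1 (xe u v a) a (mem_filter.2 ⟨mem_univ _, ha, rfl⟩))).2
  have hfI : ∀ a b : Fin K × Bool, a.1 ∈ xR G u v → b.1 ∈ xR G u v →
      xe u v a = xe u v b → f (xe u v a) a = f (xe u v b) b → a = b := by
    intro a b ha hb h1 h2
    refine hf2 (xe u v b) a (mem_filter.2 ⟨mem_univ _, ha, h1⟩) b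
      (mem_filter.2 ⟨mem_univ _, hb, rfl⟩) ?_
    rw [← h2, h1]
  obtain ⟨pos, hpos⟩ : ∃ pos : Fin K × Bool → V, ∀ a, pos a =
      if xe u v a ∈ xZ t N u v then f (xe u v a) a else xe u v a := ⟨_, fun _ => rfl⟩
  obtain ⟨X, hX⟩ : ∃ X : Fin K × Bool → Finset (Sym2 V), ∀ a, X a =
      if xe u v a ∈ xZ t N u v then {s(xe u v a, f (xe u v a) a)} else ∅ := ⟨_, fun _ => rfl⟩
  have hXm : ∀ a e, e ∈ X a → xe u v a ∈ xZ t N u v ∧ e = s(xe u v a, f (xe u v a) a) := by
    intro a e he
    rw [hX] at he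
    split_ifs at he with h
    · exact ⟨h, mem_singleton.1 he⟩
    · exact absurd he (Finset.notMem_empty _)
  have hposZ : ∀ a : Fin K × Bool, a.1 ∈ xR G u v → pos a ∉ xZ t N u v := by
    intro a ha
    rw [hpos]
    split_ifs with h
    · exact (hfA a ha).2.1
    · exact h
  have hdis : ∀ a b : Fin K × Bool, a.1 ∈ xR G u v → b.1 ∈ xR G u v → a ≠ b →
      Disjoint (X a) (X b) := by
    intro a b ha hb hab
    rw [Finset.disjoint_left]
    intro e he he'
    obtain ⟨h1, h2⟩ := hXm a e he
    obtain ⟨h3, h4⟩ := hXm b e he'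
    rw [h2, Sym2.eq_iff] at h4
    rcases h4 with ⟨h5, h6⟩ | ⟨h5, h6⟩
    · exact hab (hfI a b ha hb h5 h6)
    · rw [h5] at h1
      exact (hfA b hb).2.1 h1
  have hE : ∀ a : Fin K × Bool, a.1 ∈ xR G u v → ∀ e ∈ X a, e ∉ xE G u v := by
    intro a ha e he
    obtain ⟨_, h2⟩ := hXm a e he
    rw [h2]
    exact (hfA a ha).2.2
  have hdRD : Disjoint (xD G u v) (xR G u v) := Finset.disjoint_sdiff
  refine ⟨xZ t N u v, xD G u v, xR G u v, fun i => pos (i, false), fun i => pos (i, true),
    fun i => X (i, false), fun i => X (i, true), hZ, ?_, hdRD, ?_, ?_, ?_, ?_, ?_, ?_, ?_,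
    fun x hx hxZ => (mem_filter.1 hxZ).2.2 hx, ?_⟩
  · intro i hi
    by_cases h : i ∈ xD G u v
    · exact Or.inl h
    · exact Or.inr (mem_sdiff.2 ⟨mem_filter.2 ⟨mem_univ _, hi⟩, h⟩)
  · intro i hi
    exact (mem_filter.1 hi).2.1
  · intro i hi j hj hij
    rcases lt_or_gt_of_ne hij with h | h
    · exact (mem_filter.1 hj).2.2 i h
    · exact fun h' => (mem_filter.1 hi).2.2 j h h'.symm
  · intro i hi
    exact ⟨hposZ (i, false) hi, hposZ (i, true) hi⟩
  · intro i hi
    constructor
    · beta_reduce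
      rw [hX, hpos]
      by_cases h : xe u v (i, false) ∈ xZ t N u v
      · rw [if_pos h, if_pos h]
        exact x_jo1 G _ _ (hfA (i, false) hi).1
      · rw [if_neg h, if_neg h]
        exact x_jo0 G _
    · beta_reduce
      rw [hX, hpos]
      by_cases h : xe u v (i, true) ∈ xZ t N u v
      · rw [if_pos h, if_pos h]
        exact x_jo2 G _ _ (hfA (i, true) hi).1
      · rw [if_neg h, if_neg h]
        exact x_jo0 G _
  · intro i hi
    exact hdis (i, false) (i, true) hi hi (by simp)
  · intro i hi j hj hij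
    have hne : ∀ b c : Bool, (i, b) ≠ (j, c) := fun b c h => hij (congrArg Prod.fst h)
    rw [Finset.disjoint_union_left, Finset.disjoint_union_right, Finset.disjoint_union_right]
    exact ⟨⟨hdis _ _ hi hj (hne _ _), hdis _ _ hi hj (hne _ _)⟩,
      ⟨hdis _ _ hi hj (hne _ _), hdis _ _ hi hj (hne _ _)⟩⟩
  · intro i hi j hj
    have hjE : s(u j, v j) ∈ xE G u v := mem_image.2 ⟨j, hj, rfl⟩
    exact ⟨fun h => hE (i, false) hi _ h hjE, fun h => hE (i, true) hi _ h hjE⟩
  · intro w hw
    have e1 := x_us_union' (image (fun j => s(u j, v j)) (xD G u v))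
      ((xR G u v).biUnion (fun i => X (i, false) ∪ X (i, true))) w
    have e2 := x_nb (xD G u v) u v w
    have e3 := x_split G u v w
    have e4 : (xat (xN u v) u v w).card ≤ if w ∈ N then K else 2 * t := by
      split_ifs with hwN
      · exact le_trans (Finset.card_le_card (Finset.filter_subset _ _)) (x_NK u v)
      · by_contra h
        exact hw (mem_filter.2 ⟨mem_univ _, not_le.1 h, hwN⟩)
    have e5 : us ((xR G u v).biUnion (fun i => X (i, false) ∪ X (i, true))) w ≤
        (xZ t N u v).card := by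
      unfold us
      refine Finset.card_le_card ?_
      intro x hx
      rw [mem_filter, mem_biUnion] at hx
      obtain ⟨_, i, hi, hx⟩ := hx
      have key : ∀ b : Bool, s(w, x) ∈ X (i, b) → x ∈ xZ t N u v := by
        intro b hb
        obtain ⟨h1, h2⟩ := hXm (i, b) _ hb
        rw [Sym2.eq_iff] at h2
        rcases h2 with ⟨h3, _⟩ | ⟨_, h4⟩
        · rw [← h3] at h1
          exact absurd h1 hw
        · rw [h4]; exact h1
      rcases mem_union.1 hx with h | h
      · exact key _ h
      · exact key _ h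
    have e6 : ((xR G u v).filter (fun i => pos (i, false) = w)).card +
        ((xR G u v).filter (fun i => pos (i, true) = w)).card ≤
        (univ.filter (fun a : Fin K × Bool => a.1 ∈ xR G u v ∧ pos a = w)).card := by
      have i1 : ((xR G u v).filter (fun i => pos (i, false) = w)).card =
          (((xR G u v).filter (fun i => pos (i, false) = w)).image
            (fun i => (i, false))).card := by
        rw [Finset.card_image_of_injective]
        intro a b h
        exact congrArg Prod.fst h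
      have i2 : ((xR G u v).filter (fun i => pos (i, true) = w)).card =
          (((xR G u v).filter (fun i => pos (i, true) = w)).image
            (fun i => (i, true))).card := by
        rw [Finset.card_image_of_injective]
        intro a b h
        exact congrArg Prod.fst h
      rw [i1, i2, ← Finset.card_union_of_disjoint]
      · refine Finset.card_le_card ?_
        intro a ha
        rw [mem_union, mem_image, mem_image] at ha
        rw [mem_filter]
        rcases ha with ⟨i, hi, rfl⟩ | ⟨i, hi, rfl⟩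
        · exact ⟨mem_univ _, (mem_filter.1 hi).1, (mem_filter.1 hi).2⟩
        · exact ⟨mem_univ _, (mem_filter.1 hi).1, (mem_filter.1 hi).2⟩
      · rw [Finset.disjoint_left]
        intro a ha ha'
        rw [mem_image] at ha ha'
        obtain ⟨i, _, h1⟩ := ha
        obtain ⟨j, _, h2⟩ := ha'
        rw [← h1] at h2
        exact absurd (congrArg Prod.snd h2) (by simp)
    have e7 : (univ.filter (fun a : Fin K × Bool => a.1 ∈ xR G u v ∧ pos a = w)).card ≤
        (xat (xR G u v) u v w).card + (xZ t N u v).card := by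
      have j1 : univ.filter (fun a : Fin K × Bool => a.1 ∈ xR G u v ∧ pos a = w) ⊆
          univ.filter (fun a : Fin K × Bool => a.1 ∈ xR G u v ∧ xe u v a = w) ∪
          univ.filter (fun a : Fin K × Bool => a.1 ∈ xR G u v ∧ xe u v a ∈ xZ t N u v ∧
            f (xe u v a) a = w) := by
        intro a ha
        obtain ⟨_, ha1, ha2⟩ := mem_filter.1 ha
        rw [hpos] at ha2
        split_ifs at ha2 with h
        · exact mem_union_right _ (mem_filter.2 ⟨mem_univ _, ha1, h, ha2⟩)
        · exact mem_union_left _ (mem_filter.2 ⟨mem_univ _, ha1, ha2⟩)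
      have j2 : (univ.filter (fun a : Fin K × Bool => a.1 ∈ xR G u v ∧
          xe u v a ∈ xZ t N u v ∧ f (xe u v a) a = w)).card ≤ (xZ t N u v).card := by
        refine Finset.card_le_card_of_injOn (xe u v) ?_ ?_
        · intro a ha
          exact Finset.mem_coe.2 (mem_filter.1 (Finset.mem_coe.1 ha)).2.2.1
        · intro a ha b hb hab
          have ha' := (mem_filter.1 (Finset.mem_coe.1 ha)).2
          have hb' := (mem_filter.1 (Finset.mem_coe.1 hb)).2
          exact hfI a b ha'.1 hb'.1 hab (ha'.2.2.trans hb'.2.2.symm)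
      have j3 := x_E G u v w
      exact le_trans (Finset.card_le_card j1) (le_trans (Finset.card_union_le _ _)
        (Nat.add_le_add j3 j2))
    beta_reduce
    omega

end

theorem pf_X : T_X := by
  intro V _ _ G _ K t u v ht hK hdeg
  obtain ⟨Z, dir, R, p, q, Xp, Xq, h1, h2, h3, h4, h5, h6, h7, h8, h9, h10, _, h11⟩ :=
    exits G K t ∅ u v ht hK hdeg
  refine ⟨Z, dir, R, p, q, Xp, Xq, h1, h2, h3, h4, h5, h6, h7, h8, h9, h10, ?_⟩
  intro w hw
  have := h11 w hw
  rw [if_neg (Finset.notMem_empty w)] at this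
  omega

end Pool.Agent.H71.CN
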