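import Pool.Agent.H71.CN.Grow
import Pool.Agent.H71.CN.G
import Pool.Agent.H71.CN.X

/-!
# Robust connection and the greedy procedure
-/

set_option autoImplicit false

namespace Pool.Agent.H71.CN

open Finset

section
variable {V : Type} [Fintype V] [DecidableEq V]

/-- any two vertices are connected, avoiding a small set `W` of vertices (as inner vertices) and
any set of edges with few edges at each vertex outside `Z` -/
def Rob (G : SimpleGraph V) (l s M : ℕ) (B : V → ℕ) : Prop :=
  ∀ (Z W : Finset V) (U : Finset (Sym2 V)) (p q : V), Z.card ≤ s → W.card ≤ M →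
    (∀ w, w ∉ Z → us U w ≤ B w) → p ∉ Z → q ∉ Z →
    ∃ (A : Finset (Sym2 V)) (T : Finset V), Disjoint A U ∧ Jo G A p q ∧ T.card ≤ l ∧
      (∀ w ∈ T, w ∉ W) ∧
      ∀ w, us A w ≤ (if p = w then 1 else 0) + (if q = w then 1 else 0) +
        2 * (if w ∈ T then 1 else 0)

/-- the edges of a path at a vertex -/
lemma path_us {G : SimpleGraph V} {p q : V} (w : G.Walk p q) (hw : w.IsPath) (x : V) :
    us w.edges.toFinset x + (if p = x then 1 else 0) + (if q = x then 1 else 0) ≤
      2 * (if x ∈ w.support then 1 else 0) := by
  induction w with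
  | nil =>
    simp only [SimpleGraph.Walk.edges_nil, List.toFinset_nil, SimpleGraph.Walk.support_nil,
      List.mem_singleton]
    have h0 : us (∅ : Finset (Sym2 V)) x = 0 := by simp [us]
    rw [h0]
    split_ifs with h1 h2 h3
    · omega
    · exact absurd h1.symm h2
    · omega
    · omega
  | @cons a b c hab w ih =>
    rw [SimpleGraph.Walk.cons_isPath_iff] at hw
    have h1 := ih hw.1
    have h2 := g_us_union {s(a, b)} w.edges.toFinset x
    have h3 := g_us_single a b x
    have h4 : (SimpleGraph.Walk.cons hab w).edges.toFinset = {s(a, b)} ∪ w.edges.toFinset := by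
      rw [SimpleGraph.Walk.edges_cons, List.toFinset_cons]
      rfl
    rw [h4]
    have h5 : (if x ∈ (SimpleGraph.Walk.cons hab w).support then 1 else 0) =
        (if a = x then 1 else 0) + (if x ∈ w.support then 1 else 0) := by
      rw [SimpleGraph.Walk.support_cons]
      by_cases ha : a = x
      · subst ha
        rw [if_pos (List.mem_cons_self), if_pos rfl, if_neg hw.2]
      · rw [if_neg ha]
        by_cases hx : x ∈ w.support
        · rw [if_pos hx, if_pos (List.mem_cons_of_mem _ hx)]
        · rw [if_neg hx, if_neg]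
          intro h
          rcases List.mem_cons.1 h with h | h
          · exact ha h.symm
          · exact hx h
    rw [h5]
    omega

/-- from a walk to a path with inner vertices -/
lemma walk_rob {G : SimpleGraph V} (H : V → V → Prop) (W : Finset V) (p q : V) (hpq : p ≠ q)
    (l : ℕ) (w : G.Walk p q) (hl : w.length ≤ l)
    (hw : ∀ e ∈ w.edges, ∃ x y, e = s(x, y) ∧ H x y)
    (hH : ∀ x y, H x y → (x ∉ W ∨ x = p ∨ x = q) ∧ (y ∉ W ∨ y = p ∨ y = q)) :
    ∃ (A : Finset (Sym2 V)) (T : Finset V), Jo G A p q ∧ T.card ≤ l ∧ (∀ w ∈ T, w ∉ W) ∧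
      (∀ e ∈ A, ∃ x y, e = s(x, y) ∧ H x y) ∧
      ∀ w, us A w ≤ (if p = w then 1 else 0) + (if q = w then 1 else 0) +
        2 * (if w ∈ T then 1 else 0) := by
  classical
  have hP := w.bypass_isPath
  have hE : ∀ e ∈ w.bypass.edges, e ∈ w.edges := w.edges_bypass_subset_edges
  have hlen : w.bypass.length ≤ w.length := w.length_bypass_le_length
  refine ⟨w.bypass.edges.toFinset, w.bypass.support.toFinset \ {p, q}, ⟨w.bypass, ?_⟩, ?_, ?_,
    ?_, ?_⟩
  · intro e he
    exact List.mem_toFinset.2 he
  · have h1 : (w.bypass.support.toFinset).card = w.bypass.length + 1 := by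
      rw [List.toFinset_card_of_nodup hP.support_nodup, SimpleGraph.Walk.length_support]
    have h2 : ({p, q} : Finset V) ⊆ w.bypass.support.toFinset := by
      intro x hx
      rw [mem_insert, mem_singleton] at hx
      rw [List.mem_toFinset]
      rcases hx with rfl | rfl
      · exact w.bypass.start_mem_support
      · exact w.bypass.end_mem_support
    have h3 := Finset.card_sdiff_add_card_eq_card h2
    rw [Finset.card_pair hpq, h1] at h3
    omega
  · intro x hx hxW
    rw [mem_sdiff, mem_insert, mem_singleton, not_or, List.mem_toFinset] at hx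
    obtain ⟨hx1, hx2, hx3⟩ := hx
    -- the vertex is on an edge
    have hlen0 : ¬ w.bypass.Nil := by
      intro h
      exact hpq h.eq
    obtain ⟨e, he, hxe⟩ := (SimpleGraph.Walk.mem_support_iff_exists_mem_edges_of_not_nil
      hlen0).1 hx1
    obtain ⟨a, b, hab, hHab⟩ := hw e (hE e he)
    have h4 := hH a b hHab
    rw [hab, Sym2.mem_iff] at hxe
    rcases hxe with rfl | rfl
    · rcases h4.1 with h | h | h
      · exact h hxW
      · exact hx2 h
      · exact hx3 h
    · rcases h4.2 with h | h | h
      · exact h hxW
      · exact hx2 h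
      · exact hx3 h
  · intro e he
    exact hw e (hE e (List.mem_toFinset.1 he))
  · intro x
    have h1 := path_us w.bypass hP x
    by_cases hxp : p = x
    · have hxq : q ≠ x := fun h => hpq (hxp.trans h.symm)
      rw [if_pos hxp, if_neg hxq] at h1 ⊢
      split_ifs at h1 <;> omega
    · by_cases hxq : q = x
      · rw [if_neg hxp, if_pos hxq] at h1 ⊢
        split_ifs at h1 <;> omega
      · rw [if_neg hxp, if_neg hxq] at h1 ⊢
        by_cases hxs : x ∈ w.bypass.support
        · rw [if_pos hxs] at h1
          rw [if_pos]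
          · omega
          · rw [mem_sdiff, mem_insert, mem_singleton, not_or, List.mem_toFinset]
            exact ⟨hxs, Ne.symm hxp, Ne.symm hxq⟩
        · rw [if_neg hxs] at h1
          omega

/-- **greedy procedure** -/
theorem greedy {I : Type} [Fintype I] [DecidableEq I] (G : SimpleGraph V) (l s L K : ℕ)
    (Q : V → ℕ) (Z : Finset V) (U : Finset (Sym2 V)) (p q : I → V)
    (hH : Rob G l s (l * K / L) (fun w => Q w + 2 * L)) (hZ : Z.card ≤ s) (hL : 1 ≤ L)
    (hI : Fintype.card I ≤ K) (hpq : ∀ i, p i ∉ Z ∧ q i ∉ Z)
    (hUs : ∀ w, w ∉ Z → us U w + (univ.filter (fun i => p i = w)).card +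
      (univ.filter (fun i => q i = w)).card ≤ Q w) :
    ∃ F : I → Finset (Sym2 V), (∀ i, Disjoint (F i) U) ∧
      (∀ i j, i ≠ j → Disjoint (F i) (F j)) ∧ ∀ i, Jo G (F i) (p i) (q i) := by
  have key : ∀ J : Finset I, ∃ (F : I → Finset (Sym2 V)) (r : V → ℕ),
      (∀ w, r w ≤ L) ∧ ∑ w, r w ≤ l * J.card ∧ (∀ i ∈ J, Disjoint (F i) U) ∧
      (∀ i ∈ J, ∀ j ∈ J, i ≠ j → Disjoint (F i) (F j)) ∧
      (∀ i ∈ J, Jo G (F i) (p i) (q i)) ∧
      ∀ w, w ∉ Z → us (U ∪ J.biUnion F) w ≤ us U w + (J.filter (fun i => p i = w)).card +
        (J.filter (fun i => q i = w)).card + 2 * r w := by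
    intro J
    induction J using Finset.induction_on with
    | empty =>
      refine ⟨fun _ => ∅, fun _ => 0, by simp, by simp, by simp, by simp, by simp, ?_⟩
      intro w _
      simp
    | insert i J hi ih =>
      obtain ⟨F, r, h1, h2, h3, h4, h5, h6⟩ := ih
      have hJK : J.card ≤ K := le_trans (Finset.card_le_univ J) hI
      have hfull : (univ.filter (fun w => L ≤ r w)).card ≤ l * K / L := by
        rw [Nat.le_div_iff_mul_le hL]
        have e1 : (univ.filter (fun w => L ≤ r w)).card * L ≤
            ∑ w ∈ univ.filter (fun w => L ≤ r w), r w := by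
          rw [← smul_eq_mul]
          refine Finset.card_nsmul_le_sum _ _ _ ?_
          intro w hw
          exact (mem_filter.1 hw).2
        have e2 : ∑ w ∈ univ.filter (fun w => L ≤ r w), r w ≤ ∑ w, r w :=
          Finset.sum_le_sum_of_subset (Finset.filter_subset _ _)
        have e3 : l * J.card ≤ l * K := Nat.mul_le_mul_left _ hJK
        omega
      have hus : ∀ w, w ∉ Z → us (U ∪ J.biUnion F) w ≤ Q w + 2 * L := by
        intro w hw
        have e1 := h6 w hw
        have e2 := hUs w hw
        have e3 := h1 w
        have e4 : (J.filter (fun i => p i = w)).card ≤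
            (univ.filter (fun i => p i = w)).card :=
          Finset.card_le_card (Finset.filter_subset_filter _ (Finset.subset_univ _))
        have e5 : (J.filter (fun i => q i = w)).card ≤
            (univ.filter (fun i => q i = w)).card :=
          Finset.card_le_card (Finset.filter_subset_filter _ (Finset.subset_univ _))
        omega
      obtain ⟨A, T, hA, hJo, hT2, hTL, hAw⟩ := hH Z (univ.filter (fun w => L ≤ r w))
        (U ∪ J.biUnion F) (p i) (q i) hZ hfull hus (hpq i).1 (hpq i).2
      rw [Finset.disjoint_union_right] at hA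
      have hAF : ∀ j ∈ J, Disjoint A (F j) := by
        intro j hj
        exact Finset.disjoint_of_subset_right (Finset.subset_biUnion_of_mem F hj) hA.2
      have hne : ∀ j ∈ J, j ≠ i := fun j hj h => hi (h ▸ hj)
      refine ⟨Function.update F i A, fun w => r w + if w ∈ T then 1 else 0, ?_, ?_, ?_, ?_,
        ?_, ?_⟩
      · intro w
        by_cases hw : w ∈ T
        · have h := hTL w hw
          rw [mem_filter, not_and, not_le] at h
          have := h (mem_univ _)
          simp only [hw, if_true]
          omega
        · simp only [hw, if_false]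
          exact h1 w
      · rw [Finset.sum_add_distrib, Finset.card_insert_of_notMem hi]
        have : ∑ w, (if w ∈ T then 1 else 0) = T.card := by simp
        rw [Nat.mul_add, Nat.mul_one]
        omega
      · intro j hj
        rcases Finset.mem_insert.1 hj with rfl | hj
        · rw [Function.update_self]
          exact hA.1
        · rw [Function.update_of_ne (hne j hj)]
          exact h3 j hj
      · intro j hj k hk hjk
        rcases Finset.mem_insert.1 hj with hji | hj'
        · rcases Finset.mem_insert.1 hk with hki | hk'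
          · exact absurd (hji.trans hki.symm) hjk
          · rw [hji, Function.update_self, Function.update_of_ne (hne k hk')]
            exact hAF k hk'
        · rcases Finset.mem_insert.1 hk with hki | hk'
          · rw [hki, Function.update_self, Function.update_of_ne (hne j hj')]
            exact (hAF j hj').symm
          · rw [Function.update_of_ne (hne k hk'), Function.update_of_ne (hne j hj')]
            exact h4 j hj' k hk' hjk
      · intro j hj
        rcases Finset.mem_insert.1 hj with rfl | hj
        · rw [Function.update_self]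
          exact hJo
        · rw [Function.update_of_ne (hne j hj)]
          exact h5 j hj
      · intro w hw
        have e1 : U ∪ (insert i J).biUnion (Function.update F i A) ⊆
            (U ∪ J.biUnion F) ∪ A := by
          intro e he
          rw [mem_union] at he
          rcases he with he | he
          · exact mem_union_left _ (mem_union_left _ he)
          · rw [mem_biUnion] at he
            obtain ⟨j, hj, he⟩ := he
            rcases Finset.mem_insert.1 hj with rfl | hj
            · rw [Function.update_self] at he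
              exact mem_union_right _ he
            · rw [Function.update_of_ne (hne j hj)] at he
              exact mem_union_left _ (mem_union_right _ (mem_biUnion.2 ⟨j, hj, he⟩))
        have e2 := g_us_mono e1 w
        have e3 := g_us_union (U ∪ J.biUnion F) A w
        have e4 := h6 w hw
        have e5 := hAw w
        have e6 : ((insert i J).filter (fun j => p j = w)).card =
            (J.filter (fun j => p j = w)).card + if p i = w then 1 else 0 := by
          rw [Finset.filter_insert]
          split_ifs with h
          · rw [Finset.card_insert_of_notMem]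
            intro h'
            exact hi (mem_filter.1 h').1
          · rfl
        have e7 : ((insert i J).filter (fun j => q j = w)).card =
            (J.filter (fun j => q j = w)).card + if q i = w then 1 else 0 := by
          rw [Finset.filter_insert]
          split_ifs with h
          · rw [Finset.card_insert_of_notMem]
            intro h'
            exact hi (mem_filter.1 h').1
          · rfl
        rw [e6, e7]
        beta_reduce
        omega
  obtain ⟨F, r, _, _, h3, h4, h5, _⟩ := key univ
  exact ⟨F, fun i => h3 i (mem_univ i), fun i j hij => h4 i (mem_univ i) j (mem_univ j) hij,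
    fun i => h5 i (mem_univ i)⟩

/-- many common neighbours -/
theorem rob_hyp (G : SimpleGraph V) [DecidableRel G.Adj] (D s M B : ℕ) (hH : Hyp G D)
    (hD : s + 2 * B + M + 2 ≤ D) : Rob G 2 s M (fun _ => B) := by
  intro Z W U p q hZ hW hU hp hq
  have hr : univ.filter (fun w => 1 ≤ (if w ∈ W then 1 else 0)) = W := by
    ext w
    rw [mem_filter]
    by_cases hw : w ∈ W <;> simp [hw]
  obtain ⟨A, T, h1, h2, h3, h4, h5⟩ := g_one G D s B 1 M Z U (fun w => if w ∈ W then 1 else 0)
    p q hH hZ (by rw [hr]; exact hW) hU hp hq hD
  refine ⟨A, T, h1, h2, h3, ?_, h5⟩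
  intro w hw hwW
  have := h4 w hw
  rw [if_pos hwW] at this
  omega

lemma ball_mem (H : V → V → Prop) [DecidableRel H] (p : V) (r : ℕ) :
    ∀ y ∈ ball H p r, y = p ∨ ∃ x, H x y := by
  induction r with
  | zero =>
    intro y hy
    rw [ball, mem_singleton] at hy
    exact Or.inl hy
  | succ r ih =>
    intro y hy
    rw [ball, mem_union, mem_filter] at hy
    rcases hy with hy | ⟨_, x, _, hxy⟩
    · exact ih y hy
    · exact Or.inr ⟨x, hxy⟩

omit [DecidableEq V] in
lemma vol_univ_le (G : SimpleGraph V) [DecidableRel G.Adj] (N : ℕ)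
    (hn : Fintype.card V ≤ 2 ^ N) : vol G univ ≤ 2 ^ (2 * N) := by
  have h1 := vol_le_card G univ (Fintype.card V) (fun x => Finset.card_le_univ _)
  rw [Finset.card_univ] at h1
  calc vol G univ ≤ Fintype.card V * Fintype.card V := h1
    _ ≤ 2 ^ N * 2 ^ N := Nat.mul_le_mul hn hn
    _ = 2 ^ (2 * N) := by rw [← pow_add]; congr 1; omega

/-- conductance gives robust connection -/
theorem rob_cond (G : SimpleGraph V) [DecidableRel G.Adj] (E s M N : ℕ) (B : V → ℕ)
    (hE : 1 ≤ E) (hC : Cond G E) (hK : ∀ x, 1 ≤ dg G x)
    (hb : ∀ x, 2 * (E * (B x + s + M)) ≤ dg G x)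
    (hn : Fintype.card V ≤ 2 ^ N) : Rob G (8 * E * N) s M B := by
  classical
  intro Z W U p q hZ hW hU hp hq
  by_cases hpq : p = q
  · subst hpq
    refine ⟨∅, ∅, by simp, ⟨SimpleGraph.Walk.nil, by simp⟩, by simp, by simp, ?_⟩
    intro w
    have : us (∅ : Finset (Sym2 V)) w = 0 := by simp [us]
    omega
  obtain ⟨H, hHdef⟩ : ∃ H : V → V → Prop, ∀ x y, H x y ↔ (G.Adj x y ∧ s(x, y) ∉ U ∧
      (x ∉ Z ∪ W ∨ x = p ∨ x = q) ∧ (y ∉ Z ∪ W ∨ y = p ∨ y = q)) := ⟨_, fun _ _ => Iff.rfl⟩
  have hHG : ∀ x y, H x y → G.Adj x y := fun x y h => ((hHdef x y).1 h).1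
  have big : ∀ a : V, (a = p ∨ a = q) → vol G univ < 2 * vol G (ball H a (4 * E * N)) := by
    intro a ha
    have hgr := grow G H hHG a (2 * E) (4 * E * N) (hK a) (by
      intro r _ h2 _
      set S := ball H a r with hS
      have hSok : ∀ x ∈ S, x ∉ Z ∪ W ∨ x = p ∨ x = q := by
        intro x hx
        rcases ball_mem H a r x hx with h | ⟨y, h⟩
        · right
          rw [h]; exact ha
        · exact ((hHdef y x).1 h).2.2.2
      have h3 := bd_le G H S (fun x => B x + s + M) (by
        intro x hx
        have hxZ : x ∉ Z := by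
          rcases hSok x hx with h | h | h
          · exact fun h' => h (mem_union_left _ h')
          · rw [h]; exact hp
          · rw [h]; exact hq
        have h4 : univ.filter (fun y => G.Adj x y ∧ y ∉ S ∧ ¬ H x y) ⊆
            univ.filter (fun y => s(x, y) ∈ U) ∪ (Z ∪ W) := by
          intro y hy
          rw [mem_filter] at hy
          obtain ⟨_, hxy, _, hnH⟩ := hy
          by_cases hyU : s(x, y) ∈ U
          · exact mem_union_left _ (mem_filter.2 ⟨mem_univ _, hyU⟩)
          · apply mem_union_right
            by_contra hyW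
            exact hnH ((hHdef x y).2 ⟨hxy, hyU, hSok x hx, Or.inl hyW⟩)
        have h5 := Finset.card_le_card h4
        have h6 := Finset.card_union_le (univ.filter (fun y => s(x, y) ∈ U)) (Z ∪ W)
        have h7 := Finset.card_union_le Z W
        have h8 : (univ.filter (fun y => s(x, y) ∈ U)).card ≤ B x := hU x hxZ
        omega)
      have h4 := hC S h2
      have h6 : 2 * (E * ∑ x ∈ S, (B x + s + M)) ≤ vol G S := by
        unfold vol
        rw [Finset.mul_sum, Finset.mul_sum]
        exact Finset.sum_le_sum (fun x _ => hb x)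
      have h7 : E * bd G S ≤ E * (CN.hb H S + ∑ x ∈ S, (B x + s + M)) :=
        Nat.mul_le_mul_left _ h3
      have h8 : E * (CN.hb H S + ∑ x ∈ S, (B x + s + M)) =
        E * CN.hb H S + E * ∑ x ∈ S, (B x + s + M) := by ring
      have h9 : 2 * E * CN.hb H S = 2 * (E * CN.hb H S) := by ring
      omega) (4 * E * N) le_rfl
    rcases hgr with h | h
    · exact h
    · have h1 := bern_pow (2 * E) (2 * N) (by omega)
      have h2 := vol_univ_le G N hn
      have h3 : 2 * E * (2 * N) = 4 * E * N := by ring
      rw [h3] at h1
      have h4 : 2 ^ (2 * N) * (2 * E) ^ (4 * E * N) ≤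
          vol G (ball H a (4 * E * N)) * (2 * E) ^ (4 * E * N) := by
        rw [mul_comm (vol G _)]
        exact le_trans h1 h
      have h5 := Nat.le_of_mul_le_mul_right h4 (by positivity)
      have h6 : 0 < 2 ^ (2 * N) := by positivity
      omega
  obtain ⟨w, hw1, hw2⟩ := ball_meet G H hHG p q (4 * E * N)
    (half_meet G _ _ (big p (Or.inl rfl)) (big q (Or.inr rfl)))
  obtain ⟨A, T, h1, h2, h3, h4, h5⟩ := walk_rob H (Z ∪ W) p q hpq (8 * E * N) w
    (le_trans hw1 (le_of_eq (by ring))) hw2
    (fun x y h => ⟨((hHdef x y).1 h).2.2.1, ((hHdef x y).1 h).2.2.2⟩)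
  refine ⟨A, T, ?_, h1, h2, ?_, h5⟩
  · rw [Finset.disjoint_left]
    intro e he heU
    obtain ⟨x, y, hxy, hHxy⟩ := h4 e he
    rw [hxy] at heU
    exact ((hHdef x y).1 hHxy).2.1 heU
  · intro x hx hxW
    exact h3 x hx (mem_union_right _ hxW)

end

end Pool.Agent.H71.CN
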